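import Mathlib

/-! Cyclic vectors (helper60). -/

set_option autoImplicit false

namespace Pool.Agent.SLM

open Module Polynomial

/-- cyclic vectors: surjectivity -/
lemma cyc_surj {F V : Type*} [Field F] [AddCommGroup V] [Module F V]
    (x : Module.End F V) (h : V) (hc : ∀ U : Submodule F V, h ∈ U → (∀ v ∈ U, x v ∈ U) → U = ⊤)
    (v : V) : ∃ q : F[X], aeval x q h = v := by
  let U : Submodule F V :=
    { carrier := {v | ∃ q : F[X], aeval x q h = v}
      add_mem' := by
        rintro a b ⟨q, rfl⟩ ⟨r, rfl⟩
        exact ⟨q + r, by rw [map_add, LinearMap.add_apply]⟩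
      zero_mem' := ⟨0, by simp⟩
      smul_mem' := by
        rintro c a ⟨q, rfl⟩
        exact ⟨c • q, by rw [map_smul, LinearMap.smul_apply]⟩ }
  have hU : U = ⊤ := by
    apply hc U
    · exact ⟨1, by simp⟩
    · rintro v ⟨q, rfl⟩
      exact ⟨X * q, by rw [map_mul, aeval_X]; rfl⟩
  have : v ∈ U := by rw [hU]; exact Submodule.mem_top
  exact this

/-- cyclic vectors: the annihilator -/
lemma cyc_ann {F V : Type*} [Field F] [AddCommGroup V] [Module F V]
    [FiniteDimensional F V] (x : Module.End F V) (h : V)
    (hc : ∀ U : Submodule F V, h ∈ U → (∀ v ∈ U, x v ∈ U) → U = ⊤) (f : F[X]) (hf : f.Monic)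
    (hfd : f.natDegree = finrank F V) (hx : aeval x f = 0) (q : F[X])
    (hq : aeval x q h = 0) : f ∣ q := by
  have hfin : Module.finrank F (degreeLT F (finrank F V)) = finrank F V := by
    rw [LinearEquiv.finrank_eq (degreeLTEquiv F (finrank F V)), Module.finrank_fin_fun]
  have : FiniteDimensional F (degreeLT F (finrank F V)) :=
    Module.Finite.equiv (degreeLTEquiv F (finrank F V)).symm
  let π : degreeLT F (finrank F V) →ₗ[F] V :=
    { toFun := fun p => aeval x p.1 h
      map_add' := by intro p q; simp
      map_smul' := by intro r p; simp }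
  have hπ : ∀ p, π p = aeval x p.1 h := fun p => rfl
  have hdeg : ∀ q : F[X], (q %ₘ f).degree < finrank F V := by
    intro q
    have h1 := degree_modByMonic_lt q hf
    rw [degree_eq_natDegree hf.ne_zero, hfd] at h1
    exact h1
  have hmod : ∀ q : F[X], aeval x (q %ₘ f) = aeval x q := by
    intro q
    conv_rhs => rw [← modByMonic_add_div q f]
    rw [map_add, map_mul, hx, zero_mul, add_zero]
  have hsurj : Function.Surjective π := by
    intro v
    obtain ⟨r, hr⟩ := cyc_surj x h hc v
    refine ⟨⟨r %ₘ f, mem_degreeLT.2 (hdeg r)⟩, ?_⟩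
    rw [hπ]
    change aeval x (r %ₘ f) h = v
    rw [hmod, hr]
  have hinj : Function.Injective π :=
    (LinearMap.injective_iff_surjective_of_finrank_eq_finrank hfin).2 hsurj
  have h0 : q %ₘ f = 0 := by
    have h1 : π ⟨q %ₘ f, mem_degreeLT.2 (hdeg q)⟩ = 0 := by
      rw [hπ]
      change aeval x (q %ₘ f) h = 0
      rw [hmod, hq]
    have h2 := (injective_iff_map_eq_zero π).1 hinj _ h1
    exact congrArg Subtype.val h2
  exact (modByMonic_eq_zero_iff_dvd hf).1 h0

/-- cyclic vectors: from independence to generation -/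
lemma cyc_gen {F V : Type*} [Field F] [AddCommGroup V] [Module F V]
    [FiniteDimensional F V] (x : Module.End F V) (h : V) (n : ℕ) (hn : finrank F V = n)
    (hc : ∀ p : F[X], p.degree < (n : WithBot ℕ) → aeval x p h = 0 → p = 0) (v : V) :
    ∃ q : F[X], aeval x q h = v := by
  have hfin : Module.finrank F (degreeLT F n) = finrank F V := by
    rw [LinearEquiv.finrank_eq (degreeLTEquiv F n), Module.finrank_fin_fun, hn]
  have : FiniteDimensional F (degreeLT F n) :=
    Module.Finite.equiv (degreeLTEquiv F n).symm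
  let π : degreeLT F n →ₗ[F] V :=
    { toFun := fun p => aeval x p.1 h
      map_add' := by intro p q; simp
      map_smul' := by intro r p; simp }
  have hinj : Function.Injective π := by
    rw [injective_iff_map_eq_zero]
    intro p hp
    exact Subtype.ext (hc p.1 (mem_degreeLT.1 p.2) hp)
  have hsurj : Function.Surjective π :=
    (LinearMap.injective_iff_surjective_of_finrank_eq_finrank hfin).1 hinj
  obtain ⟨q, hq⟩ := hsurj v
  exact ⟨q.1, hq⟩

end Pool.Agent.SLM
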