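import Pool.Agent.SLM.GFac
import Pool.Agent.SLM.Cyc

/-! Both factors extend `Θ` (helper60, from `gfac`). -/

set_option autoImplicit false

namespace Pool.Agent.SLM

open Module Polynomial

/-- module GFac2 (from gfac with f = (X - c) charpoly Θ, c = 1 / det Θ): both factors extend Θ -/
theorem gfac2 {F V E : Type*} [Field F] [AddCommGroup V] [Module F V] [FiniteDimensional F V]
    [AddCommGroup E] [Module F E] [FiniteDimensional F E]
    (hV : Module.finrank F V = Module.finrank F E + 1) (hE : 1 ≤ Module.finrank F E)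
    (A : V ≃ₗ[F] V) (hA : ∀ c : F, ∃ v, A v ≠ c • v)
    (hdet : LinearMap.det (A : V →ₗ[F] V) = 1)
    (Θ : E ≃ₗ[F] E) (η : E)
    (hη : ∀ U : Submodule F E, η ∈ U → (∀ v ∈ U, Θ v ∈ U) → U = ⊤) :
    ∃ (x y : V ≃ₗ[F] V), (∀ v, y (x v) = A v) ∧
      LinearMap.det (x : V →ₗ[F] V) = 1 ∧ LinearMap.det (y : V →ₗ[F] V) = 1 ∧
      (∃ ι : E →ₗ[F] V, Function.Injective ι ∧ ∀ e, x (ι e) = ι (Θ e)) ∧
      (∃ ι : E →ₗ[F] V, Function.Injective ι ∧ ∀ e, y (ι e) = ι (Θ e)) := by
  set p : F[X] := LinearMap.charpoly (Θ : E →ₗ[F] E) with hp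
  have hpm : p.Monic := LinearMap.charpoly_monic _
  have hpd : p.natDegree = finrank F E := LinearMap.charpoly_natDegree _
  set c : F := (LinearMap.det (Θ : E →ₗ[F] E))⁻¹ with hc
  have hdΘ : LinearMap.det (Θ : E →ₗ[F] E) ≠ 0 := by
    have := LinearEquiv.isUnit_det' Θ
    exact this.ne_zero
  have hdp : LinearMap.det (Θ : E →ₗ[F] E) = (-1) ^ finrank F E * p.coeff 0 :=
    LinearMap.det_eq_sign_charpoly_coeff _
  have hp0 : p.coeff 0 ≠ 0 := by
    intro h0
    rw [h0, mul_zero] at hdp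
    exact hdΘ hdp
  set f : F[X] := (X - C c) * p with hf
  have hfm : f.Monic := (monic_X_sub_C c).mul hpm
  have hfd : f.natDegree = finrank F V := by
    rw [hf, Monic.natDegree_mul (monic_X_sub_C c) hpm, natDegree_X_sub_C, hpd, hV, add_comm]
  have hfc : f.coeff 0 = -c * p.coeff 0 := by
    rw [hf, mul_coeff_zero]
    simp
  have hf0 : f.coeff 0 ≠ 0 := by
    rw [hfc]
    exact mul_ne_zero (neg_ne_zero.2 (inv_ne_zero hdΘ)) hp0
  obtain ⟨x, y, h, ι, hyx, hcx, hfx, hι, hyι⟩ := gfac hV hE A hA Θ η hη f hfm hfd hf0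
  -- determinants
  have hchar : LinearMap.charpoly (x : V →ₗ[F] V) = f := by
    have h1 : f ∣ LinearMap.charpoly (x : V →ₗ[F] V) := by
      apply cyc_ann (x : V →ₗ[F] V) h hcx f hfm hfd hfx
      rw [LinearMap.aeval_self_charpoly, LinearMap.zero_apply]
    exact (eq_of_monic_of_dvd_of_natDegree_le hfm (LinearMap.charpoly_monic _) h1
      (by rw [LinearMap.charpoly_natDegree, hfd]))
  have hdx : LinearMap.det (x : V →ₗ[F] V) = 1 := by
    rw [LinearMap.det_eq_sign_charpoly_coeff, hchar, hfc, hV, pow_succ]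
    have h1 : (-1 : F) ^ finrank F E * -1 * (-c * p.coeff 0) =
        c * ((-1) ^ finrank F E * p.coeff 0) := by ring
    rw [h1, ← hdp, hc, inv_mul_cancel₀ hdΘ]
  have hdy : LinearMap.det (y : V →ₗ[F] V) = 1 := by
    have h1 : (A : V →ₗ[F] V) = (y : V →ₗ[F] V) ∘ₗ (x : V →ₗ[F] V) :=
      LinearMap.ext fun v => (hyx v).symm
    rw [h1, LinearMap.det_comp, hdx, mul_one] at hdet
    exact hdet
  refine ⟨x, y, hyx, hdx, hdy, ?_, ι, hι, hyι⟩
  -- the second embedding
  let π : F[X] →ₗ[F] E :=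
    { toFun := fun q => aeval (Θ : E →ₗ[F] E) q η
      map_add' := by intro q r; simp
      map_smul' := by intro r q; simp }
  let σ : F[X] →ₗ[F] V :=
    { toFun := fun q => aeval (x : V →ₗ[F] V) (q * (X - C c)) h
      map_add' := by intro q r; rw [add_mul, map_add, LinearMap.add_apply]
      map_smul' := by
        intro r q
        rw [smul_mul_assoc, map_smul, LinearMap.smul_apply, RingHom.id_apply] }
  have hπ : ∀ q, π q = aeval (Θ : E →ₗ[F] E) q η := fun q => rfl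
  have hσ : ∀ q, σ q = aeval (x : V →ₗ[F] V) (q * (X - C c)) h := fun q => rfl
  have hπs : Function.Surjective π := fun e => cyc_surj (Θ : E →ₗ[F] E) η hη e
  have hker1 : ∀ q, π q = 0 → p ∣ q := fun q hq =>
    cyc_ann (Θ : E →ₗ[F] E) η hη p hpm hpd (LinearMap.aeval_self_charpoly _) q hq
  have hker2 : ∀ q, σ q = 0 → p ∣ q := by
    intro q hq
    have h1 := cyc_ann (x : V →ₗ[F] V) h hcx f hfm hfd hfx _ hq
    rw [hf, mul_comm q] at h1
    exact (mul_dvd_mul_iff_left (X_sub_C_ne_zero c)).1 h1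
  have hker3 : ∀ q, p ∣ q → σ q = 0 := by
    rintro q ⟨r, rfl⟩
    rw [hσ]
    have h1 : p * r * (X - C c) = r * f := by rw [hf]; ring
    rw [h1, map_mul, hfx, mul_zero, LinearMap.zero_apply]
  have hle : LinearMap.ker π ≤ LinearMap.ker σ := by
    intro q hq
    exact LinearMap.mem_ker.2 (hker3 q (hker1 q (LinearMap.mem_ker.1 hq)))
  let e := π.quotKerEquivOfSurjective hπs
  let ι' : E →ₗ[F] V := ((LinearMap.ker π).liftQ σ hle) ∘ₗ (e.symm : E →ₗ[F] _)
  have hι' : ∀ q, ι' (π q) = σ q := by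
    intro q
    have h1 : e.symm (π q) = Submodule.Quotient.mk q := by
      rw [LinearEquiv.symm_apply_eq]
      rfl
    change ((LinearMap.ker π).liftQ σ hle) (e.symm (π q)) = σ q
    rw [h1]
    rfl
  refine ⟨ι', ?_, ?_⟩
  · rw [injective_iff_map_eq_zero]
    intro v hv
    obtain ⟨q, rfl⟩ := hπs v
    rw [hι'] at hv
    obtain ⟨r, rfl⟩ := hker2 q hv
    have h0 : aeval (Θ : E →ₗ[F] E) p = 0 := LinearMap.aeval_self_charpoly _
    rw [hπ, map_mul, h0, zero_mul, LinearMap.zero_apply]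
  · intro v
    obtain ⟨q, rfl⟩ := hπs v
    have h1 : Θ (π q) = π (X * q) := by
      rw [hπ, hπ, map_mul, aeval_X]; rfl
    have h2 : aeval (x : V →ₗ[F] V) (X * (q * (X - C c))) =
        (x : V →ₗ[F] V) * aeval (x : V →ₗ[F] V) (q * (X - C c)) := by
      rw [map_mul, aeval_X]
    rw [h1, hι', hι', hσ, hσ, mul_assoc, h2]
    rfl

end Pool.Agent.SLM
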