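import Pool.Agent.SLM.Defs
import Pool.Agent.SLM.GFac2

/-! Every nonscalar element of `SL_3(F)` is a product of two elements having a power which is a transvection
(helper92). -/

set_option autoImplicit false

namespace Pool.Agent.SLM

open Matrix Pool.Agent.SLN Module

/-- `J_2(a)` -/
private noncomputable def jtwo {F : Type*} [Field F] (a : F) (ha : a ≠ 0) :
    (F × F) ≃ₗ[F] (F × F) where
  toFun e := (a * e.1 + e.2, a * e.2)
  map_add' x y := by ext <;> simp <;> ring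
  map_smul' t x := by ext <;> simp <;> ring
  invFun e := (a⁻¹ * (e.1 - a⁻¹ * e.2), a⁻¹ * e.2)
  left_inv e := by
    ext
    · simp only []
      field_simp
      ring
    · simp only []
      field_simp
  right_inv e := by
    ext
    · simp only []
      field_simp
      ring
    · simp only []
      field_simp

private lemma jtwo_cyc {F : Type*} [Field F] (a : F) (ha : a ≠ 0) (U : Submodule F (F × F))
    (h1 : ((0 : F), (1 : F)) ∈ U) (h2 : ∀ v ∈ U, jtwo a ha v ∈ U) : U = ⊤ := by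
  have h3 : ((1 : F), a) ∈ U := by
    have := h2 _ h1
    have h4 : jtwo a ha ((0 : F), (1 : F)) = ((1 : F), a) := by
      simp [jtwo]
    rwa [h4] at this
  rw [Submodule.eq_top_iff']
  rintro ⟨s, t⟩
  have h5 : ((s, t) : F × F) = s • ((1 : F), a) + (t - s * a) • ((0 : F), (1 : F)) := by
    ext <;> simp
  rw [h5]
  exact U.add_mem (U.smul_mem _ h3) (U.smul_mem _ h1)

/-- coordinates -/
private lemma frame {F V : Type*} [Field F] [AddCommGroup V] [Module F V] [FiniteDimensional F V]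
    (hV : finrank F V = 3) (a : F)
    (y : V ≃ₗ[F] V) (hdet : LinearMap.det (y : V →ₗ[F] V) = 1)
    (ι : (F × F) →ₗ[F] V) (hι : Function.Injective ι)
    (hy : ∀ e, y (ι e) = ι (a * e.1 + e.2, a * e.2)) :
    ∃ (Ψ : (Fin 3 → F) ≃ₗ[F] V) (p r c : F), a * a * c = 1 ∧
      ∀ x : Fin 3 → F, y (Ψ x) = Ψ ![a * x 0 + x 1 + p * x 2, a * x 1 + r * x 2, c * x 2] := by
  have hr : finrank F (LinearMap.range ι) = 2 := by
    rw [LinearMap.finrank_range_of_inj hι, finrank_prod, finrank_self]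
  obtain ⟨v₀, hv₀⟩ : ∃ v₀ : V, v₀ ∉ LinearMap.range ι := by
    by_contra hcon
    push Not at hcon
    have h1 : LinearMap.range ι = ⊤ := Submodule.eq_top_iff'.2 hcon
    rw [h1, finrank_top] at hr
    omega
  let P : (Fin 3 → F) →ₗ[F] V :=
    { toFun := fun x => ι (x 0, x 1) + x 2 • v₀
      map_add' := fun x z => by
        have h1 : (((x + z) 0, (x + z) 1) : F × F) = (x 0, x 1) + (z 0, z 1) := rfl
        rw [h1, map_add, Pi.add_apply, add_smul]
        abel
      map_smul' := fun t x => by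
        have h1 : (((t • x) 0, (t • x) 1) : F × F) = t • (x 0, x 1) := rfl
        rw [h1, map_smul, Pi.smul_apply, smul_add, smul_eq_mul, mul_smul]
        rfl }
  have hPa : ∀ x, P x = ι (x 0, x 1) + x 2 • v₀ := fun _ => rfl
  have hinj : Function.Injective P := by
    rw [← LinearMap.ker_eq_bot, LinearMap.ker_eq_bot']
    intro x hx
    rw [hPa] at hx
    have h2 : x 2 = 0 := by
      by_contra hne
      apply hv₀
      refine ⟨(-(x 2)⁻¹) • (x 0, x 1), ?_⟩
      rw [map_smul]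
      have h3 : ι (x 0, x 1) = - (x 2 • v₀) := eq_neg_of_add_eq_zero_left hx
      rw [h3, smul_neg, neg_smul, neg_neg, smul_smul, inv_mul_cancel₀ hne, one_smul]
    rw [h2, zero_smul, add_zero] at hx
    have h3 : ((x 0, x 1) : F × F) = 0 := hι (by rw [hx, map_zero])
    have h4 := congrArg Prod.fst h3
    have h5 := congrArg Prod.snd h3
    funext i
    fin_cases i
    · exact h4
    · exact h5
    · exact h2
  let Ψ : (Fin 3 → F) ≃ₗ[F] V := LinearMap.linearEquivOfInjective P hinj (by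
    rw [finrank_fin_fun, hV])
  have hΨa : ∀ x, Ψ x = ι (x 0, x 1) + x 2 • v₀ := fun _ => rfl
  obtain ⟨w, hw⟩ := Ψ.surjective (y v₀)
  have hmain : ∀ x : Fin 3 → F,
      y (Ψ x) = Ψ ![a * x 0 + x 1 + w 0 * x 2, a * x 1 + w 1 * x 2, w 2 * x 2] := by
    intro x
    have h1 : y (Ψ x) = ι (a * x 0 + x 1, a * x 1) + x 2 • Ψ w := by
      rw [hΨa, map_add, map_smul, hy, hw]
    have h2 : (![a * x 0 + x 1 + w 0 * x 2, a * x 1 + w 1 * x 2, w 2 * x 2] : Fin 3 → F)
        = ![a * x 0 + x 1, a * x 1, 0] + x 2 • w := by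
      funext i
      fin_cases i
      · simp [mul_comm]
      · simp [mul_comm]
      · simp [mul_comm]
    rw [h1, h2, map_add, map_smul]
    congr 1
    rw [hΨa]
    simp
  refine ⟨Ψ, w 0, w 1, w 2, ?_, hmain⟩
  let M : Matrix (Fin 3) (Fin 3) F := !![a, 1, w 0; 0, a, w 1; 0, 0, w 2]
  have hM : (Ψ : (Fin 3 → F) →ₗ[F] V) ∘ₗ (Matrix.toLin' M) ∘ₗ (Ψ.symm : V →ₗ[F] (Fin 3 → F)) =
      (y : V →ₗ[F] V) := by
    apply LinearMap.ext
    intro v
    obtain ⟨x, rfl⟩ := Ψ.surjective v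
    simp only [LinearMap.comp_apply, LinearEquiv.coe_coe, LinearEquiv.symm_apply_apply]
    rw [hmain]
    congr 1
    funext i
    fin_cases i
    · simp [M, Matrix.toLin'_apply, Matrix.mulVec, dotProduct, Fin.sum_univ_three]
    · simp [M, Matrix.toLin'_apply, Matrix.mulVec, dotProduct, Fin.sum_univ_three]
    · simp [M, Matrix.toLin'_apply, Matrix.mulVec, dotProduct, Fin.sum_univ_three]
  have hdM : LinearMap.det (y : V →ₗ[F] V) = a * a * w 2 := by
    rw [← hM, LinearMap.det_conj, LinearMap.det_toLin', Matrix.det_fin_three]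
    simp [M]
  rw [← hdM, hdet]

/-- transvections in coordinates -/
private lemma tv_of {F V : Type*} [Field F] [AddCommGroup V] [Module F V]
    (Ψ : (Fin 3 → F) ≃ₗ[F] V) (z : V ≃ₗ[F] V) (b d : F) (hbd : ¬ (b = 0 ∧ d = 0))
    (hz : ∀ x : Fin 3 → F, z (Ψ x) = Ψ ![x 0 + (b * x 1 + d * x 2), x 1, x 2]) :
    ∃ (φ : V →ₗ[F] F) (u : V), φ ≠ 0 ∧ u ≠ 0 ∧ φ u = 0 ∧ ∀ v, z v = v + φ v • u := by
  let φ₀ : (Fin 3 → F) →ₗ[F] F := b • LinearMap.proj 1 + d • LinearMap.proj 2
  have hφ₀ : ∀ x, φ₀ x = b * x 1 + d * x 2 := fun x => by simp [φ₀]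
  refine ⟨φ₀ ∘ₗ (Ψ.symm : V →ₗ[F] (Fin 3 → F)), Ψ ![1, 0, 0], ?_, ?_, ?_, ?_⟩
  · intro h
    apply hbd
    have h1 := DFunLike.congr_fun h (Ψ ![0, 1, 0])
    have h2 := DFunLike.congr_fun h (Ψ ![0, 0, 1])
    simp only [LinearMap.comp_apply, LinearEquiv.coe_coe, LinearEquiv.symm_apply_apply, hφ₀,
      LinearMap.zero_apply] at h1 h2
    constructor
    · simpa using h1
    · simpa using h2
  · intro h
    have h1 : (![1, 0, 0] : Fin 3 → F) = 0 := by
      apply Ψ.injective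
      rw [h, map_zero]
    have h2 := congrFun h1 0
    simp at h2
  · simp only [LinearMap.comp_apply, LinearEquiv.coe_coe, LinearEquiv.symm_apply_apply, hφ₀]
    simp
  · intro v
    obtain ⟨x, rfl⟩ := Ψ.surjective v
    simp only [LinearMap.comp_apply, LinearEquiv.coe_coe, LinearEquiv.symm_apply_apply, hφ₀]
    rw [hz, ← map_smul, ← map_add]
    congr 1
    funext i
    fin_cases i
    · simp
    · simp
    · simp

/-- `a^3 ≠ 1` -/
private lemma tv_ne {F V : Type*} [Field F] [Finite F] [AddCommGroup V] [Module F V]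
    [FiniteDimensional F V]
    (hV : finrank F V = 3) (a : F) (ha : a ≠ 0) (ha3 : a ^ 3 ≠ 1)
    (y : V ≃ₗ[F] V) (hdet : LinearMap.det (y : V →ₗ[F] V) = 1)
    (ι : (F × F) →ₗ[F] V) (hι : Function.Injective ι)
    (hy : ∀ e, y (ι e) = ι (a * e.1 + e.2, a * e.2)) :
    ∃ (k : ℕ) (φ : V →ₗ[F] F) (u : V), φ ≠ 0 ∧ u ≠ 0 ∧ φ u = 0 ∧
      ∀ v, (y ^ k) v = v + φ v • u := by
  obtain ⟨Ψ, p, r, c, hc, hm⟩ := frame hV a y hdet ι hι hy
  have hca : c - a ≠ 0 := by
    intro h
    apply ha3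
    have h1 : c = a := sub_eq_zero.1 h
    rw [h1] at hc
    rw [← hc]; ring
  have hc0 : c ≠ 0 := by
    intro h
    rw [h, mul_zero] at hc
    exact zero_ne_one hc
  set v : F := r / (c - a) with hv
  set u : F := (v + p) / (c - a) with hu
  have hv1 : a * v + r = c * v := by
    rw [hv]; field_simp; ring
  have hu1 : a * u + v + p = c * u := by
    have h1 : (c - a) * u = v + p := by rw [hu]; field_simp
    linear_combination - h1
  have hpow : ∀ j : ℕ, ∀ x : Fin 3 → F, (y ^ j) (Ψ x) =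
      Ψ ![a ^ j * (x 0 - u * x 2) + (j : F) * a ^ j * a⁻¹ * (x 1 - v * x 2) + c ^ j * (u * x 2),
        a ^ j * (x 1 - v * x 2) + c ^ j * (v * x 2), c ^ j * x 2] := by
    intro j
    induction j with
    | zero =>
      intro x
      rw [pow_zero]
      change Ψ x = _
      congr 1
      funext i
      fin_cases i
      · simp
      · simp
      · simp
    | succ j ih =>
      intro x
      rw [pow_succ']
      change y ((y ^ j) (Ψ x)) = _
      rw [ih, hm]
      congr 1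
      funext i
      fin_cases i
      · simp only [Fin.isValue, Fin.zero_eta, Matrix.cons_val_zero, Matrix.cons_val_one,
          Matrix.cons_val]
        push_cast
        have h3 : a * a⁻¹ = 1 := mul_inv_cancel₀ ha
        linear_combination (c ^ j * x 2) * hu1 + (- a ^ j * (x 1 - v * x 2)) * h3
      · simp only [Fin.isValue, Fin.mk_one, Matrix.cons_val_zero, Matrix.cons_val_one,
          Matrix.cons_val]
        linear_combination (c ^ j * x 2) * hv1
      · simp only [Fin.isValue, Fin.reduceFinMk, Matrix.cons_val]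
        ring
  have := Fintype.ofFinite F
  set k := Fintype.card F - 1 with hk
  have hak : a ^ k = 1 := FiniteField.pow_card_sub_one_eq_one a ha
  have hck : c ^ k = 1 := FiniteField.pow_card_sub_one_eq_one c hc0
  have hkF : (k : F) = -1 := by
    rw [hk, Nat.cast_sub (Fintype.card_pos), FiniteField.cast_card_eq_zero]
    simp
  obtain ⟨φ, w, h1, h2, h3, h4⟩ := tv_of Ψ (y ^ k) (- a⁻¹) (a⁻¹ * v)
    (fun h => by
      have := h.1
      rw [neg_eq_zero, inv_eq_zero] at this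
      exact ha this) (by
    intro x
    rw [hpow, hak, hck, hkF]
    congr 1
    funext i
    fin_cases i
    · simp only [Fin.isValue, Fin.zero_eta, Matrix.cons_val_zero, Matrix.cons_val_one,
        Matrix.cons_val]
      ring
    · simp only [Fin.isValue, Fin.mk_one, Matrix.cons_val_zero, Matrix.cons_val_one,
        Matrix.cons_val]
      ring
    · simp only [Fin.isValue, Fin.reduceFinMk, Matrix.cons_val]
      ring)
  exact ⟨k, φ, w, h1, h2, h3, h4⟩

/-- characteristic two, `a = 1` -/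
private lemma tv_two {F V : Type*} [Field F] [CharP F 2] [AddCommGroup V] [Module F V]
    [FiniteDimensional F V]
    (hV : finrank F V = 3)
    (y : V ≃ₗ[F] V) (hdet : LinearMap.det (y : V →ₗ[F] V) = 1)
    (ι : (F × F) →ₗ[F] V) (hι : Function.Injective ι)
    (hy : ∀ e, y (ι e) = ι (1 * e.1 + e.2, 1 * e.2)) :
    ∃ (k : ℕ) (φ : V →ₗ[F] F) (u : V), φ ≠ 0 ∧ u ≠ 0 ∧ φ u = 0 ∧
      ∀ v, (y ^ k) v = v + φ v • u := by
  obtain ⟨Ψ, p, r, c, hc, hm⟩ := frame hV 1 y hdet ι hι hy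
  have htwo : (2 : F) = 0 := CharTwo.two_eq_zero
  have hc1 : c = 1 := by simpa using hc
  subst hc1
  by_cases hr : r = 0
  · subst hr
    obtain ⟨φ, w, h1, h2, h3, h4⟩ := tv_of Ψ y 1 p (fun h => one_ne_zero h.1) (by
      intro x
      rw [hm]
      congr 1
      funext i
      fin_cases i
      · simp only [Fin.isValue, Fin.zero_eta, Matrix.cons_val_zero]
        ring
      · simp only [Fin.isValue, Fin.mk_one, Matrix.cons_val_one, Matrix.cons_val_zero]
        ring
      · simp only [Fin.isValue, Fin.reduceFinMk, Matrix.cons_val]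
        ring)
    exact ⟨1, φ, w, h1, h2, h3, fun v => by rw [pow_one]; exact h4 v⟩
  · obtain ⟨φ, w, h1, h2, h3, h4⟩ := tv_of Ψ (y ^ 2) 0 r (fun h => hr h.2) (by
      intro x
      rw [pow_two]
      change y (y (Ψ x)) = _
      rw [hm, hm]
      congr 1
      funext i
      fin_cases i
      · simp only [Fin.isValue, Fin.zero_eta, Matrix.cons_val_zero, Matrix.cons_val_one,
          Matrix.cons_val]
        linear_combination (x 1 + p * x 2) * htwo
      · simp only [Fin.isValue, Fin.mk_one, Matrix.cons_val_zero, Matrix.cons_val_one,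
          Matrix.cons_val]
        linear_combination (r * x 2) * htwo
      · simp only [Fin.isValue, Fin.reduceFinMk, Matrix.cons_val]
        ring)
    exact ⟨2, φ, w, h1, h2, h3, h4⟩

private lemma row {F : Type*} [Field F] {n : ℕ} (φ : (Fin n → F) →ₗ[F] F) (v : Fin n → F) :
    φ v = (fun i => φ (Pi.single i 1)) ⬝ᵥ v := by
  rw [LinearMap.pi_apply_eq_sum_univ φ v, dotProduct]
  refine Finset.sum_congr rfl fun i _ => ?_
  rw [smul_eq_mul, mul_comm]
  congr 2
  funext j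
  rw [Pi.single_apply]
  by_cases h : i = j
  · simp [h]
  · simp [h, Ne.symm h]

/-- from linear maps to matrices -/
private lemma hasTv_of {n : ℕ} {F : Type} [Field F] (x : (Fin n → F) ≃ₗ[F] (Fin n → F))
    (X : SLn n F) (hX : ∀ v, X.1 *ᵥ v = x v)
    (h : ∃ (k : ℕ) (φ : (Fin n → F) →ₗ[F] F) (u : Fin n → F), φ ≠ 0 ∧ u ≠ 0 ∧ φ u = 0 ∧
      ∀ v, (x ^ k) v = v + φ v • u) : HasTv X := by
  obtain ⟨k, φ, u, h1, h2, h3, h4⟩ := h
  have hpow : ∀ j : ℕ, ∀ v, (X ^ j).1 *ᵥ v = (x ^ j) v := by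
    intro j
    induction j with
    | zero => intro v; rw [pow_zero, pow_zero, Matrix.SpecialLinearGroup.coe_one, one_mulVec]; rfl
    | succ j ih =>
      intro v
      rw [pow_succ, pow_succ, Matrix.SpecialLinearGroup.coe_mul, ← mulVec_mulVec, hX, ih]
      rfl
  refine ⟨k, fun i => φ (Pi.single i 1), u, ?_, h2, ?_, ?_⟩
  · intro h
    apply h1
    apply LinearMap.ext
    intro v
    rw [row, h]
    simp
  · rw [← row, h3]
  · intro v
    rw [hpow, h4, row φ v]

theorem facZ3 {F : Type} [Field F] [Finite F] (A : SLn 3 F) (hA : ¬ Sc A) :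
    ∃ x y : SLn 3 F, HasTv x ∧ HasTv y ∧ x * y = A := by
  have hV : finrank F (Fin 3 → F) = 3 := by rw [finrank_fin_fun]
  have hVE : finrank F (Fin 3 → F) = finrank F (F × F) + 1 := by
    rw [hV, finrank_prod, finrank_self]
  have hE : 1 ≤ finrank F (F × F) := by
    rw [finrank_prod, finrank_self]; omega
  let A' : (Fin 3 → F) ≃ₗ[F] (Fin 3 → F) := Matrix.SpecialLinearGroup.toLin' A
  have hA'a : ∀ v, A' v = A.1 *ᵥ v := fun v => rfl
  have hA' : ∀ c : F, ∃ v, A' v ≠ c • v := by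
    intro c
    by_contra hcon
    push Not at hcon
    apply hA
    refine ⟨c, ?_⟩
    ext i j
    have h1 := congrFun (hcon (Pi.single j 1)) i
    rw [hA'a, mulVec_single_one] at h1
    rw [Matrix.smul_apply, Matrix.one_apply]
    simpa [Pi.single_apply] using h1
  have hdet : LinearMap.det (A' : (Fin 3 → F) →ₗ[F] (Fin 3 → F)) = 1 := by
    have h1 : (A' : (Fin 3 → F) →ₗ[F] (Fin 3 → F)) = Matrix.toLin' A.1 := by
      apply LinearMap.ext
      intro v
      rfl
    rw [h1, LinearMap.det_toLin', A.2]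
  have key : ∀ (x y : (Fin 3 → F) ≃ₗ[F] (Fin 3 → F)),
      (∀ v, y (x v) = A' v) → LinearMap.det (x : (Fin 3 → F) →ₗ[F] (Fin 3 → F)) = 1 →
      LinearMap.det (y : (Fin 3 → F) →ₗ[F] (Fin 3 → F)) = 1 →
      (∃ (k : ℕ) (φ : (Fin 3 → F) →ₗ[F] F) (u : Fin 3 → F), φ ≠ 0 ∧ u ≠ 0 ∧ φ u = 0 ∧
        ∀ v, (x ^ k) v = v + φ v • u) →
      (∃ (k : ℕ) (φ : (Fin 3 → F) →ₗ[F] F) (u : Fin 3 → F), φ ≠ 0 ∧ u ≠ 0 ∧ φ u = 0 ∧
        ∀ v, (y ^ k) v = v + φ v • u) →
      ∃ x y : SLn 3 F, HasTv x ∧ HasTv y ∧ x * y = A := by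
    intro x y hxy hdx hdy hx hy
    let X : SLn 3 F := ⟨LinearMap.toMatrix' (x : (Fin 3 → F) →ₗ[F] (Fin 3 → F)), by
      rw [LinearMap.det_toMatrix', hdx]⟩
    let Y : SLn 3 F := ⟨LinearMap.toMatrix' (y : (Fin 3 → F) →ₗ[F] (Fin 3 → F)), by
      rw [LinearMap.det_toMatrix', hdy]⟩
    have hXa : ∀ v, X.1 *ᵥ v = x v := fun v => LinearMap.toMatrix'_mulVec _ v
    have hYa : ∀ v, Y.1 *ᵥ v = y v := fun v => LinearMap.toMatrix'_mulVec _ v
    refine ⟨Y, X, hasTv_of y Y hYa hy, hasTv_of x X hXa hx, ?_⟩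
    apply Subtype.ext
    apply Matrix.toLin'.injective
    apply LinearMap.ext
    intro v
    rw [Matrix.toLin'_apply, Matrix.toLin'_apply, Matrix.SpecialLinearGroup.coe_mul,
      ← mulVec_mulVec, hXa, hYa, hxy, hA'a]
  by_cases h3 : ∃ a : F, a ≠ 0 ∧ a ^ 3 ≠ 1
  · obtain ⟨a, ha, ha3⟩ := h3
    obtain ⟨x, y, hxy, hdx, hdy, ⟨ι₁, hι₁, hx⟩, ⟨ι₂, hι₂, hy⟩⟩ :=
      gfac2 hVE hE A' hA' hdet (jtwo a ha) (0, 1) (fun U h1 h2 => jtwo_cyc a ha U h1 h2)
    exact key x y hxy hdx hdy (tv_ne hV a ha ha3 x hdx ι₁ hι₁ hx)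
      (tv_ne hV a ha ha3 y hdy ι₂ hι₂ hy)
  · push Not at h3
    have h2 : (2 : F) = 0 := by
      have := h3 (-1) (neg_ne_zero.2 one_ne_zero)
      linear_combination - this
    have : CharP F 2 := CharTwo.of_one_ne_zero_of_two_eq_zero (R := F) one_ne_zero h2
    obtain ⟨x, y, hxy, hdx, hdy, ⟨ι₁, hι₁, hx⟩, ⟨ι₂, hι₂, hy⟩⟩ :=
      gfac2 hVE hE A' hA' hdet (jtwo 1 one_ne_zero) (0, 1) (fun U h1 h2 => jtwo_cyc 1 _ U h1 h2)
    exact key x y hxy hdx hdy (tv_two hV x hdx ι₁ hι₁ hx) (tv_two hV y hdy ι₂ hι₂ hy)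

end Pool.Agent.SLM
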