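import Pool.Agent.SLM.Defs

/-! Module Geo2c: `geo2b` for `n = 3`, `|F| ≠ 4` (helper30 for helper67). -/

set_option autoImplicit false

namespace Pool.Agent.SLM

section G2c

variable {F L : Type*} [Field F] [Field L] [Algebra F L]

/-- the cone over the orbit of `e` -/
private def SS (K : Subgroup ((L × F) ≃ₗ[F] (L × F))) : Set (L × F) :=
  {v | ∃ k ∈ K, ∃ c : F, c ≠ 0 ∧ v = c • k (0, 1)}

private lemma SS_smul (K : Subgroup ((L × F) ≃ₗ[F] (L × F))) (v : L × F) (c : F) (hc : c ≠ 0) :
    c • v ∈ SS K ↔ v ∈ SS K := by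
  constructor
  · rintro ⟨k, hk, d, hd, h⟩
    refine ⟨k, hk, c⁻¹ * d, mul_ne_zero (inv_ne_zero hc) hd, ?_⟩
    rw [mul_smul, ← h, smul_smul, inv_mul_cancel₀ hc, one_smul]
  · rintro ⟨k, hk, d, hd, h⟩
    exact ⟨k, hk, c * d, mul_ne_zero hc hd, by rw [h, smul_smul]⟩

private lemma inv_app (k : (L × F) ≃ₗ[F] (L × F)) (v : L × F) : (k⁻¹) (k v) = v := by
  change (k⁻¹ * k) v = v
  rw [inv_mul_cancel]
  rfl

private lemma app_inv (k : (L × F) ≃ₗ[F] (L × F)) (v : L × F) : k ((k⁻¹) v) = v := by
  change (k * k⁻¹) v = v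
  rw [mul_inv_cancel]
  rfl

private lemma SS_map1 (K : Subgroup ((L × F) ≃ₗ[F] (L × F))) (k : (L × F) ≃ₗ[F] (L × F))
    (hk : k ∈ K) (v : L × F) (hv : v ∈ SS K) : k v ∈ SS K := by
  obtain ⟨k', hk', d, hd, rfl⟩ := hv
  refine ⟨k * k', K.mul_mem hk hk', d, hd, ?_⟩
  rw [map_smul]
  rfl

private lemma SS_map (K : Subgroup ((L × F) ≃ₗ[F] (L × F))) (k : (L × F) ≃ₗ[F] (L × F))
    (hk : k ∈ K) (v : L × F) : k v ∈ SS K ↔ v ∈ SS K := by
  constructor
  · intro h
    have := SS_map1 K k⁻¹ (K.inv_mem hk) _ h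
    rwa [inv_app] at this
  · exact SS_map1 K k hk v

/-- the number of points of the cone in a plane given by a basis -/
private noncomputable def MM (K : Subgroup ((L × F) ≃ₗ[F] (L × F))) (v₁ v₂ : L × F) : ℕ :=
  Nat.card {p : F × F // p.1 • v₁ + p.2 • v₂ ∈ SS K}

private lemma MM_map (K : Subgroup ((L × F) ≃ₗ[F] (L × F))) (k : (L × F) ≃ₗ[F] (L × F))
    (hk : k ∈ K) (v₁ v₂ : L × F) : MM K (k v₁) (k v₂) = MM K v₁ v₂ := by
  unfold MM
  refine Nat.card_congr (Equiv.subtypeEquivRight fun p => ?_)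
  rw [← map_smul, ← map_smul, ← map_add]
  exact SS_map K k hk _

private lemma MM_shift (K : Subgroup ((L × F) ≃ₗ[F] (L × F))) (c : F) (hc : c ≠ 0) (a : F) (w : L) :
    MM K (c • ((0 : L), (1 : F))) (w, a) = MM K ((0 : L), (1 : F)) (w, 0) := by
  unfold MM
  refine Nat.card_congr (Equiv.subtypeEquiv
    { toFun := fun p => (p.1 * c + p.2 * a, p.2)
      invFun := fun p => ((p.1 - p.2 * a) * c⁻¹, p.2)
      left_inv := fun p => by
        ext
        · simp only
          field_simp
          ring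
        · rfl
      right_inv := fun p => by
        ext
        · simp only
          field_simp
          ring
        · rfl } fun p => ?_)
  have : p.1 • c • ((0 : L), (1 : F)) + p.2 • (w, a) =
      (p.1 * c + p.2 * a) • ((0 : L), (1 : F)) + p.2 • (w, (0 : F)) := by
    ext <;> simp
  simp only [Equiv.coe_fn_mk]
  rw [this]

private lemma MM_line [Finite F] (K : Subgroup ((L × F) ≃ₗ[F] (L × F)))
    (h2 : ∀ k ∈ K, (k (0, 1)).2 ≠ 0) (x η : L) :
    MM K (x, 1) (η, 0) = (Nat.card F - 1) * Nat.card {c : F // (x + c • η, (1 : F)) ∈ SS K} := by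
  have hS : ∀ v ∈ SS K, v.2 ≠ 0 := by
    rintro _ ⟨k, hk, c, hc, rfl⟩
    exact mul_ne_zero hc (h2 k hk)
  have hu : Nat.card Fˣ = Nat.card F - 1 := Nat.card_units F
  rw [← hu, ← Nat.card_prod]
  unfold MM
  refine Nat.card_congr
    { toFun := fun p => (Units.mk0 p.1.1 (by
          have := hS _ p.2
          simpa using this), ⟨p.1.1⁻¹ * p.1.2, by
          have h0 : p.1.1 ≠ 0 := by
            have := hS _ p.2
            simpa using this
          have h1 := (SS_smul K _ p.1.1⁻¹ (inv_ne_zero h0)).2 p.2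
          have h3 : p.1.1⁻¹ • (p.1.1 • (x, (1 : F)) + p.1.2 • (η, (0 : F))) =
              (x + (p.1.1⁻¹ * p.1.2) • η, (1 : F)) := by
            rw [smul_add, smul_smul, smul_smul, inv_mul_cancel₀ h0, one_smul]
            ext <;> simp
          rwa [h3] at h1⟩)
      invFun := fun q => ⟨((q.1 : F), (q.1 : F) * q.2.1), by
          have h1 := (SS_smul K _ (q.1 : F) q.1.ne_zero).2 q.2.2
          have h3 : (q.1 : F) • (x + q.2.1 • η, (1 : F)) =
              (q.1 : F) • (x, (1 : F)) + ((q.1 : F) * q.2.1) • (η, (0 : F)) := by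
            ext <;> simp [smul_add, smul_smul]
          rwa [h3] at h1⟩
      left_inv := fun p => by
        have h0 : p.1.1 ≠ 0 := by
          have := hS _ p.2
          simpa using this
        apply Subtype.ext
        apply Prod.ext
        · rfl
        · simp only [Units.val_mk0]
          rw [mul_inv_cancel_left₀ h0]
      right_inv := fun q => by
        apply Prod.ext
        · apply Units.ext
          rfl
        · apply Subtype.ext
          simp only
          rw [inv_mul_cancel_left₀ q.1.ne_zero] }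

private lemma t_pow (μ : F) (s : L) (t : (L × F) ≃ₗ[F] (L × F))
    (ht : ∀ v, t v = (s * v.1, μ⁻¹ * v.2)) (j : ℕ) (v : L × F) :
    (t ^ j) v = (s ^ j * v.1, (μ⁻¹) ^ j * v.2) := by
  induction j with
  | zero => simp
  | succ j ih =>
    rw [pow_succ']
    change t ((t ^ j) v) = _
    rw [ih, ht]
    ext
    · simp only; ring
    · simp only; ring

end G2c

/-- counting lines through `0` -/
private lemma cnt_lines {F L : Type*} [Field F] [Finite F] [Field L] [Finite L] [Algebra F L]
    (hL : Module.finrank F L = 2) (D : Set L) (hD0 : (0 : L) ∈ D) (k : ℕ)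
    (hk : ∀ η : L, η ≠ 0 → Nat.card {c : F // c • η ∈ D} = k) :
    Nat.card D + Nat.card F = (Nat.card F + 1) * k := by
  classical
  have : Fintype F := Fintype.ofFinite F
  have : Fintype L := Fintype.ofFinite L
  have hcL : Fintype.card L = Fintype.card F ^ 2 := by
    rw [← hL]; exact Module.card_eq_pow_finrank
  have hk' : ∀ η : L, η ≠ 0 → ∑ c : F, (if c • η ∈ D then 1 else 0) = k := by
    intro η hη
    rw [← hk η hη, Nat.card_eq_fintype_card, Fintype.card_subtype, Finset.card_filter]
  have h1 : ∑ η ∈ Finset.univ.erase (0 : L), ∑ c : F, (if c • η ∈ D then 1 else 0) =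
      (Fintype.card F ^ 2 - 1) * k := by
    rw [Finset.sum_congr rfl fun η hη => hk' η (Finset.ne_of_mem_erase hη), Finset.sum_const,
      smul_eq_mul, Finset.card_erase_of_mem (Finset.mem_univ _), Finset.card_univ, hcL]
  rw [Finset.sum_comm] at h1
  have hF : Nat.card F = Fintype.card F := Nat.card_eq_fintype_card
  have hq : 1 < Fintype.card F := Fintype.one_lt_card
  -- the number of points of `D`
  set ND : ℕ := Nat.card D with hND
  have hND2 : ∑ w : L, (if w ∈ D then 1 else 0) = ND := by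
    rw [hND, Nat.card_eq_fintype_card, Fintype.card_subtype, Finset.card_filter]
  have hND3 : ∑ w ∈ Finset.univ.erase (0 : L), (if w ∈ D then 1 else 0) + 1 = ND := by
    rw [← hND2, ← Finset.sum_erase_add _ _ (Finset.mem_univ (0 : L)), if_pos hD0]
  have h2 : ∀ c : F, c ≠ 0 → ∑ η ∈ Finset.univ.erase (0 : L), (if c • η ∈ D then 1 else 0) =
      ∑ w ∈ Finset.univ.erase (0 : L), (if w ∈ D then 1 else 0) := by
    intro c hc
    refine Finset.sum_nbij' (fun η => c • η) (fun w => c⁻¹ • w) ?_ ?_ ?_ ?_ ?_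
    · intro η hη
      have := Finset.ne_of_mem_erase hη
      exact Finset.mem_erase.2 ⟨smul_ne_zero hc this, Finset.mem_univ _⟩
    · intro η hη
      have := Finset.ne_of_mem_erase hη
      exact Finset.mem_erase.2 ⟨smul_ne_zero (inv_ne_zero hc) this, Finset.mem_univ _⟩
    · intro η _
      exact inv_smul_smul₀ hc η
    · intro η _
      exact smul_inv_smul₀ hc η
    · intro η _
      rfl
  rw [← Finset.sum_erase_add _ _ (Finset.mem_univ (0 : F)),
    Finset.sum_congr rfl fun c hc => h2 c (Finset.ne_of_mem_erase hc), Finset.sum_const,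
    smul_eq_mul, Finset.card_erase_of_mem (Finset.mem_univ _), Finset.card_univ] at h1
  have h3 : ∑ η ∈ Finset.univ.erase (0 : L), (if (0 : F) • η ∈ D then 1 else 0) =
      Fintype.card F ^ 2 - 1 := by
    simp only [zero_smul, if_pos hD0, Finset.sum_const, smul_eq_mul, mul_one]
    rw [Finset.card_erase_of_mem (Finset.mem_univ _), Finset.card_univ, hcL]
  rw [h3] at h1
  set M : ℕ := ∑ w ∈ Finset.univ.erase (0 : L), (if w ∈ D then 1 else 0) with hM
  obtain ⟨e, he⟩ : ∃ e, Fintype.card F = e + 1 := ⟨Fintype.card F - 1, by omega⟩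
  have he0 : 0 < e := by omega
  rw [hF, he]
  rw [he] at h1
  have h4 : (e + 1) ^ 2 - 1 = e * (e + 2) := by
    have : (e + 1) ^ 2 = e * (e + 2) + 1 := by ring
    omega
  rw [h4, Nat.add_sub_cancel] at h1
  have h5 : e * (M + (e + 2)) = e * ((e + 2) * k) := by
    calc e * (M + (e + 2)) = e * M + e * (e + 2) := by ring
      _ = e * (e + 2) * k := h1
      _ = _ := by ring
  have h6 := Nat.eq_of_mul_eq_mul_left he0 h5
  have h7 : ND + (e + 1) = M + (e + 2) := by omega
  rw [h7, h6]

/-- counting the lines of a parallel class -/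
private lemma cnt_par {F L : Type*} [Field F] [Finite F] [Field L] [Finite L] [Algebra F L]
    (D : Set L) (k : ℕ)
    (hk : ∀ x ∈ D, Nat.card {c : F // x + c • (1 : L) ∈ D} = k) : k ∣ Nat.card D := by
  classical
  have : Fintype F := Fintype.ofFinite F
  have : Fintype L := Fintype.ofFinite L
  set π : L → L ⧸ (Submodule.span F {(1 : L)}) := fun x => Submodule.Quotient.mk x with hπ
  set Df : Finset L := Finset.univ.filter (· ∈ D) with hDf
  have hcard : Nat.card D = Df.card := by
    rw [Nat.card_eq_fintype_card, Fintype.card_subtype]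
  rw [hcard, Finset.card_eq_sum_card_image π Df]
  refine Finset.dvd_sum fun y hy => ?_
  obtain ⟨x₀, hx₀, rfl⟩ := Finset.mem_image.1 hy
  have hx₀D : x₀ ∈ D := (Finset.mem_filter.1 hx₀).2
  have h1 : (Df.filter fun x => π x = π x₀) =
      (Finset.univ.filter fun c : F => x₀ + c • (1 : L) ∈ D).image fun c => x₀ + c • (1 : L) := by
    ext x
    rw [Finset.mem_filter, Finset.mem_filter, Finset.mem_image]
    constructor
    · rintro ⟨⟨_, h2⟩, h3⟩
      have h4 : x - x₀ ∈ Submodule.span F {(1 : L)} := (Submodule.Quotient.eq _).1 h3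
      obtain ⟨c, hc⟩ := Submodule.mem_span_singleton.1 h4
      have h5 : x₀ + c • (1 : L) = x := by rw [hc]; ring
      refine ⟨c, ?_, h5⟩
      rw [Finset.mem_filter, h5]
      exact ⟨Finset.mem_univ _, h2⟩
    · rintro ⟨c, hc, rfl⟩
      refine ⟨⟨Finset.mem_univ _, (Finset.mem_filter.1 hc).2⟩, ?_⟩
      refine (Submodule.Quotient.eq _).2 ?_
      rw [add_sub_cancel_left]
      exact Submodule.smul_mem _ _ (Submodule.mem_span_singleton_self _)
  rw [h1, Finset.card_image_of_injective]
  · rw [← hk x₀ hx₀D, Nat.card_eq_fintype_card, Fintype.card_subtype]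
  · intro c d hcd
    have h2 : c • (1 : L) = d • (1 : L) := add_left_cancel hcd
    exact smul_left_injective F (one_ne_zero : (1 : L) ≠ 0) h2

/-- a set of units invariant under a subgroup -/
private lemma cnt_sub {G : Type*} [Group G] [Finite G] (H : Subgroup G) (C : Set G)
    (h : ∀ c ∈ C, ∀ x ∈ H, c * x ∈ C) : Nat.card H ∣ Nat.card C := by
  classical
  have : Fintype G := Fintype.ofFinite G
  set Cf : Finset G := Finset.univ.filter (· ∈ C) with hCf
  have hcard : Nat.card C = Cf.card := by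
    rw [Nat.card_eq_fintype_card, Fintype.card_subtype]
  rw [hcard, Finset.card_eq_sum_card_image (fun c : G => (QuotientGroup.mk c : G ⧸ H)) Cf]
  refine Finset.dvd_sum fun y hy => ?_
  obtain ⟨x₀, hx₀, rfl⟩ := Finset.mem_image.1 hy
  have hx₀D : x₀ ∈ C := (Finset.mem_filter.1 hx₀).2
  have h1 : (Cf.filter fun x => (QuotientGroup.mk x : G ⧸ H) = QuotientGroup.mk x₀) =
      (Finset.univ.filter fun x : G => x ∈ H).image fun x => x₀ * x := by
    ext x
    rw [Finset.mem_filter, Finset.mem_filter, Finset.mem_image]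
    constructor
    · rintro ⟨⟨_, h2⟩, h3⟩
      have h4 : x₀⁻¹ * x ∈ H := QuotientGroup.eq.1 h3.symm
      exact ⟨x₀⁻¹ * x, Finset.mem_filter.2 ⟨Finset.mem_univ _, h4⟩, by group⟩
    · rintro ⟨c, hc, rfl⟩
      have hc2 := (Finset.mem_filter.1 hc).2
      refine ⟨⟨Finset.mem_univ _, h x₀ hx₀D c hc2⟩, ?_⟩
      symm
      rw [QuotientGroup.eq]
      rwa [inv_mul_cancel_left]
  rw [h1, Finset.card_image_of_injective _ (mul_right_injective x₀)]
  apply dvd_of_eq
  rw [Nat.card_eq_fintype_card, Fintype.card_subtype]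

private lemma arith {q a κ k : ℕ} (hq : q ≠ 4) (hκ : κ = 1 ∨ κ = 3) (ha : κ * a = q - 1)
    (hq1 : 1 < q) (hk1 : 1 ≤ k) (hkq : k ≤ q) (hd : k ∣ q) (hj : a ∣ k - 1) : k = 1 ∨ k = q := by
  obtain ⟨j, hj⟩ := hj
  have ha0 : 0 < a := by
    rcases Nat.eq_zero_or_pos a with h | h
    · subst h; omega
    · exact h
  have hk : k = 1 + a * j := by omega
  rcases hκ with h | h
  · subst h
    have hj2 : j ≤ 1 := by
      by_contra hcon
      have : a * 2 ≤ a * j := Nat.mul_le_mul_left a (by omega)
      omega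
    interval_cases j
    · left; omega
    · right; omega
  · subst h
    have hj2 : j ≤ 3 := by
      by_contra hcon
      have : a * 4 ≤ a * j := Nat.mul_le_mul_left a (by omega)
      omega
    have hqa : q = 3 * a + 1 := by omega
    interval_cases j
    · left; omega
    · exfalso
      have h1 : a + 1 ∣ 2 := by
        have h2 : a + 1 ∣ 3 * (a + 1) := Dvd.intro_left 3 rfl
        have h3 : a + 1 ∣ 3 * a + 1 := by rw [← hqa]; rw [hk] at hd; convert hd using 1; ring
        have h4 := Nat.dvd_sub h2 h3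
        have h5 : 3 * (a + 1) - (3 * a + 1) = 2 := by omega
        rwa [h5] at h4
      have h2 := Nat.le_of_dvd (by norm_num) h1
      have h3 : a = 1 := by omega
      subst h3
      omega
    · exfalso
      have h3 : 2 * a + 1 ∣ 3 * a + 1 := by rw [← hqa]; rw [hk] at hd; convert hd using 1; ring
      have h1 : 2 * a + 1 ∣ 1 := by
        have h2 : 2 * a + 1 ∣ 3 * (2 * a + 1) := Dvd.intro_left 3 rfl
        have h4 := Nat.dvd_sub h2 (Dvd.dvd.mul_left h3 2)
        have h5 : 3 * (2 * a + 1) - 2 * (3 * a + 1) = 1 := by omega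
        rwa [h5] at h4
      have h2 := Nat.le_of_dvd (by norm_num) h1
      omega
    · right; omega

theorem geo2c {F L : Type*} [Field F] [Finite F] [Field L] [Finite L] [Algebra F L]
    (hL : Module.finrank F L = 2) (hq4 : Nat.card F ≠ 4) (μ : F) (s : L) (hs0 : s ≠ 0)
    (hμs : μ = Algebra.norm F s)
    (hgen : ∀ x y : L, x ≠ 0 → y ≠ 0 → ∃ j : ℕ, s ^ j * x = y)
    (K : Subgroup ((L × F) ≃ₗ[F] (L × F))) (t : (L × F) ≃ₗ[F] (L × F)) (htK : t ∈ K)
    (ht : ∀ v, t v = (s * v.1, μ⁻¹ * v.2))
    (hirr : ∀ U : Submodule F (L × F), (∀ k ∈ K, ∀ v ∈ U, k v ∈ U) → U = ⊥ ∨ U = ⊤)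
    (h2 : ∀ k ∈ K, (k (0, 1)).2 ≠ 0) : False := by
  have hfd : FiniteDimensional F L := Module.finite_of_finrank_eq_succ hL
  have hμ : μ ≠ 0 := by rw [hμs]; exact Algebra.norm_ne_zero_iff.2 hs0
  have hS : ∀ v ∈ SS K, v.2 ≠ 0 := by
    rintro _ ⟨k, hk, c, hc, rfl⟩
    exact mul_ne_zero hc (h2 k hk)
  have he : ((0 : L), (1 : F)) ∈ SS K := ⟨1, K.one_mem, 1, one_ne_zero, by simp⟩
  have hF : 1 < Nat.card F := Finite.one_lt_card
  set D : Set L := {w | (w, (1 : F)) ∈ SS K} with hD
  have hD0 : (0 : L) ∈ D := he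
  -- every plane through a point of `S` contains the same number of points
  have hM1 : ∀ w : L, w ≠ 0 → MM K ((0 : L), (1 : F)) (w, 0) = MM K ((0 : L), (1 : F)) (1, 0) := by
    intro w hw
    obtain ⟨j, hj⟩ := hgen 1 w one_ne_zero hw
    have h3 := MM_map K (t ^ j) (K.pow_mem htK j) ((0 : L), (1 : F)) (1, 0)
    rw [t_pow μ s t ht, t_pow μ s t ht] at h3
    simp only [mul_zero, mul_one] at h3
    rw [← h3, mul_one] at *
    have h4 : ((0 : L), (μ⁻¹) ^ j) = ((μ⁻¹) ^ j) • ((0 : L), (1 : F)) := by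
      ext <;> simp
    rw [← hj, h4, MM_shift K _ (pow_ne_zero _ (inv_ne_zero hμ)) 0 (s ^ j)]
  have hM2 : ∀ x ∈ D, ∀ η : L, η ≠ 0 → MM K (x, 1) (η, 0) = MM K ((0 : L), (1 : F)) (1, 0) := by
    intro x hx η hη
    obtain ⟨k, hk, c, hc, h3⟩ := hx
    have h4 := MM_map K k⁻¹ (K.inv_mem hk) (x, 1) (η, 0)
    have h5 : (k⁻¹) (x, (1 : F)) = c • ((0 : L), (1 : F)) := by
      rw [h3, map_smul, inv_app]
    rw [h5] at h4
    have h6 : ((k⁻¹) (η, (0 : F))).1 ≠ 0 := by
      intro h7
      have h8 : (k⁻¹) (η, (0 : F)) = ((k⁻¹) (η, (0 : F))).2 • ((0 : L), (1 : F)) := by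
        apply Prod.ext
        · rw [Prod.smul_fst, smul_zero]
          exact h7
        · rw [Prod.smul_snd, smul_eq_mul, mul_one]
      have h9 : (η, (0 : F)) = ((k⁻¹) (η, (0 : F))).2 • k ((0 : L), (1 : F)) := by
        rw [← map_smul, ← h8, app_inv]
      have h10 := congrArg Prod.snd h9
      simp only [Prod.smul_snd, smul_eq_mul] at h10
      have h11 : ((k⁻¹) (η, (0 : F))).2 = 0 := by
        rcases mul_eq_zero.1 h10.symm with h | h
        · exact h
        · exact absurd h (h2 k hk)
      rw [h11, zero_smul] at h9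
      exact hη (congrArg Prod.fst h9)
    rw [← h4, ← hM1 _ h6, ← MM_shift K c hc ((k⁻¹) (η, (0 : F))).2 ((k⁻¹) (η, (0 : F))).1]
  set k₁ : ℕ := MM K ((0 : L), (1 : F)) (1, 0) / (Nat.card F - 1) with hk₁
  have hk : ∀ x ∈ D, ∀ η : L, η ≠ 0 → Nat.card {c : F // x + c • η ∈ D} = k₁ := by
    intro x hx η hη
    have h3 := hM2 x hx η hη
    rw [MM_line K h2] at h3
    rw [hk₁, ← h3, Nat.mul_div_cancel_left _ (by omega)]
    rfl
  -- the scalars
  have hcL : Nat.card L = Nat.card F ^ 2 := by rw [← hL]; exact Module.natCard_eq_pow_finrank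
  have hsN : s ^ (Nat.card F + 1) = algebraMap F L μ := by
    rw [hμs, FiniteField.algebraMap_norm_eq_pow, hcL]
    congr 1
    have h3 : Nat.card F ^ 2 - 1 = (Nat.card F + 1) * (Nat.card F - 1) := by
      obtain ⟨e, he⟩ : ∃ e, Nat.card F = e + 1 := ⟨Nat.card F - 1, by omega⟩
      rw [he, Nat.add_sub_cancel]
      have : (e + 1) ^ 2 = (e + 1 + 1) * e + 1 := by ring
      omega
    rw [h3, Nat.mul_div_cancel _ (by omega)]
  have hμq : μ ^ (Nat.card F + 1) * μ = μ ^ 3 := by
    have : Fintype F := Fintype.ofFinite F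
    have h3 : μ ^ Nat.card F = μ := by
      rw [Nat.card_eq_fintype_card]; exact FiniteField.pow_card μ
    rw [pow_succ, h3]
    ring
  have hD3 : ∀ w ∈ D, (μ ^ 3) • w ∈ D := by
    intro w hw
    have h3 : (t ^ (Nat.card F + 1)) (w, (1 : F)) ∈ SS K :=
      SS_map1 K _ (K.pow_mem htK _) _ hw
    rw [t_pow μ s t ht] at h3
    have h4 := (SS_smul K _ (μ ^ (Nat.card F + 1)) (pow_ne_zero _ hμ)).2 h3
    have h5 : (μ ^ (Nat.card F + 1)) • ((s ^ (Nat.card F + 1) * w,
        (μ⁻¹) ^ (Nat.card F + 1) * 1) : L × F) = ((μ ^ 3) • w, 1) := by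
      ext
      · simp only [Prod.smul_mk]
        rw [hsN, ← Algebra.smul_def, smul_smul, hμq]
      · simp only [Prod.smul_mk, smul_eq_mul, mul_one]
        rw [← mul_pow, mul_inv_cancel₀ hμ, one_pow]
    rw [h5] at h4
    exact h4
  have hordμ : orderOf μ = Nat.card F - 1 := by
    have h3 : orderOf (Units.mk0 s hs0) = Nat.card L - 1 := by
      rw [← Nat.card_units L]
      refine orderOf_eq_card_of_forall_mem_zpowers fun x => ?_
      obtain ⟨j, hj⟩ := hgen 1 x one_ne_zero x.ne_zero
      rw [mul_one] at hj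
      refine ⟨(j : ℤ), ?_⟩
      apply Units.ext
      simpa using hj
    have h4 : orderOf s = Nat.card L - 1 := by
      rw [← h3, ← orderOf_units]
      rfl
    have h5 : orderOf (s ^ (Nat.card F + 1)) = Nat.card F - 1 := by
      have h6 : Nat.card L - 1 = (Nat.card F - 1) * (Nat.card F + 1) := by
        rw [hcL]
        obtain ⟨e, he⟩ : ∃ e, Nat.card F = e + 1 := ⟨Nat.card F - 1, by omega⟩
        rw [he, Nat.add_sub_cancel]
        have : (e + 1) ^ 2 = e * (e + 1 + 1) + 1 := by ring
        omega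
      rw [orderOf_pow_of_dvd (by omega) (by rw [h4, h6]; exact Dvd.intro_left _ rfl), h4, h6,
        Nat.mul_div_cancel _ (by omega)]
    rw [hsN] at h5
    rw [← h5]
    exact (orderOf_injective (algebraMap F L : F →* L) (algebraMap F L).injective μ).symm
  have hlines : k₁ = 1 ∨ k₁ = Nat.card F := by
    have hk0 : ∀ η : L, η ≠ 0 → Nat.card {c : F // c • η ∈ D} = k₁ := by
      intro η hη
      rw [← hk 0 hD0 η hη]
      refine Nat.card_congr (Equiv.subtypeEquivRight fun c => ?_)
      rw [zero_add]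
    have c1 := cnt_lines hL D hD0 k₁ hk0
    have c2 := cnt_par D k₁ (fun x hx => hk x hx 1 one_ne_zero)
    have hdvd : k₁ ∣ Nat.card F := by
      have h3 : k₁ ∣ Nat.card D + Nat.card F := by rw [c1]; exact Dvd.intro_left _ rfl
      exact (Nat.dvd_add_right c2).1 h3
    have hpos : 1 ≤ k₁ := by
      rcases Nat.eq_zero_or_pos k₁ with h3 | h3
      · rw [h3, zero_dvd_iff] at hdvd
        omega
      · exact h3
    have hle : k₁ ≤ Nat.card F := Nat.le_of_dvd (by omega) hdvd
    set u : Fˣ := Units.mk0 μ hμ with hu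
    have hordu : orderOf (u ^ 3) = (Nat.card F - 1) / Nat.gcd (Nat.card F - 1) 3 := by
      rw [orderOf_pow, ← orderOf_units]
      rw [show ((u : Fˣ) : F) = μ from rfl, hordμ]
    set C : Set Fˣ := {c | (c : F) • (1 : L) ∈ D} with hC
    have hinvC : ∀ c ∈ C, ∀ x ∈ Subgroup.zpowers (u ^ 3), c * x ∈ C := by
      intro c hc x hx
      rw [← mem_powers_iff_mem_zpowers] at hx
      obtain ⟨n, rfl⟩ := hx
      simp only
      induction n with
      | zero => simpa using hc
      | succ n ih =>
        have h3 : ((c * (u ^ 3) ^ (n + 1) : Fˣ) : F) • (1 : L) =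
            (μ ^ 3) • (((c * (u ^ 3) ^ n : Fˣ) : F) • (1 : L)) := by
          rw [smul_smul]
          congr 1
          rw [pow_succ]
          push_cast
          rw [show ((u : Fˣ) : F) = μ from rfl]
          ring
        change ((c * (u ^ 3) ^ (n + 1) : Fˣ) : F) • (1 : L) ∈ D
        rw [h3]
        exact hD3 _ ih
    have c3 := cnt_sub (Subgroup.zpowers (u ^ 3)) C hinvC
    rw [Nat.card_zpowers, hordu] at c3
    have hCk : Nat.card C = k₁ - 1 := by
      have h3 := hk0 1 one_ne_zero
      have h4 : Nat.card {c : F // c • (1 : L) ∈ D} = Nat.card (Option C) := by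
        refine Nat.card_congr ?_
        classical
        exact
          { toFun := fun c => if h : c.1 = 0 then none else some ⟨Units.mk0 c.1 h, c.2⟩
            invFun := fun o => match o with
              | none => ⟨0, by rw [zero_smul]; exact hD0⟩
              | some c => ⟨(c.1 : F), c.2⟩
            left_inv := by
              rintro ⟨c, hc⟩
              by_cases h : c = 0
              · subst h; simp
              · simp [h]
            right_inv := by
              rintro (_ | ⟨c, hc⟩)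
              · simp
              · simp }
      have : Finite C := inferInstance
      rw [h3, Finite.card_option] at h4
      omega
    rw [hCk] at c3
    refine arith hq4 (κ := Nat.gcd (Nat.card F - 1) 3) ?_ ?_ hF hpos hle hdvd c3
    · have h3 : Nat.gcd (Nat.card F - 1) 3 ∣ 3 := Nat.gcd_dvd_right _ _
      exact (Nat.dvd_prime Nat.prime_three).1 h3
    · exact Nat.mul_div_cancel' (Nat.gcd_dvd_left _ _)
  rcases hlines with h | h
  · -- `D = {0}`
    have hD1 : ∀ x ∈ D, x = 0 := by
      intro x hx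
      by_contra hx0
      have h3 := hk 0 hD0 x hx0
      rw [h, Nat.card_eq_one_iff_unique] at h3
      have h4 := h3.1
      have h5 : (⟨0, by simpa using hD0⟩ : {c : F // 0 + c • x ∈ D}) = ⟨1, by simpa using hx⟩ :=
        Subsingleton.elim _ _
      exact zero_ne_one (congrArg Subtype.val h5)
    have hinv : ∀ k ∈ K, (k (0, 1)).1 = 0 := by
      intro k hk
      have h3 : (k (0, 1)).2⁻¹ • k (0, 1) ∈ SS K :=
        (SS_smul K _ _ (inv_ne_zero (h2 k hk))).2 (SS_map1 K k hk _ he)
      have h4 : (k (0, 1)).2⁻¹ • k (0, 1) = ((k (0, 1)).2⁻¹ • (k (0, 1)).1, (1 : F)) := by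
        ext
        · rfl
        · simp [inv_mul_cancel₀ (h2 k hk)]
      rw [h4] at h3
      have h5 := hD1 _ h3
      exact (smul_eq_zero.1 h5).resolve_left (inv_ne_zero (h2 k hk))
    have hin : ∀ k ∈ K, ∀ v ∈ LinearMap.ker (LinearMap.fst F L F),
        k v ∈ LinearMap.ker (LinearMap.fst F L F) := by
      intro k hk v hv
      rw [LinearMap.mem_ker, LinearMap.fst_apply] at hv ⊢
      have h4 : v = v.2 • ((0 : L), (1 : F)) := by
        ext
        · simp [hv]
        · simp
      rw [h4, map_smul, Prod.smul_fst, hinv k hk, smul_zero]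
    rcases hirr (LinearMap.ker (LinearMap.fst F L F)) hin with h3 | h3
    · have h4 : ((0 : L), (1 : F)) ∈ LinearMap.ker (LinearMap.fst F L F) := by simp
      rw [h3, Submodule.mem_bot] at h4
      exact one_ne_zero (congrArg Prod.snd h4)
    · have h4 : ((1 : L), (0 : F)) ∈ LinearMap.ker (LinearMap.fst F L F) := by
        rw [h3]; exact Submodule.mem_top
      simp at h4
  · -- `D` is everything
    have hDt : ∀ x : L, x ∈ D := by
      intro x
      by_cases hx0 : x = 0
      · rw [hx0]; exact hD0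
      · have h3 := hk 0 hD0 x hx0
        rw [h] at h3
        by_contra hx
        have h4 : Nat.card {c : F // 0 + c • x ∈ D} < Nat.card F := by
          have : Fintype F := Fintype.ofFinite F
          classical
          rw [Nat.card_eq_fintype_card, Nat.card_eq_fintype_card]
          refine Fintype.card_subtype_lt (x := (1 : F)) ?_
          simpa using hx
        omega
    have hinv : ∀ k ∈ K, ∀ v : L × F, v.2 = 0 → (k v).2 = 0 := by
      intro k hk v hv
      by_contra hne
      have h3 : ((k v).2⁻¹ • k v) ∈ SS K := by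
        have h4 : (k v).2⁻¹ • k v = ((k v).2⁻¹ • (k v).1, (1 : F)) := by
          ext
          · rfl
          · simp [inv_mul_cancel₀ hne]
        rw [h4]
        exact hDt _
      rw [SS_smul K _ _ (inv_ne_zero hne), SS_map K k hk] at h3
      exact hS v h3 hv
    have hin : ∀ k ∈ K, ∀ v ∈ LinearMap.ker (LinearMap.snd F L F),
        k v ∈ LinearMap.ker (LinearMap.snd F L F) := by
      intro k hk v hv
      rw [LinearMap.mem_ker, LinearMap.snd_apply] at hv ⊢
      exact hinv k hk v hv
    rcases hirr (LinearMap.ker (LinearMap.snd F L F)) hin with h3 | h3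
    · have h4 : ((1 : L), (0 : F)) ∈ LinearMap.ker (LinearMap.snd F L F) := by simp
      rw [h3, Submodule.mem_bot] at h4
      exact one_ne_zero (congrArg Prod.fst h4)
    · have h4 : ((0 : L), (1 : F)) ∈ LinearMap.ker (LinearMap.snd F L F) := by
        rw [h3]; exact Submodule.mem_top
      simp at h4

end Pool.Agent.SLM
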