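import Pool.Agent.SLN.Geo1
import Pool.Agent.SLN.Geo2b

/-! An irreducible group of automorphisms of `L × F` which contains `t = (s, μ⁻¹)` and one
transvection contains all transvections (helper44). -/

set_option autoImplicit false

namespace Pool.Agent.SLM

open Pool.Agent.SLN

/-- an irreducible group with `t`, an element which moves `e` into `W` and one transvection
contains all transvections -/
theorem geo3k {F L : Type*} [Field F] [Finite F] [Field L] [Finite L] [Algebra F L]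
    (hL : 2 ≤ Module.finrank F L) (μ : F) (hμ : μ ≠ 0) (s : L)
    (hgen : ∀ x y : L, x ≠ 0 → y ≠ 0 → ∃ j : ℕ, s ^ j * x = y)
    (hE : ∀ E : AddSubgroup L, (∀ w ∈ E, μ • (s * w) ∈ E) → E ≠ ⊥ → E = ⊤)
    (K : Subgroup ((L × F) ≃ₗ[F] (L × F))) (t : (L × F) ≃ₗ[F] (L × F)) (htK : t ∈ K)
    (ht : ∀ v, t v = (s * v.1, μ⁻¹ * v.2))
    (hirr : ∀ U : Submodule F (L × F), (∀ k ∈ K, ∀ v ∈ U, k v ∈ U) → U = ⊥ ∨ U = ⊤)
    (k₀ : (L × F) ≃ₗ[F] (L × F)) (hk₀ : k₀ ∈ K) (hk₀e : (k₀ (0, 1)).2 = 0)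
    (φ₀ : (L × F) →ₗ[F] F) (u₀ : L × F) (hφ₀ : φ₀ ≠ 0) (hu₀ : u₀ ≠ 0) (h₀ : φ₀ u₀ = 0)
    (hg₀ : ∃ g ∈ K, ∀ v, g v = v + φ₀ v • u₀) :
    ∀ (φ : (L × F) →ₗ[F] F) (u : L × F), φ u = 0 → ∃ g ∈ K, ∀ v, g v = v + φ v • u := by
  have hfd : FiniteDimensional F L := Module.Finite.of_finite
  have hmul : ∀ (f g : (L × F) ≃ₗ[F] (L × F)) (v : L × F), (f * g) v = f (g v) := fun f g v => rfl
  have hinv1 : ∀ (k : (L × F) ≃ₗ[F] (L × F)) (v : L × F), (k⁻¹) (k v) = v :=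
    fun k v => k.symm_apply_apply v
  have hinv2 : ∀ (k : (L × F) ≃ₗ[F] (L × F)) (v : L × F), k ((k⁻¹) v) = v :=
    fun k v => k.apply_symm_apply v
  have htp := t_pow μ⁻¹ s t ht
  have hw₀ : (k₀ (0, 1)).1 ≠ 0 := by
    intro h
    have h1 : k₀ (0, 1) = 0 := Prod.ext h hk₀e
    have h2 : ((0 : L), (1 : F)) = 0 := by
      apply k₀.injective
      rw [h1, map_zero]
    exact one_ne_zero (congrArg Prod.snd h2)
  have H1 : ∀ w : L, w ≠ 0 → ∃ k ∈ K, k (0, 1) = (w, 0) := by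
    intro w hw
    obtain ⟨j, hj⟩ := hgen _ w hw₀ hw
    refine ⟨t ^ j * k₀, K.mul_mem (K.pow_mem htK j) hk₀, ?_⟩
    rw [hmul, htp, hj, hk₀e, mul_zero]
  -- functionals
  let lam : L →ₗ[F] F :=
    (LinearMap.snd F L F) ∘ₗ (k₀ : (L × F) →ₗ[F] (L × F)) ∘ₗ (LinearMap.inl F L F)
  have hlam : ∀ w : L, lam w = (k₀ (w, 0)).2 := fun w => rfl
  have hk₀2 : ∀ v : L × F, (k₀ v).2 = lam v.1 := by
    intro v
    have h1 : v = (v.1, 0) + v.2 • ((0 : L), (1 : F)) := by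
      ext <;> simp
    conv_lhs => rw [h1]
    rw [map_add, map_smul, Prod.snd_add, Prod.smul_snd, hk₀e, hlam]
    simp
  have hlam0 : ∃ w, lam w ≠ 0 := by
    by_contra hcon
    push Not at hcon
    have h1 := hk₀2 (k₀⁻¹ (0, 1))
    rw [hinv2, hcon] at h1
    exact one_ne_zero h1
  have H2 : ∀ ψ : L →ₗ[F] F, ψ ≠ 0 → ∃ g ∈ K, ∀ v : L × F, (g v).2 = ψ v.1 := by
    intro ψ hψ
    obtain ⟨w, hw⟩ := hlam0
    have hinj : Function.Injective
        ((LinearMap.compRight F lam : (L →ₗ[F] L) →ₗ[F] (L →ₗ[F] F)) ∘ₗ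
          (LinearMap.mul F L : L →ₗ[F] (L →ₗ[F] L))) := by
      rw [injective_iff_map_eq_zero]
      intro z hz
      by_contra hz0
      apply hw
      have h1 := LinearMap.congr_fun hz (z⁻¹ * w)
      simp only [LinearMap.comp_apply, LinearMap.compRight_apply, LinearMap.mul_apply',
        LinearMap.zero_apply] at h1
      rwa [mul_inv_cancel_left₀ hz0] at h1
    have hsurj := (LinearMap.injective_iff_surjective_of_finrank_eq_finrank
      (Subspace.dual_finrank_eq (K := F) (V := L)).symm).1 hinj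
    obtain ⟨z, hz⟩ := hsurj ψ
    have hz0 : z ≠ 0 := by
      rintro rfl
      rw [map_zero] at hz
      exact hψ hz.symm
    obtain ⟨j, hj⟩ := hgen 1 z one_ne_zero hz0
    refine ⟨k₀ * t ^ j, K.mul_mem hk₀ (K.pow_mem htK j), fun v => ?_⟩
    rw [hmul, hk₀2, htp, ← hz]
    simp only [LinearMap.comp_apply, LinearMap.compRight_apply, LinearMap.mul_apply']
    rw [← hj, mul_one]
  -- a transvection with axis `W`
  obtain ⟨g₀, hg₀K, hg₀v⟩ := hg₀
  obtain ⟨w, hw, hφw⟩ : ∃ w : L, w ≠ 0 ∧ φ₀ (w, 0) = 0 := by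
    have h1 : 0 < Module.finrank F (LinearMap.ker (φ₀ ∘ₗ LinearMap.inl F L F)) := by
      have h2 := (φ₀ ∘ₗ LinearMap.inl F L F).finrank_range_add_finrank_ker
      have h3 := Submodule.finrank_le (LinearMap.range (φ₀ ∘ₗ LinearMap.inl F L F))
      rw [Module.finrank_self] at h3
      omega
    have : Nontrivial (LinearMap.ker (φ₀ ∘ₗ LinearMap.inl F L F)) :=
      Module.nontrivial_of_finrank_pos h1
    obtain ⟨⟨w, hw⟩, hw0⟩ := exists_ne (0 : LinearMap.ker (φ₀ ∘ₗ LinearMap.inl F L F))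
    refine ⟨w, fun h => hw0 (Subtype.ext h), ?_⟩
    simpa using hw
  obtain ⟨k, hk, hke⟩ := H1 w hw
  let ψ : L →ₗ[F] F := φ₀ ∘ₗ (k : (L × F) →ₗ[F] (L × F)) ∘ₗ (LinearMap.inl F L F)
  have hψ : ∀ v : L × F, φ₀ (k v) = ψ v.1 := by
    intro v
    have h1 : v = (v.1, 0) + v.2 • ((0 : L), (1 : F)) := by
      ext <;> simp
    conv_lhs => rw [h1]
    rw [map_add, map_smul, map_add, map_smul, hke, hφw, smul_zero, add_zero]
    rfl
  have hψ0 : ψ ≠ 0 := by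
    intro h
    apply hφ₀
    refine LinearMap.ext fun v => ?_
    have h1 := hψ (k⁻¹ v)
    rw [hinv2, h] at h1
    simpa using h1
  obtain ⟨g, hg, hgv⟩ := H2 ψ hψ0
  set p : L × F := g (k⁻¹ u₀) with hp
  have hp2 : p.2 = 0 := by
    rw [hp, hgv, ← hψ, hinv2, h₀]
  have hp1 : p.1 ≠ 0 := by
    intro h
    have h1 : p = 0 := Prod.ext h hp2
    apply hu₀
    have h2 : k⁻¹ u₀ = 0 := by
      apply g.injective
      rw [map_zero, ← h1]
    have h3 := congrArg k h2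
    rwa [hinv2, map_zero] at h3
  have hτ : ∀ v : L × F, (g * k⁻¹ * g₀ * k * g⁻¹) v = v + v.2 • (p.1, (0 : F)) := by
    intro v
    have h1 : (g * k⁻¹ * g₀ * k * g⁻¹) v = g (k⁻¹ (g₀ (k (g⁻¹ v)))) := rfl
    rw [h1, hg₀v, map_add, map_smul, hinv1, map_add, map_smul, hinv2, hψ, ← hgv, hinv2, ← hp]
    congr 2
    exact Prod.ext rfl hp2
  -- the group of transvections with axis W
  let E : AddSubgroup L :=
    { carrier := {w | ∃ g ∈ K, ∀ v : L × F, g v = v + v.2 • (w, (0 : F))}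
      add_mem' := by
        rintro w w' ⟨g, hg, h⟩ ⟨g', hg', h'⟩
        refine ⟨g * g', K.mul_mem hg hg', fun v => ?_⟩
        have : (g * g') v = g (g' v) := rfl
        rw [this, h, h']
        ext
        · simp
          ring
        · simp
      zero_mem' := ⟨1, K.one_mem, fun v => by simp⟩
      neg_mem' := by
        rintro w ⟨g, hg, h⟩
        refine ⟨g⁻¹, K.inv_mem hg, fun v => ?_⟩
        have h1 : g (v + v.2 • (-w, (0 : F))) = v := by
          rw [h]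
          ext
          · simp
          · simp
        have h2 : g⁻¹ v = g.symm v := rfl
        rw [h2]
        rw [LinearEquiv.symm_apply_eq]
        exact h1.symm }
  have hEmem : ∀ w, w ∈ E ↔ ∃ g ∈ K, ∀ v : L × F, g v = v + v.2 • (w, (0 : F)) := fun w => Iff.rfl
  have hEtop : E = ⊤ := by
    apply hE
    · intro w hw
      obtain ⟨g, hg, h⟩ := (hEmem w).1 hw
      refine (hEmem _).2 ⟨t * g * t⁻¹, K.mul_mem (K.mul_mem htK hg) (K.inv_mem htK), fun z => ?_⟩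
      obtain ⟨y, rfl⟩ : ∃ y, t y = z := ⟨t.symm z, t.apply_symm_apply z⟩
      have h1 : (t * g * t⁻¹) (t y) = t (g y) := by
        have : (t * g * t⁻¹) (t y) = t (g (t.symm (t y))) := rfl
        rw [this, t.symm_apply_apply]
      rw [h1, h, map_add, map_smul, ht, ht]
      ext
      · simp only [Prod.fst_add, Prod.smul_fst, smul_smul]
        congr 2
        field_simp
      · simp
    · intro hbot
      have h1 : p.1 ∈ E := (hEmem _).2 ⟨g * k⁻¹ * g₀ * k * g⁻¹,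
        K.mul_mem (K.mul_mem (K.mul_mem (K.mul_mem hg (K.inv_mem hk)) hg₀K) hk) (K.inv_mem hg), hτ⟩
      rw [hbot, AddSubgroup.mem_bot] at h1
      exact hp1 h1
  have hsnd : Full K (LinearMap.snd F L F) := by
    intro u hu
    have h1 : u.1 ∈ E := by rw [hEtop]; trivial
    obtain ⟨g, hg, h⟩ := (hEmem _).1 h1
    refine ⟨g, hg, fun v => ?_⟩
    rw [h]
    have : u = (u.1, 0) := by
      ext
      · rfl
      · exact hu
    conv_rhs => rw [this]
    rfl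
  have htop := fullS_eq_top K hirr _ hsnd (by
    intro h0
    have : (LinearMap.snd F L F) (0, 1) = 0 := by rw [h0]; rfl
    simp at this)
  intro φ u hu
  have h1 : φ ∈ FullS K := by rw [htop]; trivial
  exact h1 u hu

/-- module Geo3: an irreducible group with t and one transvection contains all transvections -/
theorem geo3 {F L : Type*} [Field F] [Finite F] [Field L] [Finite L] [Algebra F L]
    (hL : 3 ≤ Module.finrank F L) (μ : F) (hμ : μ ≠ 0) (s : L)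
    (hgen : ∀ x y : L, x ≠ 0 → y ≠ 0 → ∃ j : ℕ, s ^ j * x = y)
    (hE : ∀ E : AddSubgroup L, (∀ w ∈ E, μ • (s * w) ∈ E) → E ≠ ⊥ → E = ⊤)
    (K : Subgroup ((L × F) ≃ₗ[F] (L × F))) (t : (L × F) ≃ₗ[F] (L × F)) (htK : t ∈ K)
    (ht : ∀ v, t v = (s * v.1, μ⁻¹ * v.2))
    (hirr : ∀ U : Submodule F (L × F), (∀ k ∈ K, ∀ v ∈ U, k v ∈ U) → U = ⊥ ∨ U = ⊤)
    (φ₀ : (L × F) →ₗ[F] F) (u₀ : L × F) (hφ₀ : φ₀ ≠ 0) (hu₀ : u₀ ≠ 0) (h₀ : φ₀ u₀ = 0)
    (hg₀ : ∃ g ∈ K, ∀ v, g v = v + φ₀ v • u₀) :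
    ∀ (φ : (L × F) →ₗ[F] F) (u : L × F), φ u = 0 → ∃ g ∈ K, ∀ v, g v = v + φ v • u := by
  obtain ⟨k₀, hk₀, hk₀e⟩ : ∃ k₀ ∈ K, (k₀ (0, 1)).2 = 0 := by
    by_contra hcon
    push Not at hcon
    exact geo2b hL μ hμ s hgen K t htK ht hirr hcon
  exact geo3k (by omega) μ hμ s hgen hE K t htK ht hirr k₀ hk₀ hk₀e φ₀ u₀ hφ₀ hu₀ h₀ hg₀

end Pool.Agent.SLM
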