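import Pool.Agent.SLN.Geo1
import Pool.Agent.SLN.Geo2b

/-! An irreducible group of automorphisms of `L × F` which contains `t = (s, μ⁻¹)` is transitive
on the points (helper44). -/

set_option autoImplicit false

namespace Pool.Agent.SLM

open Pool.Agent.SLN

/-- module Tr: K is transitive on points -/
theorem tr1 {F L : Type*} [Field F] [Finite F] [Field L] [Finite L] [Algebra F L]
    (hL : 3 ≤ Module.finrank F L) (μ : F) (hμ : μ ≠ 0) (s : L)
    (hgen : ∀ x y : L, x ≠ 0 → y ≠ 0 → ∃ j : ℕ, s ^ j * x = y)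
    (K : Subgroup ((L × F) ≃ₗ[F] (L × F))) (t : (L × F) ≃ₗ[F] (L × F)) (htK : t ∈ K)
    (ht : ∀ v, t v = (s * v.1, μ⁻¹ * v.2))
    (hirr : ∀ U : Submodule F (L × F), (∀ k ∈ K, ∀ v ∈ U, k v ∈ U) → U = ⊥ ∨ U = ⊤)
    (v : L × F) (hv : v ≠ 0) : ∃ k ∈ K, ∃ c : F, c ≠ 0 ∧ k v = c • ((0 : L), (1 : F)) := by
  have hfd : FiniteDimensional F L := Module.Finite.of_finite
  have hmul : ∀ (f g : (L × F) ≃ₗ[F] (L × F)) (v : L × F), (f * g) v = f (g v) := fun f g v => rfl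
  have hinv1 : ∀ (k : (L × F) ≃ₗ[F] (L × F)) (v : L × F), (k⁻¹) (k v) = v :=
    fun k v => k.symm_apply_apply v
  have hinv2 : ∀ (k : (L × F) ≃ₗ[F] (L × F)) (v : L × F), k ((k⁻¹) v) = v :=
    fun k v => k.apply_symm_apply v
  have htp := t_pow μ⁻¹ s t ht
  -- an element which moves `e` into `W`
  obtain ⟨k₀, hk₀, hk₀e⟩ : ∃ k₀ ∈ K, (k₀ (0, 1)).2 = 0 := by
    by_contra hcon
    push Not at hcon
    exact geo2b hL μ hμ s hgen K t htK ht hirr hcon
  have hw₀ : (k₀ (0, 1)).1 ≠ 0 := by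
    intro h
    have h1 : k₀ (0, 1) = 0 := Prod.ext h hk₀e
    have h2 : ((0 : L), (1 : F)) = 0 := by
      apply k₀.injective
      rw [h1, map_zero]
    exact one_ne_zero (congrArg Prod.snd h2)
  have H1 : ∀ w : L, w ≠ 0 → ∃ k ∈ K, k (w, 0) = (0, 1) := by
    intro w hw
    obtain ⟨j, hj⟩ := hgen _ w hw₀ hw
    refine ⟨(t ^ j * k₀)⁻¹, K.inv_mem (K.mul_mem (K.pow_mem htK j) hk₀), ?_⟩
    have h1 : (t ^ j * k₀) (0, 1) = (w, 0) := by
      rw [hmul, htp, hj, hk₀e, mul_zero]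
    rw [← h1, hinv1]
  -- the orbit of the point `e`
  let O : Set (L × F) := {v | ∃ k ∈ K, ∃ c : F, c ≠ 0 ∧ k v = c • ((0 : L), (1 : F))}
  have hOmem : ∀ v, v ∈ O ↔ ∃ k ∈ K, ∃ c : F, c ≠ 0 ∧ k v = c • ((0 : L), (1 : F)) :=
    fun v => Iff.rfl
  have hOK : ∀ k ∈ K, ∀ v, k v ∈ O → v ∈ O := by
    rintro k hk v ⟨k', hk', c, hc, h⟩
    exact ⟨k' * k, K.mul_mem hk' hk, c, hc, by rw [hmul]; exact h⟩
  have hOW : ∀ w : L, w ≠ 0 → (w, (0 : F)) ∈ O := by
    intro w hw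
    obtain ⟨k, hk, h⟩ := H1 w hw
    exact ⟨k, hk, 1, one_ne_zero, by rw [h, one_smul]⟩
  -- a line in `W`
  obtain ⟨η, hη⟩ : ∃ η : L, ∀ c : F, η ≠ c • (1 : L) := by
    by_contra hcon
    push Not at hcon
    have h1 : Module.finrank F L ≤ 1 := by
      apply finrank_le_one (1 : L)
      intro w
      obtain ⟨c, hc⟩ := hcon w
      exact ⟨c, hc.symm⟩
    omega
  obtain ⟨k, hk, hke⟩ := H1 1 one_ne_zero
  have hkη : (k (η, 0)).1 ≠ 0 := by
    intro h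
    have h1 : k (η, 0) = (k (η, 0)).2 • k (1, 0) := by
      rw [hke]
      ext
      · simp [h]
      · simp
    rw [← map_smul] at h1
    have h2 := k.injective h1
    exact hη _ (congrArg Prod.fst h2)
  have hline : ∀ b : F, ((k (η, 0)).1, b) ∈ O := by
    intro b
    apply hOK k⁻¹ (K.inv_mem hk)
    have h1 : (((k (η, 0)).1, b) : L × F) = k (η, 0) + (b - (k (η, 0)).2) • k (1, 0) := by
      rw [hke]
      ext <;> simp
    rw [h1, map_add, map_smul, hinv1, hinv1]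
    have h2 : ((η, (0 : F)) + (b - (k (η, 0)).2) • ((1 : L), (0 : F)) : L × F) =
        (η + (b - (k (η, 0)).2) • (1 : L), 0) := by
      ext <;> simp
    rw [h2]
    apply hOW
    intro h3
    apply hη (-(b - (k (η, 0)).2))
    rw [neg_smul]
    exact eq_neg_of_add_eq_zero_left h3
  by_cases hv1 : v.1 = 0
  · have hv2 : v.2 ≠ 0 := fun h => hv (Prod.ext hv1 h)
    refine ⟨1, K.one_mem, v.2, hv2, ?_⟩
    have : (1 : (L × F) ≃ₗ[F] (L × F)) v = v := rfl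
    rw [this]
    ext
    · simp [hv1]
    · simp
  · obtain ⟨j, hj⟩ := hgen v.1 _ hv1 hkη
    apply hOK (t ^ j) (K.pow_mem htK j)
    rw [htp, hj]
    exact hline _

end Pool.Agent.SLM
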