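import Pool.Agent.SLM.DefsJ
import Pool.Agent.SLM.Tr
import Pool.Agent.SLN.Main

/-! Elements with a power which is a transvection, and elements of type (3,1,...,1), in a group
which acts on `L × F` (helper44). -/

set_option autoImplicit false

namespace Pool.Agent.SLM

open Matrix Pool.Agent.SLN

/-- the functional `v ↦ φ ⬝ᵥ v` -/
def dpl {n : ℕ} {F : Type*} [Field F] (φ : Fin n → F) : (Fin n → F) →ₗ[F] F :=
  { toFun := fun v => φ ⬝ᵥ v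
    map_add' := fun a b => dotProduct_add φ a b
    map_smul' := fun c a => dotProduct_smul c φ a }

theorem dpl_apply {n : ℕ} {F : Type*} [Field F] (φ v : Fin n → F) : dpl φ v = φ ⬝ᵥ v := rfl

theorem dpl_ne {n : ℕ} {F : Type*} [Field F] (φ : Fin n → F) (h : φ ≠ 0) : ∃ v, φ ⬝ᵥ v ≠ 0 := by
  by_contra hcon
  push Not at hcon
  apply h
  funext i
  have := hcon (Pi.single i 1)
  simpa using this

theorem conj_pow' {G : Type*} [Group G] (h x : G) (k : ℕ) :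
    (h⁻¹ * x * h) ^ k = h⁻¹ * x ^ k * h := by
  have := conj_pow (i := k) (a := h⁻¹) (b := x)
  rw [inv_inv] at this
  exact this

theorem mulVec_conj {n : ℕ} {F : Type*} [Field F] (h x : SLn n F) (v : Fin n → F) :
    (h⁻¹ * x * h).1 *ᵥ v = h⁻¹.1 *ᵥ (x.1 *ᵥ (h.1 *ᵥ v)) := by
  rw [Matrix.mulVec_mulVec, Matrix.mulVec_mulVec, ← Matrix.SpecialLinearGroup.coe_mul,
    ← Matrix.SpecialLinearGroup.coe_mul]

theorem mulVec_inv_mul {n : ℕ} {F : Type*} [Field F] (h : SLn n F) (v : Fin n → F) :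
    h⁻¹.1 *ᵥ (h.1 *ᵥ v) = v := by
  rw [Matrix.mulVec_mulVec, ← Matrix.SpecialLinearGroup.coe_mul, inv_mul_cancel]
  simp

theorem mulVec_mul_inv {n : ℕ} {F : Type*} [Field F] (h : SLn n F) (v : Fin n → F) :
    h.1 *ᵥ (h⁻¹.1 *ᵥ v) = v := by
  rw [Matrix.mulVec_mulVec, ← Matrix.SpecialLinearGroup.coe_mul, mul_inv_cancel]
  simp

theorem ne_zero_mulVec {n : ℕ} {F : Type*} [Field F] (h : SLn n F) (v : Fin n → F) (hv : v ≠ 0) :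
    h.1 *ᵥ v ≠ 0 := by
  intro h0
  apply hv
  rw [← mulVec_inv_mul h v, h0, Matrix.mulVec_zero]

theorem vecMul_ne {n : ℕ} {F : Type*} [Field F] (h : SLn n F) (φ : Fin n → F) (hφ : φ ≠ 0) :
    φ ᵥ* h.1 ≠ 0 := by
  intro h0
  obtain ⟨v, hv⟩ := dpl_ne φ hφ
  apply hv
  have h1 : (φ ᵥ* h.1) ⬝ᵥ (h⁻¹.1 *ᵥ v) = φ ⬝ᵥ v := by
    rw [← Matrix.dotProduct_mulVec, mulVec_mul_inv]
  rw [← h1, h0, zero_dotProduct]

theorem HasTv.conj {n : ℕ} {F : Type*} [Field F] (h x : SLn n F) (hx : HasTv x) :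
    HasTv (h⁻¹ * x * h) := by
  obtain ⟨k, φ, u, hφ, hu, hφu, hv⟩ := hx
  refine ⟨k, φ ᵥ* h.1, h⁻¹.1 *ᵥ u, vecMul_ne h φ hφ, ne_zero_mulVec _ _ hu, ?_, fun v => ?_⟩
  · rw [← Matrix.dotProduct_mulVec, mulVec_mul_inv, hφu]
  · rw [conj_pow', mulVec_conj, hv, Matrix.mulVec_add, Matrix.mulVec_smul, mulVec_inv_mul,
      ← Matrix.dotProduct_mulVec]

theorem IsJ.conj {n : ℕ} {F : Type*} [Field F] (h x : SLn n F) (hx : IsJ x) :
    IsJ (h⁻¹ * x * h) := by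
  obtain ⟨p₂, p₃, e₁, e₂, he₁, hp₃, h21, h31, h32, h22, hv⟩ := hx
  refine ⟨p₂ ᵥ* h.1, p₃ ᵥ* h.1, h⁻¹.1 *ᵥ e₁, h⁻¹.1 *ᵥ e₂, ne_zero_mulVec _ _ he₁,
    vecMul_ne h _ hp₃, ?_, ?_, ?_, ?_, fun v => ?_⟩
  · rw [← Matrix.dotProduct_mulVec, mulVec_mul_inv, h21]
  · rw [← Matrix.dotProduct_mulVec, mulVec_mul_inv, h31]
  · rw [← Matrix.dotProduct_mulVec, mulVec_mul_inv, h32]
  · rw [← Matrix.dotProduct_mulVec, mulVec_mul_inv]
    exact h22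
  · rw [mulVec_conj, hv, Matrix.mulVec_add, Matrix.mulVec_add, Matrix.mulVec_smul,
      Matrix.mulVec_smul, mulVec_inv_mul, ← Matrix.dotProduct_mulVec, ← Matrix.dotProduct_mulVec]

/-- an element with a power which is a transvection gives a transvection of `L × F` -/
theorem tv_of_hasTv {n : ℕ} {F L : Type*} [Field F] [Field L] [Algebra F L]
    (K : Subgroup ((L × F) ≃ₗ[F] (L × F))) (Ψ : (Fin n → F) ≃ₗ[F] (L × F)) (x : SLn n F)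
    (hx : HasTv x) (hK : tr Ψ x ∈ K) :
    ∃ (φ : (L × F) →ₗ[F] F) (u : L × F), φ ≠ 0 ∧ u ≠ 0 ∧ φ u = 0 ∧
      ∃ g ∈ K, ∀ v, g v = v + φ v • u := by
  obtain ⟨k, φ, u, hφ, hu, hφu, hv⟩ := hx
  refine ⟨dpl φ ∘ₗ (Ψ.symm : (L × F) →ₗ[F] (Fin n → F)), Ψ u, ?_, ?_, ?_, (tr Ψ x) ^ k,
    K.pow_mem hK k, fun v => ?_⟩
  · intro h0
    obtain ⟨v, hv⟩ := dpl_ne φ hφ
    apply hv
    have := LinearMap.congr_fun h0 (Ψ v)
    simpa [dpl_apply] using this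
  · intro h0
    apply hu
    apply Ψ.injective
    rw [h0, map_zero]
  · simp [dpl_apply, hφu]
  · obtain ⟨v, rfl⟩ := Ψ.surjective v
    rw [← map_pow, tr_apply, hv]
    simp [dpl_apply]

/-- an element of type (3,1,...,1) in a group which is transitive on points, in coordinates -/
theorem coord_of_isJ {n : ℕ} {F L : Type*} [Field F] [Field L] [Algebra F L]
    (K : Subgroup ((L × F) ≃ₗ[F] (L × F)))
    (htr : ∀ v : L × F, v ≠ 0 → ∃ k ∈ K, ∃ c : F, c ≠ 0 ∧ k v = c • ((0 : L), (1 : F)))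
    (Ψ : (Fin n → F) ≃ₗ[F] (L × F)) (x : SLn n F)
    (hx : IsJ x) (hK : tr Ψ x ∈ K) :
    ∃ g₀ ∈ K, ∃ (ψ₀ β₀ : L →ₗ[F] F) (c₀ : L), ψ₀ ≠ 0 ∧ ψ₀ c₀ = 0 ∧ β₀ c₀ ≠ 0 ∧
      ∀ v : L × F, g₀ v = (v.1 + ψ₀ v.1 • c₀, v.2 + β₀ v.1) := by
  obtain ⟨p₂, p₃, e₁, e₂, he₁, hp₃, h21, h31, h32, h22, hv⟩ := hx
  obtain ⟨k, hk, c, hc, hke⟩ := htr (Ψ e₁) (by
    intro h0
    apply he₁
    apply Ψ.injective
    rw [h0, map_zero])
  have hinv1 : ∀ (k : (L × F) ≃ₗ[F] (L × F)) (v : L × F), (k⁻¹) (k v) = v :=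
    fun k v => k.symm_apply_apply v
  have hinv2 : ∀ (k : (L × F) ≃ₗ[F] (L × F)) (v : L × F), k ((k⁻¹) v) = v :=
    fun k v => k.apply_symm_apply v
  let R : (L × F) →ₗ[F] (Fin n → F) :=
    (Ψ.symm : (L × F) →ₗ[F] (Fin n → F)) ∘ₗ ((k⁻¹ : (L × F) ≃ₗ[F] (L × F)) : (L × F) →ₗ[F] (L × F))
  have hR : ∀ v, R v = Ψ.symm (k⁻¹ v) := fun v => rfl
  let P₂ : (L × F) →ₗ[F] F := c • (dpl p₂ ∘ₗ R)
  let P₃ : (L × F) →ₗ[F] F := dpl p₃ ∘ₗ R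
  have hP₂ : ∀ v, P₂ v = c * (p₂ ⬝ᵥ R v) := fun v => rfl
  have hP₃ : ∀ v, P₃ v = p₃ ⬝ᵥ R v := fun v => rfl
  set E₂ : L × F := k (Ψ e₂) with hE₂
  have hRe : R (0, 1) = c⁻¹ • e₁ := by
    rw [hR]
    apply Ψ.injective
    rw [LinearEquiv.apply_symm_apply, map_smul]
    apply k.injective
    rw [hinv2, map_smul, hke, smul_smul, inv_mul_cancel₀ hc, one_smul]
  have hRE : R E₂ = e₂ := by
    rw [hR, hE₂, hinv1, LinearEquiv.symm_apply_apply]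
  have h2e : P₂ (0, 1) = 0 := by
    rw [hP₂, hRe, dotProduct_smul, h21]
    simp
  have h3e : P₃ (0, 1) = 0 := by
    rw [hP₃, hRe, dotProduct_smul, h31]
    simp
  have h3E : P₃ E₂ = 0 := by rw [hP₃, hRE, h32]
  have h2E : P₂ E₂ ≠ 0 := by
    rw [hP₂, hRE]
    exact mul_ne_zero hc h22
  have hdec : ∀ v : L × F, v = (v.1, 0) + v.2 • ((0 : L), (1 : F)) := by
    intro v
    ext <;> simp
  have hfst2 : ∀ v : L × F, P₂ v = P₂ (v.1, 0) := by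
    intro v
    conv_lhs => rw [hdec v]
    rw [map_add, map_smul, h2e, smul_zero, add_zero]
  have hfst3 : ∀ v : L × F, P₃ v = P₃ (v.1, 0) := by
    intro v
    conv_lhs => rw [hdec v]
    rw [map_add, map_smul, h3e, smul_zero, add_zero]
  refine ⟨k * tr Ψ x * k⁻¹, K.mul_mem (K.mul_mem hk hK) (K.inv_mem hk),
    P₃ ∘ₗ LinearMap.inl F L F, P₂ ∘ₗ LinearMap.inl F L F + E₂.2 • (P₃ ∘ₗ LinearMap.inl F L F),
    E₂.1, ?_, ?_, ?_, fun v => ?_⟩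
  · intro h0
    obtain ⟨v, hv⟩ := dpl_ne p₃ hp₃
    apply hv
    have h1 := LinearMap.congr_fun h0 (k (Ψ v)).1
    have h2 : P₃ (k (Ψ v)) = 0 := by
      rw [hfst3]
      exact h1
    rw [hP₃, hR, hinv1, LinearEquiv.symm_apply_apply] at h2
    exact h2
  · have : (P₃ ∘ₗ LinearMap.inl F L F) E₂.1 = P₃ (E₂.1, 0) := rfl
    rw [this, ← hfst3, h3E]
  · have h1 : (P₂ ∘ₗ LinearMap.inl F L F + E₂.2 • (P₃ ∘ₗ LinearMap.inl F L F)) E₂.1 =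
        P₂ (E₂.1, 0) + E₂.2 * P₃ (E₂.1, 0) := rfl
    rw [h1, ← hfst3, ← hfst2, h3E, mul_zero, add_zero]
    exact h2E
  · have h1 : (k * tr Ψ x * k⁻¹) v = k (tr Ψ x (k⁻¹ v)) := rfl
    have h2 : k⁻¹ v = Ψ (R v) := by rw [hR, LinearEquiv.apply_symm_apply]
    rw [h1, h2, tr_apply, hv, map_add, map_add, map_smul, map_smul, map_add, map_add, map_smul,
      map_smul, ← h2, hinv2, hke, ← hE₂]
    have h3 : (P₃ ∘ₗ LinearMap.inl F L F) v.1 = P₃ (v.1, 0) := rfl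
    have h4 : (P₂ ∘ₗ LinearMap.inl F L F + E₂.2 • (P₃ ∘ₗ LinearMap.inl F L F)) v.1 =
        P₂ (v.1, 0) + E₂.2 * P₃ (v.1, 0) := rfl
    rw [h3, h4, ← hfst3, ← hfst2, hP₂, hP₃]
    ext
    · simp
    · simp
      ring

end Pool.Agent.SLM
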