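import Pool.Agent.SLM.Fld2
import Pool.Agent.SLM.Geo3
import Pool.Agent.SLM.TvQ
import Pool.Agent.SLM.Geo2c
import Pool.Agent.SLM.FacZ3
import Pool.Agent.SLN.Main

/-! `n = 3`, `q ≠ 4`: every nonscalar element of `SL_3(q)` is a product of two elements without
conjugates in a given proper subgroup (helper87, after `SLN/Main` of helper67). -/

set_option autoImplicit false

namespace Pool.Agent.SLM

open Matrix Pool.Agent.SLN

/-- a group which contains (in coordinates) all transvections is everything -/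
private theorem top_of_all {n : ℕ} {F L : Type*} [Field F] [Field L] [Algebra F L]
    (K : Subgroup (SLn (n + 1) F)) (Ψ : (Fin (n + 1) → F) ≃ₗ[F] (L × F))
    (hall : ∀ (φ : (L × F) →ₗ[F] F) (u : L × F), φ u = 0 →
          ∃ g ∈ K.map (tr Ψ), ∀ v, g v = v + φ v • u) : K = ⊤ := by
  apply PSL3.genN
  intro φ u hφu
  let f : (Fin (n + 1) → F) →ₗ[F] F :=
    { toFun := fun v => φ ⬝ᵥ v
      map_add' := fun a b => dotProduct_add φ a b
      map_smul' := fun c a => dotProduct_smul c φ a }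
  have hf : ∀ v, f v = φ ⬝ᵥ v := fun v => rfl
  obtain ⟨g', hg', h3⟩ := hall (f ∘ₗ (Ψ.symm : (L × F) →ₗ[F] (Fin (n + 1) → F))) (Ψ u) (by
    simp only [LinearMap.comp_apply, LinearEquiv.coe_coe, LinearEquiv.symm_apply_apply]
    exact hφu)
  obtain ⟨k, hk, rfl⟩ := Subgroup.mem_map.1 hg'
  refine ⟨k, hk, ?_⟩
  apply Matrix.ext_of_mulVec_single
  intro i
  have h4 := h3 (Ψ (Pi.single i 1))
  rw [tr_apply] at h4
  simp only [LinearMap.comp_apply, LinearEquiv.coe_coe, LinearEquiv.symm_apply_apply] at h4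
  rw [← map_smul, ← map_add] at h4
  have h5 := Ψ.injective h4
  rw [h5, hf, Matrix.add_mulVec, Matrix.one_mulVec, Matrix.vecMulVec_mulVec]
  congr 1
  ext j
  simp [mul_comm]

/-- a reducible group containing an element of type `(s, N(s)⁻¹)` -/
private theorem red_case {m : ℕ} (hm : 2 ≤ m) {F : Type} [Field F] [Finite F] {L : Type} [Field L]
    [Finite L] [Algebra F L] (hfin : Module.finrank F L = m) (μ : F) (s : L)
    (hgen : ∀ x y : L, x ≠ 0 → y ≠ 0 → ∃ j : ℕ, s ^ j * x = y)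
    (K : Subgroup (SLn (m + 1) F)) (Ψ : (Fin (m + 1) → F) ≃ₗ[F] (L × F)) (t : SLn (m + 1) F)
    (htK : t ∈ K) (ht : ∀ v, tr Ψ t v = (s * v.1, μ⁻¹ * v.2))
    (hirr : ¬ ∀ U : Submodule F (L × F), (∀ k ∈ K.map (tr Ψ), ∀ v ∈ U, k v ∈ U) → U = ⊥ ∨ U = ⊤)
    (g : SLn (m + 1) F) : ∃ x y, Dr K x ∧ Dr K y ∧ x * y = g := by
  push Not at hirr
  obtain ⟨U, hU, hb, htp⟩ := hirr
  have htK' : tr Ψ t ∈ K.map (tr Ψ) := Subgroup.mem_map_of_mem _ htK
  have hUt : ∀ v ∈ U, ((s * v.1, μ⁻¹ * v.2) : L × F) ∈ U := by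
    intro v hv
    rw [← ht]
    exact hU _ htK' v hv
  rcases inv_sub (by omega) μ s hgen U hUt with h | h | h | h
  · exact absurd h hb
  · exact absurd h htp
  · -- K fixes a point
    refine red (by omega) K (Ψ.symm (0, 1)) ?_ ?_ g
    · intro h0
      have := congrArg Ψ h0
      rw [LinearEquiv.apply_symm_apply, map_zero] at this
      exact one_ne_zero (congrArg Prod.snd this)
    · intro k hk
      have h1 : tr Ψ k (0, 1) ∈ U := hU _ (Subgroup.mem_map_of_mem _ hk) _ ((h _).2 rfl)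
      have h2 := (h _).1 h1
      refine ⟨(tr Ψ k (0, 1)).2, ?_⟩
      apply Ψ.injective
      rw [← tr_apply, LinearEquiv.apply_symm_apply, map_smul, LinearEquiv.apply_symm_apply]
      ext
      · simp [h2]
      · simp
  · -- K fixes a hyperplane
    have hΨ2 : ∀ v : Fin (m + 1) → F, (fun i => (Ψ (Pi.single i 1)).2) ⬝ᵥ v = (Ψ v).2 := by
      intro v
      have h1 : v = ∑ i, v i • (Pi.single i 1 : Fin (m + 1) → F) := by
        ext j
        simp [Finset.sum_apply, Pi.single_apply]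
      conv_rhs => rw [h1]
      rw [map_sum, Prod.snd_sum]
      simp only [map_smul, Prod.smul_snd, smul_eq_mul, dotProduct]
      exact Finset.sum_congr rfl fun i _ => mul_comm _ _
    refine redD (by omega) K (fun i => (Ψ (Pi.single i 1)).2) ?_ ?_ g
    · intro h0
      have h1 := hΨ2 (Ψ.symm (0, 1))
      rw [h0, LinearEquiv.apply_symm_apply] at h1
      simp at h1
    · intro k hk
      have hker : ∀ v : Fin (m + 1) → F, (Ψ v).2 = 0 → (Ψ (k.1 *ᵥ v)).2 = 0 := by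
        intro v hv
        have h1 : tr Ψ k (Ψ v) ∈ U := hU _ (Subgroup.mem_map_of_mem _ hk) _ ((h _).2 hv)
        rw [tr_apply] at h1
        exact (h _).1 h1
      set v1 := Ψ.symm (0, 1) with hv1
      have hv1' : (Ψ v1).2 = 1 := by rw [hv1, LinearEquiv.apply_symm_apply]
      refine ⟨(Ψ (k.1 *ᵥ v1)).2, ?_⟩
      have h2 : ∀ v, (Ψ (k.1 *ᵥ v)).2 = (Ψ (k.1 *ᵥ v1)).2 * (Ψ v).2 := by
        intro v
        have h3 := hker (v - (Ψ v).2 • v1) (by
          rw [map_sub, map_smul, Prod.snd_sub, Prod.smul_snd, hv1']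
          simp)
        rw [Matrix.mulVec_sub, Matrix.mulVec_smul, map_sub, map_smul, Prod.snd_sub,
          Prod.smul_snd, sub_eq_zero] at h3
        rw [h3, smul_eq_mul, mul_comm]
      ext i
      have h4 := h2 (Pi.single i 1)
      rw [← hΨ2, Matrix.dotProduct_mulVec] at h4
      simpa using h4

/-- `n = 3`, `q ≠ 4` -/
theorem main3 {F : Type} [Field F] [Finite F] (h4 : Nat.card F ≠ 4) (K : Subgroup (SLn 3 F))
    (hK : K ≠ ⊤) (g : SLn 3 F) (hg : ¬ Sc g) : ∃ x y, Dr K x ∧ Dr K y ∧ x * y = g := by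
  obtain ⟨L, _, _, _, s, hfin, hs0, hadj, hgen, -, -, -, -, hE⟩ := fld2 F 2 (by norm_num)
  have hμ : Algebra.norm F s ≠ 0 := by
    have : FiniteDimensional F L := Module.Finite.of_finite
    exact Algebra.norm_ne_zero_iff.2 hs0
  by_cases hT : ∃ t ∈ K, IsT s t
  · obtain ⟨t, htK, Ψ, hΨ⟩ := hT
    have htK' : tr Ψ t ∈ K.map (tr Ψ) := Subgroup.mem_map_of_mem _ htK
    have ht : ∀ v, tr Ψ t v = (s * v.1, (Algebra.norm F s)⁻¹ * v.2) := by
      intro v
      obtain ⟨v, rfl⟩ := Ψ.surjective v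
      rw [tr_apply, hΨ]
    by_cases hirr : ∀ U : Submodule F (L × F), (∀ k ∈ K.map (tr Ψ), ∀ v ∈ U, k v ∈ U) →
        U = ⊥ ∨ U = ⊤
    · have hno : ∀ x : SLn 3 F, HasTv x → x ∉ K := by
        intro x hx hxK
        obtain ⟨φ₀, u₀, hφ₀, hu₀, h₀, hg₀⟩ := tv_of_hasTv (K.map (tr Ψ)) Ψ x hx
          (Subgroup.mem_map_of_mem _ hxK)
        obtain ⟨k₀, hk₀, hk₀e⟩ : ∃ k₀ ∈ K.map (tr Ψ), (k₀ (0, 1)).2 = 0 := by
          by_contra hcon
          push Not at hcon
          exact geo2c hfin h4 _ s hs0 rfl hgen _ _ htK' ht hirr hcon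
        exact hK (top_of_all K Ψ (geo3k hfin.ge _ hμ s hgen (hE le_rfl) _ _ htK' ht hirr k₀ hk₀
          hk₀e φ₀ u₀ hφ₀ hu₀ h₀ hg₀))
      obtain ⟨x, y, hx, hy, hxy⟩ := facZ3 g hg
      exact ⟨x, y, fun h hmem => hno _ (HasTv.conj h x hx) hmem,
        fun h hmem => hno _ (HasTv.conj h y hy) hmem, hxy⟩
    · exact red_case le_rfl hfin _ s hgen K Ψ t htK ht hirr g
  · push Not at hT
    obtain ⟨x, y, hx, hy, hxy⟩ := fac rfl le_rfl hfin s hadj g hg
    refine ⟨x, y, ?_, ?_, hxy⟩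
    · intro h hmem
      refine hT _ hmem (IsT.conj h⁻¹ ?_)
      have : h⁻¹⁻¹ * (h⁻¹ * x * h) * h⁻¹ = x := by group
      rw [this]
      exact hx
    · intro h hmem
      refine hT _ hmem (IsT.conj h⁻¹ ?_)
      have : h⁻¹⁻¹ * (h⁻¹ * y * h) * h⁻¹ = y := by group
      rw [this]
      exact hy

end Pool.Agent.SLM
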