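import Mathlib

/-! `PSL_3(4)`: the orbit of the point `e` meets the line `W` (helper26, argument of helper42). -/

set_option autoImplicit false

namespace Pool.Agent.SLM

private lemma k034_mod {V : Type} [Finite V] (S : Set V) (g : V → V) (hg : ∀ v ∈ S, g v ∈ S)
    (p n : ℕ) (hp : p.Prime) (h : ∀ v ∈ S, g^[p ^ n] v = v) :
    Nat.card S ≡ Nat.card {v : S | g v.1 = v.1} [MOD p] := by
  classical
  have hfp : Fact p.Prime := ⟨hp⟩
  have hft : Fintype S := Fintype.ofFinite S
  let f : Function.End S := fun v => ⟨g v.1, hg v.1 v.2⟩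
  have hit : ∀ (j : ℕ) (v : S), (f^[j] v).1 = g^[j] v.1 := by
    intro j
    induction j with
    | zero => exact fun v => rfl
    | succ j ih =>
      intro v
      rw [Function.iterate_succ_apply', Function.iterate_succ_apply', ← ih v]
  have hf : f ^ p ^ n = 1 := by
    funext v
    apply Subtype.ext
    show (f^[p ^ n] v).1 = v.1
    rw [hit, h v.1 v.2]
  have h1 := Equiv.Perm.card_fixedPoints_modEq hf
  have h2 : Function.fixedPoints f = {v : S | g v.1 = v.1} := by
    ext v
    rw [Function.mem_fixedPoints_iff]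
    exact Subtype.ext_iff
  rw [← Nat.card_eq_fintype_card, ← Nat.card_eq_fintype_card, h2] at h1
  exact h1

theorem k034 {F L : Type} [Field F] [Finite F] [Field L] [Finite L] [Algebra F L]
    (hF : Nat.card F = 4) (hL : Module.finrank F L = 2) (μ : F) (hμ : μ ≠ 0) (s : L)
    (hgen : ∀ x y : L, x ≠ 0 → y ≠ 0 → ∃ j : ℕ, s ^ j * x = y)
    (K : Subgroup ((L × F) ≃ₗ[F] (L × F))) (t c : (L × F) ≃ₗ[F] (L × F)) (htK : t ∈ K)
    (ht : ∀ v, t v = (s * v.1, μ⁻¹ * v.2)) (hcK : c ∈ K)
    (hc : ∀ (k : ℕ) (r : F) (v : L × F), v ≠ 0 → (c ^ k) v = r • v → 7 ∣ k) :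
    ∃ k ∈ K, (k (0, 1)).2 = 0 := by
  classical
  by_contra hcon
  push Not at hcon
  have hcL : Nat.card L = 16 := by
    rw [Module.natCard_eq_pow_finrank (K := F), hF, hL]; norm_num
  have hcU : Nat.card Fˣ = 3 := by rw [Nat.card_units, hF]
  have hcUL : Nat.card Lˣ = 15 := by rw [Nat.card_units, hcL]
  have hr3 : ∀ r : F, r ≠ 0 → r ^ 3 = 1 := by
    intro r hr
    have h1 : (Units.mk0 r hr) ^ 3 = 1 := by rw [← hcU]; exact pow_card_eq_one'
    have h2 := congrArg (fun u : Fˣ => (u : F)) h1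
    simpa using h2
  have hs0 : s ≠ 0 := by
    rintro rfl
    -- `0 ^ j * x` is `x` or `0`
    have h1 : ∃ x : L, x ≠ 0 ∧ x ≠ 1 := by
      by_contra h
      push Not at h
      have h2 : Nat.card L ≤ 2 := by
        have h3 : (Set.univ : Set L) ⊆ ({0, 1} : Finset L) := by
          intro x _
          by_cases hx : x = 0
          · simp [hx]
          · simp [h x hx]
        have h4 := Set.ncard_le_ncard h3 (Finset.finite_toSet _)
        rw [Set.ncard_univ, Set.ncard_coe_finset] at h4
        exact h4.trans Finset.card_le_two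
      omega
    obtain ⟨x, hx0, hx1⟩ := h1
    obtain ⟨j, hj⟩ := hgen 1 x one_ne_zero hx0
    rcases Nat.eq_zero_or_pos j with h2 | h2
    · rw [h2, pow_zero, one_mul] at hj
      exact hx1 hj.symm
    · rw [zero_pow (by omega), zero_mul] at hj
      exact hx0 hj.symm
  have hs15 : s ^ 15 = 1 := by
    have h1 : (Units.mk0 s hs0) ^ 15 = 1 := by rw [← hcUL]; exact pow_card_eq_one'
    have h2 := congrArg (fun u : Lˣ => (u : L)) h1
    simpa using h2
  have hs3 : s ^ 3 ≠ 1 := by
    intro h3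
    have h4 : (Set.univ : Set L) ⊆ ({0, 1, s, s ^ 2} : Finset L) := by
      intro x _
      by_cases hx : x = 0
      · simp [hx]
      · obtain ⟨j, hj⟩ := hgen 1 x one_ne_zero hx
        rw [mul_one, ← Nat.div_add_mod j 3, pow_add, pow_mul, h3, one_pow, one_mul] at hj
        have h5 : j % 3 < 3 := Nat.mod_lt _ (by norm_num)
        have h6 : j % 3 = 0 ∨ j % 3 = 1 ∨ j % 3 = 2 := by omega
        rcases h6 with h6 | h6 | h6 <;> rw [h6] at hj <;> simp [← hj]
    have h5 := Set.ncard_le_ncard h4 (Finset.finite_toSet _)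
    rw [Set.ncard_univ, Set.ncard_coe_finset, hcL] at h5
    have h6 : ({0, 1, s, s ^ 2} : Finset L).card ≤ 4 := Finset.card_le_four
    omega
  -- the set
  set S : Set (L × F) := {v | ∃ k ∈ K, ∃ r : F, r ≠ 0 ∧ v = r • k (0, 1)} with hSdef
  have hS2 : ∀ v ∈ S, v.2 ≠ 0 := by
    rintro _ ⟨k, hk, r, hr, rfl⟩
    rw [Prod.smul_snd, smul_eq_mul]
    exact mul_ne_zero hr (hcon k hk)
  have hS0 : ∀ v ∈ S, v ≠ 0 := by
    rintro v hv rfl
    exact hS2 _ hv rfl
  have hSK : ∀ g ∈ K, ∀ v ∈ S, g v ∈ S := by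
    rintro g hg _ ⟨k, hk, r, hr, rfl⟩
    refine ⟨g * k, K.mul_mem hg hk, r, hr, ?_⟩
    rw [map_smul, LinearEquiv.mul_apply]
  have hSr : ∀ (a : F), a ≠ 0 → ∀ v ∈ S, a • v ∈ S := by
    rintro a ha _ ⟨k, hk, r, hr, rfl⟩
    exact ⟨k, hk, a * r, mul_ne_zero ha hr, by rw [smul_smul]⟩
  have heS : ((0 : L), (1 : F)) ∈ S := ⟨1, K.one_mem, 1, one_ne_zero, by simp⟩
  -- the bound
  have hb : Nat.card S ≤ 48 := by
    have h1 : Function.Injective (fun v : S => (v.1.1, Units.mk0 v.1.2 (hS2 v.1 v.2))) := by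
      rintro ⟨v, hv⟩ ⟨w, hw⟩ h
      have h2 := congrArg Prod.fst h
      have h3 := congrArg (fun p : L × Fˣ => (p.2 : F)) h
      exact Subtype.ext (Prod.ext h2 h3)
    have h2 := Nat.card_le_card_of_injective _ h1
    rw [Nat.card_prod, hcL, hcU] at h2
    exact h2
  -- modulo 7
  have hm7 : Nat.card S ≡ 0 [MOD 7] := by
    have hfin : Finite ((L × F) ≃ₗ[F] (L × F)) :=
      Finite.of_injective (fun e : (L × F) ≃ₗ[F] (L × F) => (e : L × F → L × F))
        DFunLike.coe_injective
    have hN : orderOf c ≠ 0 := (orderOf_pos c).ne'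
    obtain ⟨a, b, hb7, hab⟩ := Nat.exists_eq_pow_mul_and_not_dvd hN 7 (by norm_num)
    have h1 := k034_mod S (fun v => (c ^ b) v) (hSK _ (K.pow_mem hcK b)) 7 a (by norm_num) (by
      intro v _
      have h2 : ∀ j, (fun v => (c ^ b) v)^[j] v = ((c ^ b) ^ j) v := by
        intro j
        induction j with
        | zero => rfl
        | succ j ih =>
          rw [Function.iterate_succ_apply', ih, pow_succ', LinearEquiv.mul_apply]
      rw [h2, ← pow_mul, mul_comm, ← hab, pow_orderOf_eq_one]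
      rfl)
    have h3 : Nat.card {v : S | (fun v => (c ^ b) v) v.1 = v.1} = 0 := by
      rw [Nat.card_eq_zero]
      left
      refine ⟨?_⟩
      rintro ⟨⟨v, hv⟩, h4⟩
      have h5 : (c ^ b) v = v := h4
      exact hb7 (hc b 1 v (hS0 v hv) (by rw [h5, one_smul]))
    rw [h3] at h1
    exact h1
  -- modulo 3
  have hm3 : Nat.card S ≡ 0 [MOD 3] := by
    obtain ⟨a, ha0, ha1⟩ : ∃ a : F, a ≠ 0 ∧ a ≠ 1 := by
      by_contra h
      push Not at h
      have h3 : (Set.univ : Set F) ⊆ ({0, 1} : Finset F) := by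
        intro x _
        by_cases hx : x = 0
        · simp [hx]
        · simp [h x hx]
      have h4 := Set.ncard_le_ncard h3 (Finset.finite_toSet _)
      rw [Set.ncard_univ, Set.ncard_coe_finset, hF] at h4
      have h5 : ({0, 1} : Finset F).card ≤ 2 := Finset.card_le_two
      omega
    have h1 := k034_mod S (fun v => a • v) (hSr a ha0) 3 1 (by norm_num) (by
      intro v _
      show a • (a • (a • v)) = v
      rw [smul_smul, smul_smul]
      have : a * a * a = 1 := by
        have := hr3 a ha0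
        linear_combination this
      rw [this, one_smul])
    have h3 : Nat.card {v : S | (fun v => a • v) v.1 = v.1} = 0 := by
      rw [Nat.card_eq_zero]
      left
      refine ⟨?_⟩
      rintro ⟨⟨v, hv⟩, h4⟩
      have h5 : a • v = v := h4
      have h6 : a * v.2 = v.2 := by
        have := congrArg Prod.snd h5
        exact this
      have h7 : (a - 1) * v.2 = 0 := by linear_combination h6
      rcases mul_eq_zero.1 h7 with h8 | h8
      · exact ha1 (sub_eq_zero.1 h8)
      · exact hS2 v hv h8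
    rw [h3] at h1
    exact h1
  -- modulo 5
  have hm5 : Nat.card S ≡ 3 [MOD 5] := by
    have hμ3 : (μ⁻¹) ^ 3 = 1 := hr3 _ (inv_ne_zero hμ)
    have htp : ∀ (j : ℕ) (v : L × F), (t ^ j) v = (s ^ j * v.1, (μ⁻¹) ^ j * v.2) := by
      intro j
      induction j with
      | zero => intro v; simp
      | succ j ih =>
        intro v
        rw [pow_succ', LinearEquiv.mul_apply, ih, ht, pow_succ', pow_succ', mul_assoc, mul_assoc]
    have h1 := k034_mod S (fun v => (t ^ 3) v) (hSK _ (K.pow_mem htK 3)) 5 1 (by norm_num) (by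
      intro v _
      have h2 : ∀ j, (fun v => (t ^ 3) v)^[j] v = ((t ^ 3) ^ j) v := by
        intro j
        induction j with
        | zero => rfl
        | succ j ih =>
          rw [Function.iterate_succ_apply', ih, pow_succ' (t ^ 3) j, LinearEquiv.mul_apply]
      rw [h2, ← pow_mul, htp]
      have h3 : (μ⁻¹) ^ (3 * 5 ^ 1) = 1 := by rw [pow_mul, hμ3, one_pow]
      have h4 : s ^ (3 * 5 ^ 1) = 1 := by norm_num [hs15]
      rw [h3, h4, one_mul, one_mul])
    have hmem : ∀ u : Fˣ, ((0 : L), (u : F)) ∈ S := by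
      intro u
      have := hSr (u : F) u.ne_zero _ heS
      simpa using this
    have hfix : ∀ u : Fˣ, (t ^ 3) ((0 : L), (u : F)) = ((0 : L), (u : F)) := by
      intro u
      rw [htp, hμ3, mul_zero, one_mul]
    have h3 : Nat.card Fˣ = Nat.card {v : S | (fun v => (t ^ 3) v) v.1 = v.1} := by
      refine Nat.card_eq_of_bijective (fun u : Fˣ => (⟨⟨((0 : L), (u : F)), hmem u⟩, hfix u⟩ :
        {v : S | (fun v => (t ^ 3) v) v.1 = v.1})) ⟨?_, ?_⟩
      · intro u u' h
        have h4 : (((0 : L), (u : F)) : L × F) = ((0 : L), (u' : F)) :=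
          congrArg (fun x : {v : S | (fun v => (t ^ 3) v) v.1 = v.1} => x.1.1) h
        exact Units.ext (congrArg Prod.snd h4)
      · rintro ⟨⟨v, hv⟩, h4⟩
        have h5 : (t ^ 3) v = v := h4
        rw [htp] at h5
        have h6 : s ^ 3 * v.1 = v.1 := congrArg Prod.fst h5
        have h7 : v.1 = 0 := by
          have h8 : (s ^ 3 - 1) * v.1 = 0 := by linear_combination h6
          exact (mul_eq_zero.1 h8).resolve_left (sub_ne_zero.2 hs3)
        refine ⟨Units.mk0 v.2 (hS2 v hv), ?_⟩
        apply Subtype.ext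
        apply Subtype.ext
        show ((0 : L), v.2) = v
        rw [← h7]
    rw [← h3, hcU] at h1
    exact h1
  unfold Nat.ModEq at hm3 hm5 hm7
  omega

end Pool.Agent.SLM
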