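import Pool.Agent.PSL3.Canon
import Pool.Agent.PSL3.FacRank
import Pool.Agent.PSL3.IrrC

/-!
# SLM / Prod34: every nonscalar element of `SL_3(4)` is a product of two elements of Singer type
(helper42)

`X ^ 3 + X + 1` has no root in the field with four elements; its roots have order seven.
-/

set_option autoImplicit false

namespace Pool.Agent.SLM

open Matrix Pool.Agent.PSL3

/-- Cayley and Hamilton in `SL_3` -/
private theorem ch34 {F : Type*} [Field F] (x : SL3 F) {s s' : F} (h : Ty s s' x) :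
    (x : M3 F) ^ 3 - s • (x : M3 F) ^ 2 + s' • (x : M3 F) - 1 = 0 := by
  obtain ⟨h1, h2⟩ := h
  have hd : (x : M3 F).det = 1 := x.2
  rw [Matrix.SpecialLinearGroup.coe_inv, Matrix.adjugate_fin_three, Matrix.trace_fin_three] at h2
  rw [Matrix.trace_fin_three] at h1
  rw [Matrix.det_fin_three] at hd
  subst h1
  subst h2
  generalize (x : M3 F) = M at *
  ext i j
  fin_cases i <;> fin_cases j <;>
    simp [pow_succ, Matrix.mul_apply, Fin.sum_univ_three] <;>
    first
      | linear_combination hd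
      | ring

private theorem two34 {F : Type*} [Field F] [Finite F] (hF : Nat.card F = 4) : (2 : F) = 0 := by
  have : Fintype F := Fintype.ofFinite F
  have h4 : ((Fintype.card F : ℕ) : F) = 0 := Nat.cast_card_eq_zero F
  rw [← Nat.card_eq_fintype_card, hF] at h4
  have h5 : (2 : F) * 2 = 0 := by
    push_cast at h4
    linear_combination h4
  exact (mul_self_eq_zero.1 h5)

private theorem cube34 {F : Type*} [Field F] [Finite F] (hF : Nat.card F = 4) (r : F)
    (hr : r ≠ 0) : r ^ 3 = 1 := by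
  have : Fintype F := Fintype.ofFinite F
  have h := FiniteField.pow_card_sub_one_eq_one r hr
  rwa [← Nat.card_eq_fintype_card, hF] at h

/-- elements with characteristic polynomial `X ^ 3 + X + 1` -/
private theorem pc34 {F : Type*} [Field F] [Finite F] (hF : Nat.card F = 4) (x : SL3 F)
    (hx : Ty 0 1 x) : Pc x := by
  have h2 := two34 hF
  have h3 : (x : M3 F) ^ 3 = (x : M3 F) + 1 := by
    have h := ch34 x hx
    have h22 : (x : M3 F) + (x : M3 F) = 0 := by
      rw [← two_smul F, h2, zero_smul]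
    have h23 : (1 : M3 F) + 1 = 0 := by
      rw [← two_smul F, h2, zero_smul]
    rw [zero_smul, one_smul, sub_zero] at h
    have e : (x : M3 F) ^ 3 = ((x : M3 F) ^ 3 + (x : M3 F) - 1) + ((x : M3 F) + 1)
        - ((x : M3 F) + (x : M3 F)) := by abel
    rw [e, h, h22]
    abel
  have h7 : (x : M3 F) ^ 7 = 1 := by
    have h23 : (1 : M3 F) + 1 = 0 := by
      rw [← two_smul F, h2, zero_smul]
    have h22 : (x : M3 F) + (x : M3 F) = 0 := by
      rw [← two_smul F, h2, zero_smul]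
    have e : (x : M3 F) ^ 7 = ((x : M3 F) ^ 3) ^ 2 * (x : M3 F) := by
      rw [← pow_mul, ← pow_succ]
    rw [e, h3]
    have e2 : ((x : M3 F) + 1) ^ 2 * (x : M3 F) =
        (x : M3 F) ^ 3 + ((x : M3 F) + (x : M3 F)) * (x : M3 F) + (x : M3 F) := by
      noncomm_ring
    rw [e2, h3, h22, zero_mul, add_zero]
    have e3 : (x : M3 F) + 1 + (x : M3 F) = ((x : M3 F) + (x : M3 F)) + 1 := by abel
    rw [e3, h22, zero_add]
  intro k t w hw hk
  have hkey : 7 ∣ k := by
    by_contra hnd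
    have hco : Nat.Coprime k 7 := by
      rw [Nat.coprime_comm]
      exact (Nat.Prime.coprime_iff_not_dvd (by norm_num)).2 hnd
    obtain ⟨a, ha⟩ := Nat.exists_mul_mod_eq_one_of_coprime hco (by norm_num)
    have hpow : ∀ a : ℕ, ((x : M3 F) ^ (k * a)) *ᵥ w = t ^ a • w := by
      intro a
      induction a with
      | zero => simp
      | succ a ih =>
        rw [Nat.mul_succ, pow_add, ← Matrix.mulVec_mulVec, hk, Matrix.mulVec_smul, ih, smul_smul,
          pow_succ, mul_comm]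
    have h8 : (x : M3 F) ^ (k * a) = (x : M3 F) := by
      have e : k * a = 7 * (k * a / 7) + 1 := by
        have := Nat.div_add_mod (k * a) 7
        omega
      rw [e, pow_succ, pow_mul, h7, one_pow, one_mul]
    have h9 : (x : M3 F) *ᵥ w = t ^ a • w := by
      rw [← hpow a, h8]
    set r := t ^ a with hr
    have h10 : ((x : M3 F) ^ 3) *ᵥ w = r ^ 3 • w := by
      have e : (x : M3 F) ^ 3 = (x : M3 F) * ((x : M3 F) * (x : M3 F)) := by
        rw [pow_succ, pow_two, mul_assoc]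
      rw [e, ← Matrix.mulVec_mulVec, ← Matrix.mulVec_mulVec, h9, Matrix.mulVec_smul, h9,
        Matrix.mulVec_smul, Matrix.mulVec_smul, h9, smul_smul, smul_smul]
      congr 1
      ring
    rw [h3, Matrix.add_mulVec, h9, Matrix.one_mulVec] at h10
    have h11 : (r + 1 - r ^ 3) • w = 0 := by
      rw [sub_smul, add_smul, one_smul, h10, sub_self]
    have h12 : r + 1 - r ^ 3 = 0 := (smul_eq_zero.1 h11).resolve_right hw
    by_cases hr0 : r = 0
    · rw [hr0] at h12
      simp at h12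
    · rw [cube34 hF r hr0] at h12
      apply hr0
      linear_combination h12
  rw [hF]
  obtain ⟨j, rfl⟩ := hkey
  exact ⟨j, by ring⟩

private theorem build34 {F : Type*} [Field F] {s s' t t' p x l y z τ u w b12 b13 b23 D v : F}
    (hpz : p * z = -1) (hv : v = s - τ - u) (h12 : b12 = t' - p - l * u - y * w - z * v)
    (hD : D = s' - τ * (s - τ) + b12) (h23 : b23 * w = u * v - D)
    (h13 : b13 * w = b12 * v - τ * D + 1)
    (ht : t = l * z * D + z * (τ * D - 1) - v + w * (p * y - x * l) - x * τ * w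
      - p * (τ * u - b12)) :
    ∃ B : M3 F, B.det = 1 ∧ B.trace = s ∧ B.adjugate.trace = s' ∧
      ((!![0, p, x; 1, l, y; 0, 0, z] : M3 F) * B).trace = t' ∧
      (B.adjugate * (!![0, p, x; 1, l, y; 0, 0, z] : M3 F).adjugate).trace = t := by
  refine ⟨!![τ, b12, b13; 1, u, b23; 0, w, v], ?_, ?_, ?_, ?_, ?_⟩
  · rw [Matrix.det_fin_three]
    simp
    linear_combination (-τ) * h23 + h13
  · rw [Matrix.trace_fin_three]
    simp
    linear_combination hv
  · rw [Matrix.trace_fin_three, Matrix.adjugate_fin_three]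
    simp
    linear_combination (-1 : F) * h23 + τ * hv + hD
  · rw [Matrix.trace_fin_three]
    simp [Matrix.mul_apply, Fin.sum_univ_three]
    linear_combination h12
  · rw [Matrix.trace_fin_three, Matrix.adjugate_fin_three, Matrix.adjugate_fin_three]
    simp [Matrix.mul_apply, Fin.sum_univ_three]
    linear_combination (-(l * z)) * h23 - z * h13 + v * hpz - ht

/-- a good value of `τ` when the plane block has the eigenvalue `z` -/
private theorem tau34 {F : Type*} [Field F] [Finite F] (hF : Nat.card F = 4) {z l p : F}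
    (hpz : p * z = -1) (h1 : z ^ 2 - l * z - p = 0) :
    ∃ τ : F, τ + l ≠ 0 ∧ z * τ ^ 3 + (z * (z - 0 + l)) * τ ^ 2
      + (z * (1 + 1 - p - z * 0 + l * (z - 0))) * τ
      + (z * l * (1 + 1 - p - z * 0) - z - 0 + p * (1 - p - z * 0) - 0) ≠ 0 := by
  have h2 := two34 hF
  have hz : z ≠ 0 := by
    rintro rfl
    simp at hpz
  have hz3 := cube34 hF z hz
  have hp : p = z ^ 2 := by
    have h3 : (p - z ^ 2) * z = 0 := by
      linear_combination hpz - hz3 - h2
    have h4 := (mul_eq_zero.1 h3).resolve_right hz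
    linear_combination h4
  have hl : l = 0 := by
    have h3 : l * z = 0 := by
      rw [hp] at h1
      linear_combination -h1
    exact (mul_eq_zero.1 h3).resolve_right hz
  subst hp
  subst hl
  by_cases hz1 : z = 1
  · subst hz1
    -- an element different from 0 and 1
    obtain ⟨τ, hτ0, hτ1⟩ : ∃ τ : F, τ ≠ 0 ∧ τ ≠ 1 := by
      classical
      have : Fintype F := Fintype.ofFinite F
      by_contra hcon
      push Not at hcon
      have h5 : (Finset.univ : Finset F) ⊆ {0, 1} := by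
        intro a _
        by_cases ha : a = 0
        · simp [ha]
        · simp [hcon a ha]
      have h6 := Finset.card_le_card h5
      have h7 : ({0, 1} : Finset F).card ≤ 2 := Finset.card_le_two
      rw [Finset.card_univ, ← Nat.card_eq_fintype_card, hF] at h6
      omega
    have hτ3 := cube34 hF τ hτ0
    refine ⟨τ, by rwa [add_zero], ?_⟩
    intro h5
    -- `τ ^ 2 + τ = 0`
    have h6 : τ * (τ - 1) = 0 := by
      linear_combination h5 - hτ3 - τ * h2
    rcases mul_eq_zero.1 h6 with h | h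
    · exact hτ0 h
    · exact hτ1 (sub_eq_zero.1 h)
  · refine ⟨1, by rw [add_zero]; exact one_ne_zero, ?_⟩
    intro h5
    apply hz1
    linear_combination (-1 : F) * h5 + (z + z ^ 2 - 1) * h2 - (1 + z) * hz3

/-- explicit factorisation, invariant plane case, over the field with four elements -/
private theorem fac_two34 {F : Type*} [Field F] [Finite F] (hF : Nat.card F = 4)
    {p x l y z : F} (hpz : p * z = -1) (h : z ^ 2 - l * z - p ≠ 0 ∨ x + y * z ≠ 0) :
    ∃ B : M3 F, B.det = 1 ∧ B.trace = 0 ∧ B.adjugate.trace = 1 ∧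
      ((!![0, p, x; 1, l, y; 0, 0, z] : M3 F) * B).trace = 1 ∧
      (B.adjugate * (!![0, p, x; 1, l, y; 0, 0, z] : M3 F).adjugate).trace = 0 := by
  have hz : z ≠ 0 := by
    rintro rfl
    simp at hpz
  by_cases h1 : z ^ 2 - l * z - p = 0
  · have h2 : x + y * z ≠ 0 := h.resolve_left (fun h3 => h3 h1)
    obtain ⟨τ, hτ, hc⟩ := tau34 hF hpz h1
    set c := z * τ ^ 3 + (z * (z - 0 + l)) * τ ^ 2
      + (z * (1 + 1 - p - z * 0 + l * (z - 0))) * τ
      + (z * l * (1 + 1 - p - z * 0) - z - 0 + p * (1 - p - z * 0) - 0) with hcdef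
    have hcw : (τ + l) * (x + y * z) ≠ 0 := mul_ne_zero hτ h2
    have hw : c / ((τ + l) * (x + y * z)) ≠ 0 := div_ne_zero hc hcw
    set w := c / ((τ + l) * (x + y * z)) with hwdef
    have hcw2 : w * ((τ + l) * (x + y * z)) = c := div_mul_cancel₀ _ hcw
    refine build34 (τ := τ) (u := 0) (w := w) (v := 0 - τ - 0)
      (b12 := 1 - p - l * 0 - y * w - z * (0 - τ - 0))
      (D := 1 - τ * (0 - τ) + (1 - p - l * 0 - y * w - z * (0 - τ - 0)))
      (b23 := (0 * (0 - τ - 0) - (1 - τ * (0 - τ) +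
        (1 - p - l * 0 - y * w - z * (0 - τ - 0)))) / w)
      (b13 := ((1 - p - l * 0 - y * w - z * (0 - τ - 0)) * (0 - τ - 0) - τ * (1 - τ * (0 - τ) +
        (1 - p - l * 0 - y * w - z * (0 - τ - 0))) + 1) / w)
      hpz rfl rfl rfl (div_mul_cancel₀ _ hw) (div_mul_cancel₀ _ hw) ?_
    rw [hcdef] at hcw2
    linear_combination hcw2 - τ * hpz
  · obtain ⟨u, hu⟩ : ∃ u : F, u * (z ^ 2 - l * z - p) =
        -(z * (1 - l) ^ 3 + (z * (z - 0 + l)) * (1 - l) ^ 2
      + (z * (1 + 1 - p - z * 0 + l * (z - 0))) * (1 - l)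
      + (z * l * (1 + 1 - p - z * 0) - z - 0 + p * (1 - p - z * 0) - 0)) + (x + y * z) :=
      ⟨_ / (z ^ 2 - l * z - p), div_mul_cancel₀ _ h1⟩
    refine build34 (τ := 1 - l) (u := u) (w := 1) (v := 0 - (1 - l) - u)
      (b12 := 1 - p - l * u - y * 1 - z * (0 - (1 - l) - u))
      (D := 1 - (1 - l) * (0 - (1 - l)) + (1 - p - l * u - y * 1 - z * (0 - (1 - l) - u)))
      (b23 := (u * (0 - (1 - l) - u) - (1 - (1 - l) * (0 - (1 - l)) +
        (1 - p - l * u - y * 1 - z * (0 - (1 - l) - u)))) / 1)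
      (b13 := ((1 - p - l * u - y * 1 - z * (0 - (1 - l) - u)) * (0 - (1 - l) - u)
        - (1 - l) * (1 - (1 - l) * (0 - (1 - l)) +
        (1 - p - l * u - y * 1 - z * (0 - (1 - l) - u))) + 1) / 1)
      hpz rfl rfl rfl (div_mul_cancel₀ _ one_ne_zero) (div_mul_cancel₀ _ one_ne_zero) ?_
    linear_combination (-1 : F) * hu - (1 - l + u) * hpz

/-- conjugation by an invertible matrix -/
private theorem conj34 {F : Type*} [Field F] (P Z : M3 F) (hP : P.det ≠ 0) :
    (P * Z * P⁻¹).trace = Z.trace ∧ (P * Z * P⁻¹).adjugate.trace = Z.adjugate.trace ∧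
      (P * Z * P⁻¹).det = Z.det := by
  have hu : IsUnit P.det := isUnit_iff_ne_zero.2 hP
  have h1 : P⁻¹ * P = 1 := Matrix.nonsing_inv_mul P hu
  have h2 : P * P⁻¹ = 1 := Matrix.mul_nonsing_inv P hu
  refine ⟨?_, ?_, ?_⟩
  · rw [Matrix.trace_mul_comm, ← mul_assoc, h1, one_mul]
  · rw [Matrix.adjugate_mul_distrib, Matrix.adjugate_mul_distrib, Matrix.trace_mul_comm,
      mul_assoc, ← Matrix.adjugate_mul_distrib, h1, Matrix.adjugate_one, mul_one]
  · rw [Matrix.det_mul, Matrix.det_mul, mul_comm, ← mul_assoc, ← Matrix.det_mul, h1,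
      Matrix.det_one, one_mul]

private theorem fin34 {F : Type*} [Field F] (M : SL3 F) (P N B0 : M3 F) (hP : P.det ≠ 0)
    (hMP : (M : M3 F) * P = P * N) {s s' t t' : F} (hB : B0.det = 1) (h1 : B0.trace = s)
    (h2 : B0.adjugate.trace = s') (h3 : (N * B0).trace = t')
    (h4 : (B0.adjugate * N.adjugate).trace = t) :
    ∃ x y : SL3 F, Ty s s' x ∧ Ty t t' y ∧ x * y = M⁻¹ := by
  have hu : IsUnit P.det := isUnit_iff_ne_zero.2 hP
  obtain ⟨a1, a2, a3⟩ := conj34 P B0 hP
  obtain ⟨b1, b2, -⟩ := conj34 P (N * B0) hP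
  let x : SL3 F := ⟨P * B0 * P⁻¹, by rw [a3, hB]⟩
  have hxM : (M : M3 F) * (P * B0 * P⁻¹) = P * (N * B0) * P⁻¹ := by
    rw [← mul_assoc, ← mul_assoc, hMP]
    simp only [mul_assoc]
  refine ⟨x, x⁻¹ * M⁻¹, ⟨?_, ?_⟩, ⟨?_, ?_⟩, by group⟩
  · show (P * B0 * P⁻¹).trace = s
    rw [a1, h1]
  · rw [Matrix.SpecialLinearGroup.coe_inv]
    show (P * B0 * P⁻¹).adjugate.trace = s'
    rw [a2, h2]
  · have e : x⁻¹ * M⁻¹ = (M * x)⁻¹ := by group
    rw [e, Matrix.SpecialLinearGroup.coe_inv, Matrix.SpecialLinearGroup.coe_mul]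
    show ((M : M3 F) * (P * B0 * P⁻¹)).adjugate.trace = t
    rw [hxM, b2, Matrix.adjugate_mul_distrib, h4]
  · have e : (x⁻¹ * M⁻¹)⁻¹ = M * x := by group
    rw [e, Matrix.SpecialLinearGroup.coe_mul]
    show ((M : M3 F) * (P * B0 * P⁻¹)).trace = t'
    rw [hxM, b1, h3]

theorem prod34 {F : Type*} [Field F] [Finite F] (hF : Nat.card F = 4) (A : SL3 F)
    (hA : ¬ Sc A) : ∃ x y : SL3 F, Pc x ∧ Pc y ∧ x * y = A := by
  have hM : ¬ Sc (A⁻¹) := by
    rintro ⟨t, ht⟩
    apply hA
    have h1 : ((A⁻¹ : SL3 F) : M3 F) * (A : M3 F) = 1 := by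
      rw [← Matrix.SpecialLinearGroup.coe_mul, inv_mul_cancel, Matrix.SpecialLinearGroup.coe_one]
    rw [ht, smul_mul_assoc, one_mul] at h1
    have ht0 : t ≠ 0 := by
      rintro rfl
      rw [zero_smul] at h1
      exact zero_ne_one h1
    refine ⟨t⁻¹, ?_⟩
    rw [← h1, smul_smul, inv_mul_cancel₀ ht0, one_smul]
  rcases canon A⁻¹ hM with h | ⟨P, p, x, l, y, z, hP, hpz, hz, hMP⟩ | ⟨z, u, φ, hu, hφ, hMz⟩
  · refine irr_c A ?_
    intro t w hw
    by_contra hw0
    have ht0 : t ≠ 0 := by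
      rintro rfl
      rw [zero_smul] at hw
      apply hw0
      have h1 : ((A⁻¹ : SL3 F) : M3 F) *ᵥ ((A : M3 F) *ᵥ w) = w := by
        rw [Matrix.mulVec_mulVec, ← Matrix.SpecialLinearGroup.coe_mul, inv_mul_cancel,
          Matrix.SpecialLinearGroup.coe_one, Matrix.one_mulVec]
      rw [← h1, hw, Matrix.mulVec_zero]
    apply hw0
    apply h t⁻¹ w
    have h1 : ((A⁻¹ : SL3 F) : M3 F) *ᵥ ((A : M3 F) *ᵥ w) = w := by
      rw [Matrix.mulVec_mulVec, ← Matrix.SpecialLinearGroup.coe_mul, inv_mul_cancel,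
        Matrix.SpecialLinearGroup.coe_one, Matrix.one_mulVec]
    rw [hw, Matrix.mulVec_smul] at h1
    rw [← h1, smul_smul, inv_mul_cancel₀ ht0, one_smul, h1]
  · obtain ⟨B, h1, h2, h3, h4, h5⟩ := fac_two34 hF hpz hz
    obtain ⟨X, Y, hX, hY, hXY⟩ := fin34 A⁻¹ P _ B hP hMP h1 h2 h3 h4 h5
    exact ⟨X, Y, pc34 hF X hX, pc34 hF Y hY, by rw [hXY, inv_inv]⟩
  · have hdet : (z • (1 : M3 F) + vecMulVec u φ).det = 1 := by
      rw [← hMz]
      exact (A⁻¹).2
    obtain ⟨B, h1, h2, h3, h4, h5⟩ := fac_rank (0 : F) 1 0 1 z u φ hu hφ hdet (by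
      rintro hz3 ⟨h1, -⟩
      rw [mul_zero] at h1
      exact one_ne_zero h1)
    obtain ⟨X, Y, hX, hY, hXY⟩ := fin34 A⁻¹ 1 _ B (by rw [Matrix.det_one]; exact one_ne_zero)
      (by rw [mul_one, one_mul, hMz]) h1 h2 h3 h4 h5
    exact ⟨X, Y, pc34 hF X hX, pc34 hF Y hY, by rw [hXY, inv_inv]⟩

end Pool.Agent.SLM
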