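import Pool.Agent.SLM.Fld2
import Pool.Agent.SLM.Geo3
import Pool.Agent.SLM.FacZ3
import Pool.Agent.SLM.TvQ
import Pool.Agent.SLM.K034
import Pool.Agent.SLM.Prod34

/-!
# SLM / Main34: `PSL_3(4)` (helper42)
-/

set_option autoImplicit false

namespace Pool.Agent.SLM

open Matrix Pool.Agent.SLN

private theorem pc_conj {F : Type} [Field F] (h x : SLn 3 F) (hx : PSL3.Pc x) :
    PSL3.Pc (h⁻¹ * x * h) := by
  intro k t w hw hk
  have h1 : ((h⁻¹ * x * h) ^ k).1 *ᵥ w = t • w := by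
    rw [Matrix.SpecialLinearGroup.coe_pow]
    exact hk
  rw [conj_pow', mulVec_conj] at h1
  refine hx k t (h.1 *ᵥ w) (ne_zero_mulVec h w hw) ?_
  have h2 : h.1 *ᵥ (h⁻¹.1 *ᵥ ((x ^ k).1 *ᵥ (h.1 *ᵥ w))) = h.1 *ᵥ (t • w) := by rw [h1]
  rw [mulVec_mul_inv, Matrix.mulVec_smul, Matrix.SpecialLinearGroup.coe_pow] at h2
  exact h2

private theorem pc_unconj {F : Type} [Field F] (h x : SLn 3 F) (hx : PSL3.Pc x) (K : Subgroup (SLn 3 F))
    (hK : ∀ c ∈ K, ¬ PSL3.Pc c) : ¬ (h⁻¹ * x * h) ∈ K :=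
  fun hmem => hK _ hmem (pc_conj h x hx)

theorem main34 {F : Type} [Field F] [Finite F] (hF : Nat.card F = 4)
    (K : Subgroup (SLn 3 F)) (hK : K ≠ ⊤) (g : SLn 3 F)
    (hg : ¬ Sc g) : ∃ x y, Dr K x ∧ Dr K y ∧ x * y = g := by
  obtain ⟨L, _, _, _, s, hfin, hs0, hadj, hgen, -, -, -, -, hE⟩ := fld2 F 2 (by omega)
  have hE' := hE le_rfl
  have hμ : Algebra.norm F s ≠ 0 := by
    have : FiniteDimensional F L := Module.Finite.of_finite
    exact Algebra.norm_ne_zero_iff.2 hs0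
  set μ := Algebra.norm F s with hμd
  by_cases hT : ∃ t ∈ K, IsT s t
  · by_cases hc : ∃ c ∈ K, PSL3.Pc c
    · -- `K` contains both types
      obtain ⟨t, htK, Ψ, hΨ⟩ := hT
      obtain ⟨c, hcK, hPc⟩ := hc
      set K' : Subgroup ((L × F) ≃ₗ[F] (L × F)) := K.map (tr Ψ) with hK'
      have htK' : tr Ψ t ∈ K' := Subgroup.mem_map_of_mem _ htK
      have ht : ∀ v, tr Ψ t v = (s * v.1, μ⁻¹ * v.2) := by
        intro v
        obtain ⟨v, rfl⟩ := Ψ.surjective v
        rw [tr_apply, hΨ]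
      have hc7 : ∀ (k : ℕ) (r : F) (v : L × F), v ≠ 0 → ((tr Ψ c) ^ k) v = r • v → 7 ∣ k := by
        intro k r v hv hk
        obtain ⟨w, rfl⟩ := Ψ.surjective v
        have hw : w ≠ 0 := by
          rintro rfl
          exact hv (map_zero Ψ)
        rw [← map_pow, tr_apply, ← map_smul] at hk
        have h1 := Ψ.injective hk
        rw [Matrix.SpecialLinearGroup.coe_pow] at h1
        have h2 := hPc k r w hw h1
        rw [hF] at h2
        omega
      obtain ⟨k₀, hk₀, hk₀e⟩ := k034 hF hfin μ hμ s hgen K' (tr Ψ t) (tr Ψ c) htK' ht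
        (Subgroup.mem_map_of_mem _ hcK) hc7
      have hirr : ∀ U : Submodule F (L × F), (∀ k ∈ K', ∀ v ∈ U, k v ∈ U) → U = ⊥ ∨ U = ⊤ := by
        intro U hU
        have hUt : ∀ v ∈ U, ((s * v.1, μ⁻¹ * v.2) : L × F) ∈ U := by
          intro v hv
          rw [← ht]
          exact hU _ htK' v hv
        rcases inv_sub (by omega) μ s hgen U hUt with h | h | h | h
        · exact Or.inl h
        · exact Or.inr h
        · exfalso
          have h1 : tr Ψ c (0, 1) ∈ U := hU _ (Subgroup.mem_map_of_mem _ hcK) _ ((h _).2 rfl)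
          have h2 := (h _).1 h1
          have h3 := hc7 1 (tr Ψ c (0, 1)).2 (0, 1) (by
            intro h0
            exact one_ne_zero (congrArg Prod.snd h0)) (by
            rw [pow_one]
            ext
            · simp [h2]
            · simp)
          omega
        · exfalso
          have h1 : k₀⁻¹ (k₀ (0, 1)) ∈ U := hU _ (K'.inv_mem hk₀) _ ((h _).2 hk₀e)
          have h2 : k₀⁻¹ (k₀ ((0 : L), (1 : F))) = (0, 1) := k₀.symm_apply_apply _
          rw [h2] at h1
          exact one_ne_zero ((h _).1 h1)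
      have hno : ∀ x ∈ K, ¬ HasTv x := by
        intro x hxK hx
        apply hK
        apply PSL3.genN
        intro φ u hφu
        obtain ⟨φ₀, u₀, a1, a2, a3, a4⟩ := tv_of_hasTv K' Ψ x hx (Subgroup.mem_map_of_mem _ hxK)
        have hall := geo3k (by omega) μ hμ s hgen hE' K' (tr Ψ t) htK' ht hirr k₀ hk₀ hk₀e
          φ₀ u₀ a1 a2 a3 a4
        let f : (Fin 3 → F) →ₗ[F] F := dpl φ
        have hf : ∀ v, f v = φ ⬝ᵥ v := fun v => rfl
        obtain ⟨g', hg', h3⟩ := hall (f ∘ₗ (Ψ.symm : (L × F) →ₗ[F] (Fin 3 → F))) (Ψ u) (by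
          simp only [LinearMap.comp_apply, LinearEquiv.coe_coe, LinearEquiv.symm_apply_apply]
          exact hφu)
        obtain ⟨k, hk, rfl⟩ := Subgroup.mem_map.1 hg'
        refine ⟨k, hk, ?_⟩
        apply Matrix.ext_of_mulVec_single
        intro i
        have h4 := h3 (Ψ (Pi.single i 1))
        rw [tr_apply] at h4
        simp only [LinearMap.comp_apply, LinearEquiv.coe_coe, LinearEquiv.symm_apply_apply] at h4
        rw [← map_smul, ← map_add] at h4
        have h5 := Ψ.injective h4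
        rw [h5, hf, Matrix.add_mulVec, Matrix.one_mulVec, Matrix.vecMulVec_mulVec]
        congr 1
        ext j
        simp [mul_comm]
      obtain ⟨x, y, hx, hy, hxy⟩ := facZ3 g hg
      exact ⟨x, y, fun h hm => hno _ hm (HasTv.conj h x hx),
        fun h hm => hno _ hm (HasTv.conj h y hy), hxy⟩
    · push Not at hc
      obtain ⟨x, y, hx, hy, hxy⟩ := prod34 hF g hg
      exact ⟨x, y, fun h => pc_unconj h x hx K hc, fun h => pc_unconj h y hy K hc, hxy⟩
  · push Not at hT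
    obtain ⟨x, y, hx, hy, hxy⟩ := fac rfl (by omega) hfin s hadj g hg
    refine ⟨x, y, ?_, ?_, hxy⟩
    · intro h hmem
      refine hT _ hmem (IsT.conj h⁻¹ ?_)
      have : h⁻¹⁻¹ * (h⁻¹ * x * h) * h⁻¹ = x := by group
      rw [this]
      exact hx
    · intro h hmem
      refine hT _ hmem (IsT.conj h⁻¹ ?_)
      have : h⁻¹⁻¹ * (h⁻¹ * y * h) * h⁻¹ = y := by group
      rw [this]
      exact hy

end Pool.Agent.SLM
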