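import Pool.Agent.SLM.Main
import Pool.Agent.SLM.Main3
import Pool.Agent.SLM.Main34

/-! All `n ≥ 3` and all `q`: for every proper subgroup `K` of `SL_n(q)`, every nonscalar element
is a product of two elements without conjugates in `K`. -/

set_option autoImplicit false

namespace Pool.Agent.SLM

open Matrix Pool.Agent.SLN

theorem mainAll {n : ℕ} (hn : 3 ≤ n) {F : Type} [Field F] [Finite F] (K : Subgroup (SLn n F))
    (hK : K ≠ ⊤) (g : SLn n F) (hg : ¬ Sc g) : ∃ x y, Dr K x ∧ Dr K y ∧ x * y = g := by
  rcases Nat.lt_or_ge n 4 with h | h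
  · have h3 : n = 3 := by omega
    subst h3
    by_cases h4 : Nat.card F = 4
    · exact main34 h4 K hK g hg
    · exact main3 h4 K hK g hg
  · exact main h K hK g hg

end Pool.Agent.SLM
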