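import Pool.Agent.SLN.Defs

/-! Elements of `SL_n(F)` with a power which is a transvection (helper44). -/

set_option autoImplicit false

namespace Pool.Agent.SLM

open Matrix Pool.Agent.SLN

/-- some power of `x` is a transvection (different from 1) -/
def HasTv {n : ℕ} {F : Type*} [Field F] (x : SLn n F) : Prop :=
  ∃ (k : ℕ) (φ u : Fin n → F), φ ≠ 0 ∧ u ≠ 0 ∧ φ ⬝ᵥ u = 0 ∧
    ∀ v, (x ^ k).1 *ᵥ v = v + (φ ⬝ᵥ v) • u

end Pool.Agent.SLM
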