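import Pool.Agent.SLM.Defs

/-! Unipotent elements with Jordan type (3,1,...,1) (helper44). -/

set_option autoImplicit false

namespace Pool.Agent.SLM

open Matrix Pool.Agent.SLN

/-- `x` is unipotent with Jordan type (3,1,...,1): `x v = v + p₂(v) e₁ + p₃(v) e₂` -/
def IsJ {n : ℕ} {F : Type*} [Field F] (x : SLn n F) : Prop :=
  ∃ (p₂ p₃ e₁ e₂ : Fin n → F), e₁ ≠ 0 ∧ p₃ ≠ 0 ∧ p₂ ⬝ᵥ e₁ = 0 ∧ p₃ ⬝ᵥ e₁ = 0 ∧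
    p₃ ⬝ᵥ e₂ = 0 ∧ p₂ ⬝ᵥ e₂ ≠ 0 ∧
    ∀ v, x.1 *ᵥ v = v + (p₂ ⬝ᵥ v) • e₁ + (p₃ ⬝ᵥ v) • e₂

end Pool.Agent.SLM
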