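import Pool.Agent.SLM.DefsJ
import Pool.Agent.SLM.GFac2

/-! # SLM / FacJ: factorisation in `SL_4(3)` with one Jordan block of size 3

`gfac2` with `E = F × F × F`, `Θ(a, b, c) = (a + b, b + c, c)`: both factors act on a hyperplane as
one Jordan block of size 3 and by 1 on the quotient. Such an element is either a Jordan block of
size 4, and then its cube is a transvection, or it has Jordan type (3,1). -/

set_option autoImplicit false

namespace Pool.Agent.SLM

open Matrix Pool.Agent.SLN Module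

/-- the Jordan block of size 3 -/
private def fjT (F : Type*) [Field F] : (F × F × F) ≃ₗ[F] (F × F × F) where
  toFun e := (e.1 + e.2.1, e.2.1 + e.2.2, e.2.2)
  invFun e := (e.1 - (e.2.1 - e.2.2), e.2.1 - e.2.2, e.2.2)
  map_add' e f := by
    refine Prod.ext ?_ (Prod.ext ?_ ?_) <;> simp only [Prod.fst_add, Prod.snd_add] <;> ring
  map_smul' r e := by
    refine Prod.ext ?_ (Prod.ext ?_ ?_) <;>
      simp only [Prod.smul_fst, Prod.smul_snd, smul_eq_mul, RingHom.id_apply] <;> ring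
  left_inv e := by
    refine Prod.ext ?_ (Prod.ext ?_ ?_) <;> simp
  right_inv e := by
    refine Prod.ext ?_ (Prod.ext ?_ ?_) <;> simp

private theorem fjT_apply {F : Type*} [Field F] (a b c : F) :
    fjT F (a, b, c) = (a + b, b + c, c) := rfl

private theorem fjT_det {F : Type*} [Field F] (h3 : (3 : F) = 0) :
    LinearMap.det (fjT F : (F × F × F) →ₗ[F] (F × F × F)) = 1 := by
  set T : (F × F × F) →ₗ[F] (F × F × F) := (fjT F : (F × F × F) →ₗ[F] (F × F × F)) with hT
  have hTa : ∀ a b c : F, T (a, b, c) = (a + b, b + c, c) := fun a b c => rfl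
  have hT3 : T * (T * T) = 1 := by
    apply LinearMap.ext
    rintro ⟨a, b, c⟩
    rw [Module.End.mul_apply, Module.End.mul_apply, hTa, hTa, hTa, Module.End.one_apply]
    refine Prod.ext ?_ (Prod.ext ?_ rfl)
    · show a + b + (b + c) + (b + c + c) = a
      linear_combination (b + c) * h3
    · show b + c + c + c = b
      linear_combination c * h3
  have h4 : LinearMap.det T * (LinearMap.det T * LinearMap.det T) = 1 := by
    rw [← LinearMap.det.map_mul, ← LinearMap.det.map_mul, hT3, LinearMap.det.map_one]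
  have h5 : (LinearMap.det T - 1) ^ 3 = 0 := by
    linear_combination h4 + (LinearMap.det T - LinearMap.det T ^ 2) * h3
  exact sub_eq_zero.1 (pow_eq_zero_iff (by norm_num) |>.1 h5)

/-- the action of `y` modulo the hyperplane -/
private theorem fj_quot {F V : Type*} [Field F] (h3 : (3 : F) = 0)
    [AddCommGroup V] [Module F V] [FiniteDimensional F V] (hV : finrank F V = 4)
    (y : V ≃ₗ[F] V) (hdet : LinearMap.det (y : V →ₗ[F] V) = 1)
    (ι : (F × F × F) →ₗ[F] V) (hι : Function.Injective ι)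
    (hy : ∀ e, y (ι e) = ι (fjT F e)) :
    finrank F (V ⧸ LinearMap.range ι) = 1 ∧ ∀ x : V, y x - x ∈ LinearMap.range ι := by
  set W : Submodule F V := LinearMap.range ι with hWdef
  have hfW : finrank F W = 3 := by
    rw [hWdef, LinearMap.finrank_range_of_inj hι, finrank_prod, finrank_prod, finrank_self]
  have hfQ : finrank F (V ⧸ W) = 1 := by
    have := Submodule.finrank_quotient_add_finrank W
    omega
  refine ⟨hfQ, ?_⟩
  have he : W ≤ W.comap (y : V →ₗ[F] V) := by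
    rintro _ ⟨e, rfl⟩
    exact ⟨_, (hy e).symm⟩
  have hmul := LinearMap.det_eq_det_mul_det W (y : V →ₗ[F] V) he
  have hTW : LinearMap.det ((y : V →ₗ[F] V).restrict he) = 1 := by
    let ψ : (F × F × F) ≃ₗ[F] W := LinearEquiv.ofInjective ι hι
    have h4 : (ψ : (F × F × F) →ₗ[F] W) ∘ₗ (fjT F : (F × F × F) →ₗ[F] (F × F × F)) ∘ₗ
        (ψ.symm : W →ₗ[F] (F × F × F)) = (y : V →ₗ[F] V).restrict he := by
      apply LinearMap.ext
      intro w
      obtain ⟨e, rfl⟩ := ψ.surjective w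
      apply Subtype.ext
      have h5 : (((y : V →ₗ[F] V).restrict he (ψ e) : W) : V) = y (ι e) := rfl
      rw [h5, hy e]
      simp only [LinearMap.comp_apply, LinearEquiv.coe_coe, LinearEquiv.symm_apply_apply]
      rfl
    rw [← h4, LinearMap.det_conj, fjT_det h3]
  have hq1 : LinearMap.det (W.mapQ W (y : V →ₗ[F] V) he) = 1 := by
    rw [hdet, hTW, one_mul] at hmul
    exact hmul.symm
  obtain ⟨v, hv, hv'⟩ := finrank_eq_one_iff'.mp hfQ
  set q := W.mapQ W (y : V →ₗ[F] V) he with hqdef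
  obtain ⟨c, hc⟩ := hv' (q v)
  have hq : q = c • (LinearMap.id : (V ⧸ W) →ₗ[F] (V ⧸ W)) := by
    apply LinearMap.ext
    intro w
    obtain ⟨d, rfl⟩ := hv' w
    rw [map_smul, ← hc, LinearMap.smul_apply, LinearMap.id_apply, smul_comm]
  have hc1 : c = 1 := by
    rw [hq, LinearMap.det_smul, LinearMap.det_id, hfQ, pow_one, mul_one] at hq1
    exact hq1
  intro x
  rw [← Submodule.Quotient.mk_eq_zero, Submodule.Quotient.mk_sub]
  have h4 : (Submodule.Quotient.mk (y x) : V ⧸ W) = q (Submodule.Quotient.mk x) := rfl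
  rw [h4, hq, hc1]
  simp

/-- Jordan type (4) or (3,1) -/
private theorem fj_main {F V : Type*} [Field F] (h3 : (3 : F) = 0)
    [AddCommGroup V] [Module F V] [FiniteDimensional F V] (hV : finrank F V = 4)
    (y : V ≃ₗ[F] V) (hdet : LinearMap.det (y : V →ₗ[F] V) = 1)
    (ι : (F × F × F) →ₗ[F] V) (hι : Function.Injective ι)
    (hy : ∀ e, y (ι e) = ι (fjT F e)) :
    (∃ (φ : V →ₗ[F] F) (u : V), φ ≠ 0 ∧ u ≠ 0 ∧ φ u = 0 ∧ ∀ v, (y ^ 3) v = v + φ v • u) ∨
    (∃ (p₂ p₃ : V →ₗ[F] F) (e₁ e₂ : V), e₁ ≠ 0 ∧ p₃ ≠ 0 ∧ p₂ e₁ = 0 ∧ p₃ e₁ = 0 ∧ p₃ e₂ = 0 ∧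
      p₂ e₂ ≠ 0 ∧ ∀ v, y v = v + p₂ v • e₁ + p₃ v • e₂) := by
  obtain ⟨hfQ, hq⟩ := fj_quot h3 hV y hdet ι hι hy
  obtain ⟨v, hv, hv'⟩ := finrank_eq_one_iff'.mp hfQ
  obtain ⟨v₁, rfl⟩ := Submodule.Quotient.mk_surjective _ v
  have hv₁ : v₁ ∉ LinearMap.range ι := fun h => hv ((Submodule.Quotient.mk_eq_zero _).2 h)
  obtain ⟨⟨a₁, b₁, c₁⟩, hz₁⟩ := hq v₁
  -- the corrected vector
  set v₀ : V := v₁ + ι (0, -a₁, -b₁) with hv₀def
  have hyv₀ : y v₀ = v₀ + ι (0, 0, c₁) := by
    have h4 : y v₁ = v₁ + ι (a₁, b₁, c₁) := by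
      rw [hz₁]; abel
    rw [hv₀def, map_add, h4, hy, fjT_apply, add_assoc, add_assoc, ← map_add, ← map_add]
    congr 2
    refine Prod.ext ?_ (Prod.ext ?_ ?_)
    · simp
    · simp [add_comm]
    · simp [add_comm]
  have hv₀ : v₀ ∉ LinearMap.range ι := by
    intro h
    apply hv₁
    have h4 : v₁ = v₀ - ι (0, -a₁, -b₁) := by rw [hv₀def]; abel
    rw [h4]
    exact Submodule.sub_mem _ h ⟨_, rfl⟩
  -- the coordinates
  set Φ : ((F × F × F) × F) →ₗ[F] V :=
    LinearMap.coprod ι ((LinearMap.id : F →ₗ[F] F).smulRight v₀) with hΦ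
  have hΦa : ∀ e c, Φ (e, c) = ι e + c • v₀ := fun e c => by simp [hΦ]
  have hinj : Function.Injective Φ := by
    rw [← LinearMap.ker_eq_bot, LinearMap.ker_eq_bot']
    rintro ⟨e, c⟩ h
    rw [hΦa] at h
    have hc : c = 0 := by
      by_contra hc
      apply hv₀
      have h4 : v₀ = ι (-(c⁻¹ • e)) := by
        have h5 : c • v₀ = -ι e := by
          rw [← add_eq_zero_iff_eq_neg, add_comm]; exact h
        rw [map_neg, map_smul, ← smul_neg, ← h5, smul_smul, inv_mul_cancel₀ hc, one_smul]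
      rw [h4]
      exact ⟨_, rfl⟩
    rw [hc, zero_smul, add_zero] at h
    have he : e = 0 := by
      apply hι
      rw [h, map_zero]
    rw [he, hc]; rfl
  have hfin : finrank F ((F × F × F) × F) = finrank F V := by
    rw [finrank_prod, finrank_prod, finrank_prod, finrank_self, hV]
  set Ψ : ((F × F × F) × F) ≃ₗ[F] V := LinearMap.linearEquivOfInjective Φ hinj hfin with hΨ
  have hΨa : ∀ p, Ψ p = Φ p := fun p => rfl
  have hyΨ : ∀ a b c d : F, y (Ψ ((a, b, c), d)) = Ψ ((a + b, b + c, c + d * c₁), d) := by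
    intro a b c d
    rw [hΨa, hΨa, hΦa, hΦa, map_add, map_smul, hy, hyv₀, smul_add, ← map_smul, fjT_apply]
    rw [add_comm (d • v₀), ← add_assoc, ← map_add]
    congr 2
    refine Prod.ext ?_ (Prod.ext ?_ ?_) <;> simp
  have hu : Ψ ((1, 0, 0), 0) ≠ 0 := by
    intro h
    rw [map_eq_zero_iff _ Ψ.injective] at h
    have := congrArg (fun p : (F × F × F) × F => p.1.1) h
    simp at this
  by_cases hc : c₁ = 0
  · right
    let p₂ : V →ₗ[F] F := LinearMap.fst F F F ∘ₗ LinearMap.snd F F (F × F) ∘ₗ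
      LinearMap.fst F (F × F × F) F ∘ₗ (Ψ.symm : V →ₗ[F] ((F × F × F) × F))
    let p₃ : V →ₗ[F] F := LinearMap.snd F F F ∘ₗ LinearMap.snd F F (F × F) ∘ₗ
      LinearMap.fst F (F × F × F) F ∘ₗ (Ψ.symm : V →ₗ[F] ((F × F × F) × F))
    have hp₂ : ∀ a b c d : F, p₂ (Ψ ((a, b, c), d)) = b := by
      intro a b c d
      simp [p₂]
    have hp₃ : ∀ a b c d : F, p₃ (Ψ ((a, b, c), d)) = c := by
      intro a b c d
      simp [p₃]
    refine ⟨p₂, p₃, Ψ ((1, 0, 0), 0), Ψ ((0, 1, 0), 0), hu, ?_, hp₂ _ _ _ _, hp₃ _ _ _ _,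
      hp₃ _ _ _ _, ?_, ?_⟩
    · intro h
      have h4 := hp₃ 0 0 1 0
      rw [h, LinearMap.zero_apply] at h4
      exact zero_ne_one h4
    · rw [hp₂]
      exact one_ne_zero
    · intro v
      obtain ⟨⟨⟨a, b, c⟩, d⟩, rfl⟩ := Ψ.surjective v
      rw [hyΨ, hp₂, hp₃, ← map_smul, ← map_smul, ← map_add, ← map_add, hc]
      congr 1
      refine Prod.ext (Prod.ext ?_ (Prod.ext ?_ ?_)) ?_ <;> simp
  · left
    let φ : V →ₗ[F] F := c₁ • (LinearMap.snd F (F × F × F) F ∘ₗ
      (Ψ.symm : V →ₗ[F] ((F × F × F) × F)))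
    have hφ : ∀ a b c d : F, φ (Ψ ((a, b, c), d)) = c₁ * d := by
      intro a b c d
      simp [φ]
    refine ⟨φ, Ψ ((1, 0, 0), 0), ?_, hu, ?_, ?_⟩
    · intro h
      have h4 := hφ 0 0 0 1
      rw [h, LinearMap.zero_apply, mul_one] at h4
      exact hc h4.symm
    · rw [hφ, mul_zero]
    · intro v
      obtain ⟨⟨⟨a, b, c⟩, d⟩, rfl⟩ := Ψ.surjective v
      have h4 : (y ^ 3) (Ψ ((a, b, c), d)) = y (y (y (Ψ ((a, b, c), d)))) := by
        rw [pow_succ, pow_succ, pow_one]
        rfl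
      rw [h4, hyΨ, hyΨ, hyΨ, hφ, ← map_smul, ← map_add]
      congr 1
      refine Prod.ext (Prod.ext ?_ (Prod.ext ?_ ?_)) ?_
      · simp only [Prod.fst_add, Prod.smul_fst, smul_eq_mul]
        linear_combination (b + c) * h3
      · simp only [Prod.fst_add, Prod.snd_add, Prod.smul_fst, Prod.smul_snd, smul_eq_mul]
        linear_combination (c + d * c₁) * h3
      · simp only [Prod.fst_add, Prod.snd_add, Prod.smul_fst, Prod.smul_snd, smul_eq_mul]
        linear_combination (d * c₁) * h3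
      · simp

private theorem fj_dot {n : ℕ} {F : Type*} [Field F] (φ : (Fin n → F) →ₗ[F] F) (v : Fin n → F) :
    (fun i => φ (fun j => if i = j then 1 else 0)) ⬝ᵥ v = φ v := by
  rw [LinearMap.pi_apply_eq_sum_univ φ v]
  simp only [dotProduct, smul_eq_mul]
  exact Finset.sum_congr rfl fun i _ => mul_comm _ _

private theorem fj_ne {n : ℕ} {F : Type*} [Field F] (φ : (Fin n → F) →ₗ[F] F) (hφ : φ ≠ 0) :
    (fun i => φ (fun j => if i = j then 1 else 0)) ≠ 0 := by
  intro h
  apply hφ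
  apply LinearMap.ext
  intro v
  rw [← fj_dot φ v, h, zero_dotProduct, LinearMap.zero_apply]

private theorem fj_sl {F : Type*} [Field F] (h3 : (3 : F) = 0)
    (y : (Fin 4 → F) ≃ₗ[F] (Fin 4 → F))
    (hdet : LinearMap.det (y : (Fin 4 → F) →ₗ[F] (Fin 4 → F)) = 1)
    (ι : (F × F × F) →ₗ[F] (Fin 4 → F)) (hι : Function.Injective ι)
    (hy : ∀ e, y (ι e) = ι (fjT F e)) (Y : SLn 4 F) (hY : ∀ v, Y.1 *ᵥ v = y v) :
    HasTv Y ∨ IsJ Y := by
  have hpow : ∀ (k : ℕ) (v : Fin 4 → F), (Y ^ k).1 *ᵥ v = (y ^ k) v := by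
    intro k
    induction k with
    | zero =>
      intro v
      rw [pow_zero, pow_zero]
      show (1 : Matrix (Fin 4) (Fin 4) F) *ᵥ v = v
      exact one_mulVec v
    | succ k ih =>
      intro v
      rw [pow_succ', pow_succ', LinearEquiv.mul_apply, ← ih, ← hY, mulVec_mulVec]
      rfl
  rcases fj_main h3 (by simp) y hdet ι hι hy with
    ⟨φ, u, h1, h2, h4, h5⟩ | ⟨p₂, p₃, e₁, e₂, h1, h2, h4, h5, h6, h7, h8⟩
  · left
    refine ⟨3, _, u, fj_ne φ h1, h2, ?_, ?_⟩
    · rw [fj_dot, h4]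
    · intro v
      rw [hpow, h5, fj_dot]
  · right
    refine ⟨fun i => p₂ (fun j => if i = j then 1 else 0),
      fun i => p₃ (fun j => if i = j then 1 else 0), e₁, e₂, h1, fj_ne p₃ h2, ?_, ?_, ?_, ?_, ?_⟩
    · rw [fj_dot, h4]
    · rw [fj_dot, h5]
    · rw [fj_dot, h6]
    · rw [fj_dot]
      exact h7
    · intro v
      rw [hY, h8, fj_dot, fj_dot]

/-- module FacJ (from gfac2 with E = F × F × F, Θ = J_3) -/
theorem facJ {F : Type} [Field F] [Finite F] (hF : Nat.card F = 3) (A : SLn 4 F) (hA : ¬ Sc A) :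
    ∃ x y : SLn 4 F, (HasTv x ∨ IsJ x) ∧ (HasTv y ∨ IsJ y) ∧ x * y = A := by
  have h3 : (3 : F) = 0 := by
    have : ((Nat.card F : ℕ) : F) = 0 := by
      have := Fintype.ofFinite F
      rw [Nat.card_eq_fintype_card]
      exact FiniteField.cast_card_eq_zero F
    rw [hF] at this
    exact_mod_cast this
  have hAv : ∀ v, SpecialLinearGroup.toLin' A v = A.1 *ᵥ v := by
    intro v
    rw [SpecialLinearGroup.toLin'_apply, toLin'_apply]
  obtain ⟨x, y, hyx, hdx, hdy, ⟨ι₁, hι₁, hx⟩, ι₂, hι₂, hy⟩ :=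
    gfac2 (F := F) (V := Fin 4 → F) (E := F × F × F)
      (by rw [finrank_prod, finrank_prod, finrank_self, finrank_fin_fun])
      (by rw [finrank_prod, finrank_prod, finrank_self]; norm_num)
      (SpecialLinearGroup.toLin' A)
      (by
        intro c
        by_contra hcon
        push Not at hcon
        apply hA
        refine ⟨c, ?_⟩
        apply toLin'.injective
        apply LinearMap.ext
        intro v
        rw [toLin'_apply, ← hAv, hcon, toLin'_apply, smul_mulVec, one_mulVec])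
      (by
        have h4 : ((SpecialLinearGroup.toLin' A : (Fin 4 → F) ≃ₗ[F] (Fin 4 → F)) :
            (Fin 4 → F) →ₗ[F] (Fin 4 → F)) = Matrix.toLin' A.1 := by
          apply LinearMap.ext
          intro v
          rw [LinearEquiv.coe_coe, hAv, toLin'_apply]
        rw [h4, LinearMap.det_toLin']
        exact A.2)
      (fjT F) (0, 0, 1)
      (by
        intro U h1 h2
        have h4 := h2 _ h1
        rw [fjT_apply] at h4
        have h5 : ((0, 1, 0) : F × F × F) ∈ U := by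
          have := U.sub_mem h4 h1
          simpa using this
        have h6 := h2 _ h5
        rw [fjT_apply] at h6
        have h7 : ((1, 0, 0) : F × F × F) ∈ U := by
          have := U.sub_mem h6 h5
          rwa [show ((0 + 1, 1 + 0, 0) : F × F × F) - (0, 1, 0) = (1, 0, 0) from
            Prod.ext (by simp) (Prod.ext (by simp) (by simp))] at this
        rw [Submodule.eq_top_iff']
        rintro ⟨a, b, c⟩
        have h8 := U.add_mem (U.add_mem (U.smul_mem a h7) (U.smul_mem b h5)) (U.smul_mem c h1)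
        simpa using h8)
  refine ⟨⟨LinearMap.toMatrix' (y : (Fin 4 → F) →ₗ[F] (Fin 4 → F)), by
      rw [LinearMap.det_toMatrix', hdy]⟩,
    ⟨LinearMap.toMatrix' (x : (Fin 4 → F) →ₗ[F] (Fin 4 → F)), by
      rw [LinearMap.det_toMatrix', hdx]⟩, ?_, ?_, ?_⟩
  · exact fj_sl h3 y hdy ι₂ hι₂ hy _ fun v => by
      rw [LinearMap.toMatrix'_mulVec]
      rfl
  · exact fj_sl h3 x hdx ι₁ hι₁ hx _ fun v => by
      rw [LinearMap.toMatrix'_mulVec]
      rfl
  · apply Subtype.ext
    change LinearMap.toMatrix' (y : (Fin 4 → F) →ₗ[F] (Fin 4 → F)) *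
      LinearMap.toMatrix' (x : (Fin 4 → F) →ₗ[F] (Fin 4 → F)) = A.1
    rw [← LinearMap.toMatrix'_comp]
    apply toLin'.injective
    rw [toLin'_toMatrix']
    apply LinearMap.ext
    intro v
    rw [LinearMap.comp_apply, LinearEquiv.coe_coe, LinearEquiv.coe_coe, hyx, hAv, toLin'_apply]

end Pool.Agent.SLM
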