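import Mathlib

/-! The field `L` and the generator `s`, without condition on `q` (module Fld2 of SLM). -/

set_option autoImplicit false

namespace Pool.Agent.SLM

/-- multipliers of an additive subgroup of a finite field -/
private def Mul' {L : Type*} [Field L] [Finite L] (E : AddSubgroup L) : Subfield L where
  carrier := {a | ∀ w ∈ E, a * w ∈ E}
  mul_mem' := by
    intro a c ha hc w h
    rw [mul_assoc]
    exact ha _ (hc _ h)
  one_mem' := by
    intro w h
    rwa [one_mul]
  add_mem' := by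
    intro a c ha hc w h
    rw [add_mul]
    exact E.add_mem (ha _ h) (hc _ h)
  zero_mem' := by
    intro w _
    rw [zero_mul]
    exact E.zero_mem
  neg_mem' := by
    intro a ha w h
    rw [neg_mul]
    exact E.neg_mem (ha _ h)
  inv_mem' := by
    intro a ha w h
    have hpow : ∀ n : ℕ, ∀ w ∈ E, a ^ n * w ∈ E := by
      intro n
      induction n with
      | zero =>
        intro w h
        rwa [pow_zero, one_mul]
      | succ n ih =>
        intro w h
        rw [pow_succ, mul_assoc]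
        exact ih _ (ha _ h)
    by_cases h0 : a = 0
    · rw [h0, inv_zero, zero_mul]
      exact E.zero_mem
    · have : Fintype L := Fintype.ofFinite L
      have h1 := FiniteField.pow_card_sub_one_eq_one a h0
      have h2 : 2 ≤ Fintype.card L := Fintype.one_lt_card
      obtain ⟨n, hn⟩ : ∃ n, Fintype.card L - 1 = n + 1 := ⟨Fintype.card L - 2, by omega⟩
      rw [hn, pow_succ] at h1
      have h3 : a ^ n = a⁻¹ := eq_inv_of_mul_eq_one_left h1
      rw [← h3]
      exact hpow n w h

private theorem mem_Mul' {L : Type*} [Field L] [Finite L] {E : AddSubgroup L} {a : L} :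
    a ∈ Mul' E ↔ ∀ w ∈ E, a * w ∈ E := Iff.rfl

/-- a subfield of a finite field is everything, or its square has at most `|L|` elements -/
private theorem card_sq_le {F : Type*} [Field F] [Finite F] {K : Subfield F} (hK : K ≠ ⊤) :
    Nat.card K ^ 2 ≤ Nat.card F := by
  have h1 : Nat.card F = Nat.card K ^ Module.finrank K F := Module.natCard_eq_pow_finrank
  have hpos : 0 < Nat.card K := Nat.card_pos
  have h2 : 2 ≤ Module.finrank K F := by
    by_contra hcon
    push Not at hcon
    have h3 : 0 < Module.finrank K F := Module.finrank_pos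
    have h4 : Module.finrank K F = 1 := by omega
    rw [h4, pow_one] at h1
    apply hK
    rw [eq_top_iff]
    intro x _
    have h5 : Function.Surjective (fun y : K => (y : F)) := by
      have := (Nat.bijective_iff_injective_and_card (fun y : K => (y : F))).2
        ⟨Subtype.val_injective, h1.symm⟩
      exact this.2
    obtain ⟨y, hy⟩ := h5 x
    rw [← hy]
    exact y.2
  rw [h1]
  exact Nat.pow_le_pow_right hpos h2

private theorem fld2_aux {F L : Type} [Field F] [Finite F] [Field L] [Finite L] [Algebra F L]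
    (m : ℕ) (hm : 1 ≤ m) (hfin : Module.finrank F L = m)
    (hcard : Nat.card L = Nat.card F ^ m) :
    ∃ s : L, s ≠ 0 ∧ Algebra.adjoin F {s} = ⊤ ∧
      (∀ x y : L, x ≠ 0 → y ≠ 0 → ∃ j : ℕ, s ^ j * x = y) ∧
      (∃ k : ℕ, s ^ k = 1 ∧ (k : F) ≠ 0) ∧
      (3 ≤ Nat.card F → Algebra.norm F s ≠ 1) ∧
      (2 ≤ m ∨ 3 ≤ Nat.card F → s ≠ 1) ∧
      (2 ≤ m ∨ 4 ≤ Nat.card F → algebraMap F L (Algebra.norm F s)⁻¹ ≠ s) ∧
      (2 ≤ m → ∀ E : AddSubgroup L,
        (∀ w ∈ E, (Algebra.norm F s) • (s * w) ∈ E) → E ≠ ⊥ → E = ⊤) := by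
  obtain ⟨g, hg⟩ := IsCyclic.exists_generator (α := Lˣ)
  have hF2 : 1 < Nat.card F := Finite.one_lt_card
  obtain ⟨k, hk⟩ : ∃ k, Nat.card F = k + 1 := ⟨Nat.card F - 1, by omega⟩
  have hk1 : 1 ≤ k := by omega
  set N := ∑ i ∈ Finset.range m, (k + 1) ^ i with hN
  have hcardL : Nat.card L = N * k + 1 := by
    rw [hcard, hk, hN, geom_sum_mul_add]
  have hN1 : 1 ≤ N := by
    have h1 : ∑ i ∈ Finset.range 1, (k + 1) ^ i ≤ N :=
      Finset.sum_le_sum_of_subset (Finset.range_subset_range.2 hm)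
    simp at h1
    omega
  have hNk : 2 ≤ m → k + 2 ≤ N := by
    intro hm2
    have h1 : ∑ i ∈ Finset.range 2, (k + 1) ^ i ≤ N :=
      Finset.sum_le_sum_of_subset (Finset.range_subset_range.2 hm2)
    simp [Finset.sum_range_succ] at h1
    omega
  have hcop : Nat.Coprime N (N + 1) := by simp
  set s : L := (g : L) with hs
  have hs0 : s ≠ 0 := g.ne_zero
  have hord : ∀ a : ℕ, s ^ a = 1 → N * k ∣ a := by
    intro a ha
    have h1 : orderOf g = Nat.card Lˣ := orderOf_eq_card_of_forall_mem_zpowers hg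
    rw [Nat.card_units, hcardL, Nat.add_sub_cancel] at h1
    rw [← h1]
    apply orderOf_dvd_of_pow_eq_one
    ext
    simpa using ha
  have hone : s ^ (N * k) = 1 := by
    have : Fintype L := Fintype.ofFinite L
    have h1 := FiniteField.pow_card_sub_one_eq_one s hs0
    rwa [← Nat.card_eq_fintype_card, hcardL, Nat.add_sub_cancel] at h1
  have hnorm : algebraMap F L (Algebra.norm F s) = s ^ N := by
    rw [FiniteField.algebraMap_norm_eq_pow_sum, hfin, hk]
  have hμpow : ∀ j : ℕ, (Algebra.norm F s) ^ j = 1 → k ∣ j := by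
    intro j hj
    have h1 : s ^ (N * j) = 1 := by
      rw [pow_mul, ← hnorm, ← map_pow, hj, map_one]
    have h2 := hord _ h1
    exact Nat.dvd_of_mul_dvd_mul_left (by omega) h2
  have hgen : ∀ x y : L, x ≠ 0 → y ≠ 0 → ∃ j : ℕ, s ^ j * x = y := by
    intro x y hx hy
    have h1 := hg (Units.mk0 (y / x) (div_ne_zero hy hx))
    rw [← mem_powers_iff_mem_zpowers] at h1
    obtain ⟨j, hj⟩ := h1
    refine ⟨j, ?_⟩
    have h2 : s ^ j = y / x := by
      have := congrArg Units.val hj
      simpa using this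
    rw [h2, div_mul_cancel₀ _ hx]
  refine ⟨s, hs0, ?_, hgen, ⟨N * k, hone, ?_⟩, ?_, ?_, ?_, ?_⟩
  · rw [eq_top_iff]
    intro y _
    by_cases hy : y = 0
    · rw [hy]
      exact zero_mem _
    · obtain ⟨j, hj⟩ := hgen 1 y one_ne_zero hy
      rw [mul_one] at hj
      rw [← hj]
      exact pow_mem (Algebra.subset_adjoin (Set.mem_singleton s)) j
  · intro h
    have h1 : ((Nat.card F : ℕ) : F) = 0 := by
      have : Fintype F := Fintype.ofFinite F
      rw [Nat.card_eq_fintype_card]
      exact Nat.cast_card_eq_zero F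
    have h2 : ((N * k + 1 : ℕ) : F) = 0 := by
      rw [← hcardL, hcard, Nat.cast_pow, h1, zero_pow (by omega)]
    rw [Nat.cast_add, h, zero_add, Nat.cast_one] at h2
    exact one_ne_zero h2
  · intro h3 h
    have := Nat.le_of_dvd one_pos (hμpow 1 (by rw [pow_one, h]))
    omega
  · intro h3 h
    have h4 := Nat.le_of_dvd one_pos (hord 1 (by rw [pow_one, h]))
    rcases h3 with h3 | h3
    · have h5 := hNk h3
      have h6 : N * 1 ≤ N * k := Nat.mul_le_mul_left N hk1
      omega
    · have h6 : 1 * k ≤ N * k := Nat.mul_le_mul_right k hN1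
      omega
  · intro h3 h
    rw [map_inv₀, hnorm] at h
    have h4 : s ^ (N + 1) = 1 := by
      rw [pow_succ]
      nth_rewrite 2 [← h]
      exact mul_inv_cancel₀ (pow_ne_zero N hs0)
    have h5 := hord _ h4
    have h6 : N ∣ N + 1 := (Dvd.intro k rfl).trans h5
    have h7 : N ∣ 1 := (Nat.dvd_add_right (dvd_refl N)).1 h6
    have h8 : N = 1 := Nat.dvd_one.1 h7
    rcases h3 with h3 | h3
    · have := hNk h3
      omega
    · rw [h8, one_mul] at h5
      have := Nat.le_of_dvd (by norm_num) h5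
      omega
  · intro hm2 E hE hbot
    have hNk' := hNk hm2
    have hθ : s ^ (N + 1) ∈ Mul' E := by
      rw [mem_Mul']
      intro w hw
      have h1 := hE w hw
      rw [Algebra.smul_def, hnorm, ← mul_assoc, ← pow_succ] at h1
      exact h1
    have htop : Mul' E = ⊤ := by
      by_contra hK
      have h1 := card_sq_le hK
      rw [hcardL] at h1
      have hK1 : 1 < Nat.card (Mul' E) := Finite.one_lt_card
      have h2 : (s ^ (N + 1)) ^ (Nat.card (Mul' E) - 1) = 1 := by
        have : Fintype (Mul' E) := Fintype.ofFinite _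
        have h3 := FiniteField.pow_card_sub_one_eq_one (⟨s ^ (N + 1), hθ⟩ : Mul' E) (by
          intro h
          exact pow_ne_zero (N + 1) hs0 (congrArg Subtype.val h))
        rw [← Nat.card_eq_fintype_card] at h3
        exact congrArg Subtype.val h3
      rw [← pow_mul] at h2
      have h3 := hord _ h2
      obtain ⟨κ, hκ⟩ : ∃ κ, Nat.card (Mul' E) = κ + 1 := ⟨Nat.card (Mul' E) - 1, by omega⟩
      rw [hκ] at h1 h3 hK1
      rw [Nat.add_sub_cancel] at h3
      have h4 : N ∣ κ := hcop.dvd_of_dvd_mul_left (Dvd.dvd.trans (Dvd.intro k rfl) h3)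
      have h8 : N ≤ κ := Nat.le_of_dvd (by omega) h4
      nlinarith
    obtain ⟨⟨w, hw⟩, hw0'⟩ := (AddSubgroup.ne_bot_iff_exists_ne_zero).1 hbot
    have hw0 : w ≠ 0 := fun h => hw0' (Subtype.ext h)
    rw [eq_top_iff]
    intro x _
    have h1 : x * w⁻¹ ∈ Mul' E := by
      rw [htop]
      trivial
    have h2 := mem_Mul'.1 h1 w hw
    rwa [mul_assoc, inv_mul_cancel₀ hw0, mul_one] at h2

/-- module Fld2: `Fld` without condition on `q` -/
theorem fld2 (F : Type) [Field F] [Finite F] (m : ℕ) (hm : 1 ≤ m) :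
    ∃ (L : Type) (_ : Field L) (_ : Finite L) (_ : Algebra F L) (s : L),
      Module.finrank F L = m ∧ s ≠ 0 ∧ Algebra.adjoin F {s} = ⊤ ∧
      (∀ x y : L, x ≠ 0 → y ≠ 0 → ∃ j : ℕ, s ^ j * x = y) ∧
      (∃ k : ℕ, s ^ k = 1 ∧ (k : F) ≠ 0) ∧
      (3 ≤ Nat.card F → Algebra.norm F s ≠ 1) ∧
      (2 ≤ m ∨ 3 ≤ Nat.card F → s ≠ 1) ∧
      (2 ≤ m ∨ 4 ≤ Nat.card F → algebraMap F L (Algebra.norm F s)⁻¹ ≠ s) ∧
      (2 ≤ m → ∀ E : AddSubgroup L,
        (∀ w ∈ E, (Algebra.norm F s) • (s * w) ∈ E) → E ≠ ⊥ → E = ⊤) := by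
  obtain ⟨p, hp⟩ := CharP.exists F
  have : Fact p.Prime := ⟨CharP.char_is_prime F p⟩
  have : NeZero m := ⟨by omega⟩
  obtain ⟨s, hs⟩ := fld2_aux (F := F) (L := FiniteField.Extension F p m) m hm
    (FiniteField.finrank_extension F p m) (FiniteField.natCard_extension F p m)
  exact ⟨FiniteField.Extension F p m, inferInstance, inferInstance, inferInstance, s,
    FiniteField.finrank_extension F p m, hs⟩

end Pool.Agent.SLM
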