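import Mathlib

/-! A power of `y` is a transvection, characteristic two (helper26). -/

set_option autoImplicit false

namespace Pool.Agent.SLM

open Module

/-- the coordinates -/
private noncomputable def tvPhi {F L V : Type*} [Field F] [Field L] [Algebra F L]
    [AddCommGroup V] [Module F V] (ι : ((F × F) × L) →ₗ[F] V) (v₀ : V) :
    (((F × F) × L) × F) →ₗ[F] V :=
  LinearMap.coprod ι ((LinearMap.id : F →ₗ[F] F).smulRight v₀)

private lemma tvPhi_apply {F L V : Type*} [Field F] [Field L] [Algebra F L]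
    [AddCommGroup V] [Module F V] (ι : ((F × F) × L) →ₗ[F] V) (v₀ : V) (e : (F × F) × L) (c : F) :
    tvPhi ι v₀ (e, c) = ι e + c • v₀ := by
  simp [tvPhi]

/-- the action of `y` modulo the hyperplane -/
private lemma tv_quot {F L V : Type*} [Field F] [CharP F 2] [Field L] [Algebra F L]
    [FiniteDimensional F L] [AddCommGroup V] [Module F V] [FiniteDimensional F V]
    (hV : finrank F V = finrank F L + 3) (s : L) (h1 : Algebra.norm F s = 1)
    (y : V ≃ₗ[F] V) (hdet : LinearMap.det (y : V →ₗ[F] V) = 1)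
    (ι : ((F × F) × L) →ₗ[F] V) (hι : Function.Injective ι)
    (hy : ∀ e, y (ι e) = ι ((e.1.1 + e.1.2, e.1.2), s * e.2)) :
    finrank F (V ⧸ LinearMap.range ι) = 1 ∧ ∀ x : V, y x - x ∈ LinearMap.range ι := by
  set W : Submodule F V := LinearMap.range ι with hWdef
  have hfW : finrank F W = finrank F L + 2 := by
    rw [hWdef, LinearMap.finrank_range_of_inj hι, finrank_prod, finrank_prod, finrank_self]
    omega
  have hfQ : finrank F (V ⧸ W) = 1 := by
    have := Submodule.finrank_quotient_add_finrank W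
    omega
  refine ⟨hfQ, ?_⟩
  have he : W ≤ W.comap (y : V →ₗ[F] V) := by
    rintro _ ⟨e, rfl⟩
    exact ⟨_, (hy e).symm⟩
  have hmul := LinearMap.det_eq_det_mul_det W (y : V →ₗ[F] V) he
  -- the determinant on `W`
  set J : (F × F) →ₗ[F] (F × F) :=
    (LinearMap.fst F F F + LinearMap.snd F F F).prod (LinearMap.snd F F F) with hJ
  have hJ2 : J * J = 1 := by
    apply LinearMap.ext
    rintro ⟨a, b⟩
    have h2 : (b : F) + b = 0 := CharTwo.add_self_eq_zero b
    simp [hJ, add_assoc, h2]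
  have hdJ : LinearMap.det J = 1 := by
    have h3 : LinearMap.det J * LinearMap.det J = 1 := by
      rw [← LinearMap.det.map_mul, hJ2, LinearMap.det.map_one]
    have h4 : (LinearMap.det J - 1) * (LinearMap.det J - 1) = 0 := by
      have h5 : (2 : F) = 0 := CharTwo.two_eq_zero
      linear_combination h3 + (1 - LinearMap.det J) * h5
    have h6 := mul_self_eq_zero.1 h4
    exact sub_eq_zero.1 h6
  set T : ((F × F) × L) →ₗ[F] ((F × F) × L) := LinearMap.prodMap J (LinearMap.mulLeft F s) with hT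
  have hdT : LinearMap.det T = 1 := by
    rw [hT, LinearMap.det_prodMap, hdJ, one_mul]
    exact h1
  have hTW : LinearMap.det ((y : V →ₗ[F] V).restrict he) = 1 := by
    let ψ : ((F × F) × L) ≃ₗ[F] W := LinearEquiv.ofInjective ι hι
    have h3 : (ψ : ((F × F) × L) →ₗ[F] W) ∘ₗ T ∘ₗ (ψ.symm : W →ₗ[F] ((F × F) × L)) =
        (y : V →ₗ[F] V).restrict he := by
      apply LinearMap.ext
      intro w
      obtain ⟨e, rfl⟩ := ψ.surjective w
      apply Subtype.ext
      have h4 : (((y : V →ₗ[F] V).restrict he (ψ e) : W) : V) = y (ι e) := rfl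
      rw [h4, hy e]
      simp only [LinearMap.comp_apply, LinearEquiv.coe_coe, LinearEquiv.symm_apply_apply]
      rfl
    rw [← h3, LinearMap.det_conj, hdT]
  have hq1 : LinearMap.det (W.mapQ W (y : V →ₗ[F] V) he) = 1 := by
    rw [hdet, hTW, one_mul] at hmul
    exact hmul.symm
  obtain ⟨v, hv, hv'⟩ := finrank_eq_one_iff'.mp hfQ
  set q := W.mapQ W (y : V →ₗ[F] V) he with hqdef
  obtain ⟨c, hc⟩ := hv' (q v)
  have hq : q = c • (LinearMap.id : (V ⧸ W) →ₗ[F] (V ⧸ W)) := by
    apply LinearMap.ext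
    intro w
    obtain ⟨d, rfl⟩ := hv' w
    rw [map_smul, ← hc, LinearMap.smul_apply, LinearMap.id_apply, smul_comm]
  have hc1 : c = 1 := by
    rw [hq, LinearMap.det_smul, LinearMap.det_id, hfQ, pow_one, mul_one] at hq1
    exact hq1
  intro x
  rw [← Submodule.Quotient.mk_eq_zero, Submodule.Quotient.mk_sub]
  have h3 : (Submodule.Quotient.mk (y x) : V ⧸ W) = q (Submodule.Quotient.mk x) := rfl
  rw [h3, hq, hc1]
  simp

theorem tvz2 {F L V : Type*} [Field F] [CharP F 2] [Field L] [Algebra F L]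
    [FiniteDimensional F L]
    [AddCommGroup V] [Module F V] [FiniteDimensional F V]
    (hV : Module.finrank F V = Module.finrank F L + 3) (s : L) (k : ℕ) (hk : s ^ k = 1)
    (hkF : (k : F) ≠ 0) (h1 : Algebra.norm F s = 1) (h2 : s ≠ 1)
    (y : V ≃ₗ[F] V) (hdet : LinearMap.det (y : V →ₗ[F] V) = 1)
    (ι : ((F × F) × L) →ₗ[F] V) (hι : Function.Injective ι)
    (hy : ∀ e, y (ι e) = ι ((e.1.1 + e.1.2, e.1.2), s * e.2)) :
    ∃ (k' : ℕ) (φ : V →ₗ[F] F) (u : V), φ ≠ 0 ∧ u ≠ 0 ∧ φ u = 0 ∧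
      ∀ v, (y ^ k') v = v + φ v • u := by
  obtain ⟨hfQ, hq⟩ := tv_quot hV s h1 y hdet ι hι hy
  have htwo : (2 : F) = 0 := CharTwo.two_eq_zero
  -- a vector outside of the hyperplane
  obtain ⟨v, hv, hv'⟩ := finrank_eq_one_iff'.mp hfQ
  obtain ⟨v₁, rfl⟩ := Submodule.Quotient.mk_surjective _ v
  have hv₁ : v₁ ∉ LinearMap.range ι := fun h => hv ((Submodule.Quotient.mk_eq_zero _).2 h)
  obtain ⟨⟨⟨a₁, b₁⟩, z₁⟩, hz₁⟩ := hq v₁
  have hs1 : s - 1 ≠ 0 := sub_ne_zero.2 h2
  -- the corrected vector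
  set w₁ : (F × F) × L := ((0, -a₁), -((s - 1)⁻¹ * z₁)) with hw₁
  set v₀ : V := v₁ + ι w₁ with hv₀def
  have hyv₀ : y v₀ = v₀ + ι ((0, b₁), 0) := by
    have h3 : y v₁ = v₁ + ι ((a₁, b₁), z₁) := by
      rw [hz₁]; abel
    rw [hv₀def, map_add, h3, hy]
    have h4 : ((a₁, b₁), z₁) + ((w₁.1.1 + w₁.1.2, w₁.1.2), s * w₁.2) =
        w₁ + (((0, b₁), 0) : (F × F) × L) := by
      rw [hw₁]
      refine Prod.ext (Prod.ext ?_ ?_) ?_
      · simp
      · simp [add_comm]
      · simp only [Prod.snd_add, add_zero]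
        field_simp
        ring
    rw [add_assoc, add_assoc, ← map_add, ← map_add, h4]
  have hv₀ : v₀ ∉ LinearMap.range ι := by
    intro h
    apply hv₁
    have h3 : v₁ = v₀ - ι w₁ := by rw [hv₀def]; abel
    rw [h3]
    exact Submodule.sub_mem _ h ⟨w₁, rfl⟩
  -- the coordinates
  set Φ := tvPhi ι v₀ with hΦ
  have hΦa : ∀ e c, Φ (e, c) = ι e + c • v₀ := fun e c => tvPhi_apply ι v₀ e c
  have hinj : Function.Injective Φ := by
    rw [← LinearMap.ker_eq_bot, LinearMap.ker_eq_bot']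
    rintro ⟨e, c⟩ h
    rw [hΦa] at h
    have hc : c = 0 := by
      by_contra hc
      apply hv₀
      have h3 : v₀ = ι (-(c⁻¹ • e)) := by
        have h4 : c • v₀ = -ι e := by
          rw [← add_eq_zero_iff_eq_neg, add_comm]; exact h
        rw [map_neg, map_smul, ← smul_neg, ← h4, smul_smul, inv_mul_cancel₀ hc, one_smul]
      rw [h3]
      exact ⟨_, rfl⟩
    rw [hc, zero_smul, add_zero] at h
    have he : e = 0 := by
      apply hι
      rw [h, map_zero]
    rw [he, hc]; rfl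
  have hfin : finrank F (((F × F) × L) × F) = finrank F V := by
    rw [finrank_prod, finrank_prod, finrank_prod, finrank_self, hV]
    omega
  set Ψ : (((F × F) × L) × F) ≃ₗ[F] V := LinearMap.linearEquivOfInjective Φ hinj hfin with hΨ
  have hΨa : ∀ p, Ψ p = Φ p := fun p => rfl
  have hyΨ : ∀ (a b : F) (z : L) (c : F), y (Ψ (((a, b), z), c)) =
      Ψ (((a + b, b + c * b₁), s * z), c) := by
    intro a b z c
    rw [hΨa, hΨa, hΦa, hΦa, map_add, map_smul, hy, hyv₀, smul_add, ← map_smul]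
    rw [add_comm (c • v₀), ← add_assoc, ← map_add]
    congr 2
    refine Prod.ext (Prod.ext ?_ ?_) ?_
    · simp
    · simp
    · simp
  have hpow : ∀ j : ℕ, ∃ m : F, ∀ (a b : F) (z : L) (c : F), (y ^ j) (Ψ (((a, b), z), c)) =
      Ψ (((a + j * b + m * c * b₁, b + j * c * b₁), s ^ j * z), c) := by
    intro j
    induction j with
    | zero =>
      refine ⟨0, fun a b z c => ?_⟩
      simp
    | succ j ih =>
      obtain ⟨m, hm⟩ := ih
      refine ⟨m + j, fun a b z c => ?_⟩
      rw [pow_succ', LinearEquiv.mul_apply, hm, hyΨ]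
      congr 1
      refine Prod.ext (Prod.ext (Prod.ext ?_ ?_) ?_) rfl
      · push_cast; ring
      · push_cast; ring
      · simp only []; ring
  obtain ⟨m, hm⟩ := hpow k
  have he1 : Ψ (((1, 0), 0), 0) = ι ((1, 0), 0) := by
    rw [hΨa, hΦa, zero_smul, add_zero]
  have hu : Ψ (((1, 0), 0), 0) ≠ 0 := by
    intro h
    rw [map_eq_zero_iff _ Ψ.injective] at h
    have := congrArg (fun p : ((F × F) × L) × F => p.1.1.1) h
    simp at this
  by_cases hb : b₁ = 0
  · -- `k`
    let φ : V →ₗ[F] F := (k : F) • (LinearMap.snd F F F ∘ₗ LinearMap.fst F (F × F) L ∘ₗ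
      LinearMap.fst F ((F × F) × L) F ∘ₗ (Ψ.symm : V →ₗ[F] (((F × F) × L) × F)))
    have hφ : ∀ (a b : F) (z : L) (c : F), φ (Ψ (((a, b), z), c)) = k * b := by
      intro a b z c
      simp [φ]
    refine ⟨k, φ, Ψ (((1, 0), 0), 0), ?_, hu, ?_, ?_⟩
    · intro h
      have h3 := hφ 0 1 0 0
      rw [h, LinearMap.zero_apply, mul_one] at h3
      exact hkF h3.symm
    · rw [hφ, mul_zero]
    · intro v
      obtain ⟨⟨⟨⟨a, b⟩, z⟩, c⟩, rfl⟩ := Ψ.surjective v
      rw [hm, hφ, ← map_smul, ← map_add, hk, hb]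
      congr 1
      refine Prod.ext (Prod.ext (Prod.ext ?_ ?_) ?_) ?_
      · simp
      · simp
      · simp
      · simp
  · let φ : V →ₗ[F] F := ((k : F) * k * b₁) • (LinearMap.snd F ((F × F) × L) F ∘ₗ
      (Ψ.symm : V →ₗ[F] (((F × F) × L) × F)))
    have hφ : ∀ (a b : F) (z : L) (c : F), φ (Ψ (((a, b), z), c)) = k * k * b₁ * c := by
      intro a b z c
      simp [φ]
    refine ⟨k + k, φ, Ψ (((1, 0), 0), 0), ?_, hu, ?_, ?_⟩
    · intro h
      have h3 := hφ 0 0 0 1
      rw [h, LinearMap.zero_apply, mul_one] at h3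
      exact (mul_ne_zero (mul_ne_zero hkF hkF) hb) h3.symm
    · rw [hφ, mul_zero]
    · intro v
      obtain ⟨⟨⟨⟨a, b⟩, z⟩, c⟩, rfl⟩ := Ψ.surjective v
      rw [pow_add, LinearEquiv.mul_apply, hm, hm, hφ, ← map_smul, ← map_add, hk]
      congr 1
      refine Prod.ext (Prod.ext (Prod.ext ?_ ?_) ?_) ?_
      · simp
        linear_combination ((k : F) * b + m * c * b₁) * htwo
      · simp
        linear_combination ((k : F) * c * b₁) * htwo
      · simp
      · simp

end Pool.Agent.SLM
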