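import Pool.Agent.SLM.Defs
import Pool.Agent.SLM.Fld2
import Pool.Agent.SLM.GFac2
import Pool.Agent.SLM.Tvz
import Pool.Agent.SLM.Tvz2

/-! Every nonscalar element of `SL_n(F)` is a product of two elements with a power which is a
transvection. -/

set_option autoImplicit false

namespace Pool.Agent.SLM

open Matrix Pool.Agent.SLN

private lemma hasTv_of {n : ℕ} {F : Type} [Field F] (x : (Fin n → F) ≃ₗ[F] (Fin n → F))
    (hx : (LinearMap.toMatrix' (x : (Fin n → F) →ₗ[F] (Fin n → F))).det = 1) (k : ℕ)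
    (φ : (Fin n → F) →ₗ[F] F) (u : Fin n → F) (hφ : φ ≠ 0) (hu : u ≠ 0) (h0 : φ u = 0)
    (h : ∀ v, (x ^ k) v = v + φ v • u) :
    HasTv (⟨LinearMap.toMatrix' (x : (Fin n → F) →ₗ[F] (Fin n → F)), hx⟩ : SLn n F) := by
  have hdot : ∀ v : Fin n → F, (fun i => φ (Pi.single i 1)) ⬝ᵥ v = φ v := by
    intro v
    rw [LinearMap.pi_apply_eq_sum_univ φ v, dotProduct]
    refine Finset.sum_congr rfl fun i _ => ?_
    rw [smul_eq_mul, mul_comm]
    congr 2
    funext j
    by_cases hij : i = j
    · subst hij; simp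
    · rw [if_neg hij, Pi.single_eq_of_ne (Ne.symm hij)]
  refine ⟨k, fun i => φ (Pi.single i 1), u, ?_, hu, ?_, ?_⟩
  · intro h1
    apply hφ
    apply LinearMap.ext
    intro v
    rw [← hdot, h1, zero_dotProduct, LinearMap.zero_apply]
  · rw [hdot, h0]
  · intro v
    rw [hdot, ← h]
    have hpow : ∀ (X : SLn n F), X.1 = LinearMap.toMatrix' (x : (Fin n → F) →ₗ[F] (Fin n → F)) →
        ∀ (j : ℕ) (v : Fin n → F), (X ^ j).1 *ᵥ v = (x ^ j) v := by
      intro X hX j
      induction j with
      | zero => intro v; simp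
      | succ j ih =>
        intro v
        have e1 : (X ^ (j + 1)).1 = (X ^ j).1 * X.1 := by
          rw [pow_succ]
          rfl
        rw [e1, ← Matrix.mulVec_mulVec, pow_succ, LinearEquiv.mul_apply, ← ih]
        congr 1
        rw [hX]
        exact LinearMap.toMatrix'_mulVec _ _
    exact hpow _ rfl k v

/-- module FacZ: from fld2, gfac2, tvz, tvz2 -/
theorem facZ {n : ℕ} {F : Type} [Field F] [Finite F]
    (hn : 5 ≤ n ∨ (n = 4 ∧ 4 ≤ Nat.card F)) (A : SLn n F) (hA : ¬ Sc A) :
    ∃ x y : SLn n F, HasTv x ∧ HasTv y ∧ x * y = A := by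
  classical
  have := Fintype.ofFinite F
  obtain ⟨m, rfl⟩ : ∃ m, n = m + 3 := ⟨n - 3, by omega⟩
  have hm : 1 ≤ m := by omega
  have hm2 : 2 ≤ m ∨ 4 ≤ Nat.card F := by omega
  obtain ⟨L, _, _, _, s, hL, hs0, hadj, -, ⟨k, hk, hkF⟩, hN1, hs1, hN2, -⟩ := fld2 F m hm
  have hfd : FiniteDimensional F L := FiniteDimensional.of_finrank_pos (by omega)
  have hs1' : s ≠ 1 := hs1 (by omega)
  have hN2' := hN2 hm2
  let Θ : ((F × F) × L) ≃ₗ[F] ((F × F) × L) :=
    { toFun := fun e => ((e.1.1 + e.1.2, e.1.2), s * e.2)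
      invFun := fun e => ((e.1.1 - e.1.2, e.1.2), s⁻¹ * e.2)
      map_add' := by
        intro a b
        ext <;> simp <;> ring
      map_smul' := by
        intro c a
        ext
        · simp; ring
        · simp
        · simp
      left_inv := by
        intro e
        ext
        · simp
        · simp
        · simp [hs0]
      right_inv := by
        intro e
        ext
        · simp
        · simp
        · simp [hs0] }
  have hΘ : ∀ e, Θ e = ((e.1.1 + e.1.2, e.1.2), s * e.2) := fun e => rfl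
  have hfr : Module.finrank F ((F × F) × L) = 2 + m := by
    rw [Module.finrank_prod, Module.finrank_prod, Module.finrank_self, hL]
  have hη : ∀ U : Submodule F ((F × F) × L), (((0, 1), 1) : (F × F) × L) ∈ U →
      (∀ v ∈ U, Θ v ∈ U) → U = ⊤ := by
    intro U h1 hU
    have hD : ∀ a b : F, ∀ z : L, (((a, b), z) : (F × F) × L) ∈ U →
        (((b, 0), (s - 1) * z) : (F × F) × L) ∈ U := by
      intro a b z h
      have h2 := U.sub_mem (hU _ h) h
      rw [hΘ] at h2
      convert h2 using 1
      ext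
      · simp
      · simp
      · simp; ring
    have h2 := hD _ _ _ (hD _ _ _ h1)
    let S : Subalgebra F L :=
      { carrier := {z | ∀ w : L, (((0, 0), w) : (F × F) × L) ∈ U →
          (((0, 0), z * w) : (F × F) × L) ∈ U}
        mul_mem' := by
          intro a b ha hb w hw
          rw [mul_assoc]
          exact ha _ (hb w hw)
        add_mem' := by
          intro a b ha hb w hw
          have h3 := U.add_mem (ha w hw) (hb w hw)
          convert h3 using 1
          ext
          · simp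
          · simp
          · simp; ring
        algebraMap_mem' := by
          intro r w hw
          have h3 := U.smul_mem r hw
          convert h3 using 1
          ext
          · simp
          · simp
          · simp [Algebra.smul_def] }
    have hsS : s ∈ S := by
      intro w hw
      have h3 := hU _ hw
      rw [hΘ] at h3
      convert h3 using 1
      ext <;> simp
    have hS : S = ⊤ := by
      apply top_le_iff.1
      rw [← hadj]
      exact Algebra.adjoin_singleton_le hsS
    have hne : (s - 1) * ((s - 1) * 1) ≠ 0 := by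
      have h3 := sub_ne_zero.2 hs1'
      exact mul_ne_zero h3 (mul_ne_zero h3 one_ne_zero)
    have hL2 : ∀ z : L, (((0, 0), z) : (F × F) × L) ∈ U := by
      intro z
      have hz : z * ((s - 1) * ((s - 1) * 1))⁻¹ ∈ S := by rw [hS]; exact Algebra.mem_top
      have h3 := hz _ h2
      rwa [mul_assoc, inv_mul_cancel₀ hne, mul_one] at h3
    have h3 : (((0, 1), 0) : (F × F) × L) ∈ U := by
      have h4 := U.sub_mem h1 (hL2 1)
      convert h4 using 1
      ext <;> simp
    have h4 : (((1, 0), 0) : (F × F) × L) ∈ U := by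
      have h5 := hD _ _ _ h3
      convert h5 using 1
      ext <;> simp
    rw [eq_top_iff]
    rintro ⟨⟨a, b⟩, z⟩ _
    have h5 := U.add_mem (U.add_mem (U.smul_mem a h4) (U.smul_mem b h3)) (hL2 z)
    convert h5 using 1
    ext <;> simp
  have hAapp : ∀ v : Fin (m + 3) → F, SpecialLinearGroup.toLin' A v = A.1 *ᵥ v := by
    intro v
    rw [SpecialLinearGroup.toLin'_apply, Matrix.toLin'_apply]
  obtain ⟨x, y, hxy, hdx, hdy, ⟨ιx, hιx, hx⟩, ⟨ιy, hιy, hy⟩⟩ :=
    gfac2 (V := Fin (m + 3) → F) (E := (F × F) × L)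
      (by rw [Module.finrank_fin_fun, hfr]; omega) (by rw [hfr]; omega)
      (SpecialLinearGroup.toLin' A)
      (by
        intro c
        by_contra hcon
        push Not at hcon
        apply hA
        refine ⟨c, ?_⟩
        apply Matrix.toLin'.injective
        apply LinearMap.ext
        intro v
        rw [Matrix.toLin'_apply, ← hAapp, hcon v, Matrix.toLin'_apply, Matrix.smul_mulVec,
          Matrix.one_mulVec])
      (by
        have h1 : ((SpecialLinearGroup.toLin' A : (Fin (m + 3) → F) ≃ₗ[F] (Fin (m + 3) → F)) :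
            (Fin (m + 3) → F) →ₗ[F] (Fin (m + 3) → F)) = Matrix.toLin' A.1 := rfl
        rw [h1, LinearMap.det_toLin']
        exact A.2)
      Θ ((0, 1), 1) hη
  have hdx' : (LinearMap.toMatrix' (x : (Fin (m + 3) → F) →ₗ[F] (Fin (m + 3) → F))).det = 1 := by
    rw [LinearMap.det_toMatrix', hdx]
  have hdy' : (LinearMap.toMatrix' (y : (Fin (m + 3) → F) →ₗ[F] (Fin (m + 3) → F))).det = 1 := by
    rw [LinearMap.det_toMatrix', hdy]
  have hfV : Module.finrank F (Fin (m + 3) → F) = Module.finrank F L + 3 := by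
    rw [Module.finrank_fin_fun, hL]
  have key : ∀ (w : (Fin (m + 3) → F) ≃ₗ[F] (Fin (m + 3) → F))
      (hw : (LinearMap.toMatrix' (w : (Fin (m + 3) → F) →ₗ[F] (Fin (m + 3) → F))).det = 1),
      LinearMap.det (w : (Fin (m + 3) → F) →ₗ[F] (Fin (m + 3) → F)) = 1 →
      ∀ ι : ((F × F) × L) →ₗ[F] (Fin (m + 3) → F), Function.Injective ι →
      (∀ e, w (ι e) = ι (Θ e)) →
      HasTv (⟨LinearMap.toMatrix' (w : (Fin (m + 3) → F) →ₗ[F] (Fin (m + 3) → F)), hw⟩ :
        SLn (m + 3) F) := by
    intro w hw hdw ι hι hιw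
    rcases Nat.lt_or_ge (Nat.card F) 3 with hq | hq
    · have hq2 : Nat.card F = 2 := by
        have : 1 < Nat.card F := Finite.one_lt_card
        omega
      have hcard : Fintype.card F = 2 := by rw [← Nat.card_eq_fintype_card, hq2]
      have hp2 : Fact (Nat.Prime 2) := ⟨Nat.prime_two⟩
      have hch : CharP F 2 := charP_of_card_eq_prime hcard
      have hNs : Algebra.norm F s = 1 := by
        have h1 := FiniteField.pow_card_sub_one_eq_one (Algebra.norm F s)
          (Algebra.norm_ne_zero_iff.2 hs0)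
        rwa [hcard, show 2 - 1 = 1 from rfl, pow_one] at h1
      obtain ⟨k', φ, u, h1, h2, h3, h4⟩ := tvz2 hfV s k hk hkF hNs hs1' w hdw ι hι hιw
      exact hasTv_of w hw k' φ u h1 h2 h3 h4
    · obtain ⟨φ, u, h1, h2, h3, h4⟩ := tvz hfV s k hk hkF (hN1 hq) hN2' w hdw ι hι hιw
      exact hasTv_of w hw k φ u h1 h2 h3 h4
  refine ⟨⟨_, hdy'⟩, ⟨_, hdx'⟩, key y hdy' hdy ιy hιy hy, key x hdx' hdx ιx hιx hx, ?_⟩
  apply Subtype.ext
  change LinearMap.toMatrix' (y : (Fin (m + 3) → F) →ₗ[F] (Fin (m + 3) → F)) *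
    LinearMap.toMatrix' (x : (Fin (m + 3) → F) →ₗ[F] (Fin (m + 3) → F)) = A.1
  rw [← LinearMap.toMatrix'_comp]
  apply Matrix.toLin'.injective
  rw [Matrix.toLin'_toMatrix']
  apply LinearMap.ext
  intro v
  rw [Matrix.toLin'_apply, ← hAapp]
  exact hxy v

end Pool.Agent.SLM
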