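import Mathlib

/-! # SLM / Norm4: a normal form for nonscalar 4 × 4 matrices over a field -/

set_option autoImplicit false

namespace Pool.Agent.SLM

open Matrix Module

variable {F : Type*} [Field F]

private def L2 (x y : Fin 4 → F) : Prop :=
  ∀ a b : F, a • x + b • y = 0 → a = 0 ∧ b = 0

private def L3 (x y z : Fin 4 → F) : Prop :=
  ∀ a b c : F, a • x + b • y + c • z = 0 → a = 0 ∧ b = 0 ∧ c = 0

private def L4 (x y z w : Fin 4 → F) : Prop :=
  ∀ a b c d : F, a • x + b • y + c • z + d • w = 0 → a = 0 ∧ b = 0 ∧ c = 0 ∧ d = 0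

private theorem l3_of {x y z : Fin 4 → F} (h : L2 x y) (hz : ∀ a b : F, z ≠ a • x + b • y) :
    L3 x y z := by
  intro a b c h0
  by_cases hc : c = 0
  · rw [hc, zero_smul, add_zero] at h0
    exact ⟨(h a b h0).1, (h a b h0).2, hc⟩
  · exfalso
    refine hz (-(c⁻¹ * a)) (-(c⁻¹ * b)) ?_
    have h1 : c • z = -(a • x + b • y) := by
      rw [eq_neg_iff_add_eq_zero, add_comm]
      exact h0
    calc z = c⁻¹ • (c • z) := by rw [smul_smul, inv_mul_cancel₀ hc, one_smul]
      _ = _ := by rw [h1]; module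

private theorem l4_of {x y z w : Fin 4 → F} (h : L3 x y z)
    (hw : ∀ a b c : F, w ≠ a • x + b • y + c • z) : L4 x y z w := by
  intro a b c d h0
  by_cases hd : d = 0
  · rw [hd, zero_smul, add_zero] at h0
    exact ⟨(h a b c h0).1, (h a b c h0).2.1, (h a b c h0).2.2, hd⟩
  · exfalso
    refine hw (-(d⁻¹ * a)) (-(d⁻¹ * b)) (-(d⁻¹ * c)) ?_
    have h1 : d • w = -(a • x + b • y + c • z) := by
      rw [eq_neg_iff_add_eq_zero, add_comm]
      exact h0
    calc w = d⁻¹ • (d • w) := by rw [smul_smul, inv_mul_cancel₀ hd, one_smul]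
      _ = _ := by rw [h1]; module

private theorem l2_li {x y : Fin 4 → F} (h : L2 x y) : LinearIndependent F ![x, y] :=
  LinearIndependent.pair_iff.2 h

private theorem l3_li {x y z : Fin 4 → F} (h : L3 x y z) : LinearIndependent F ![x, y, z] := by
  rw [Fintype.linearIndependent_iff]
  intro g hg
  rw [Fin.sum_univ_three] at hg
  obtain ⟨h0, h1, h2⟩ := h (g 0) (g 1) (g 2) hg
  intro i
  fin_cases i
  · exact h0
  · exact h1
  · exact h2

private theorem l4_li {x y z w : Fin 4 → F} (h : L4 x y z w) :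
    LinearIndependent F ![x, y, z, w] := by
  rw [Fintype.linearIndependent_iff]
  intro g hg
  rw [Fin.sum_univ_four] at hg
  obtain ⟨h0, h1, h2, h3⟩ := h (g 0) (g 1) (g 2) (g 3) hg
  intro i
  fin_cases i
  · exact h0
  · exact h1
  · exact h2
  · exact h3

private theorem l2_ex {x y : Fin 4 → F} (h : L2 x y) : ∃ z, L3 x y z := by
  have h2 : 2 < finrank F (Fin 4 → F) := by rw [finrank_fin_fun]; norm_num
  obtain ⟨z, hz⟩ := exists_linearIndependent_cons_of_lt_finrank (R := F) (M := Fin 4 → F)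
    (l2_li h) h2
  refine ⟨z, fun a b c h0 => ?_⟩
  rw [Fintype.linearIndependent_iff] at hz
  have h1 := hz ![c, a, b] (by
    rw [Fin.sum_univ_three]
    show c • z + a • x + b • y = 0
    rw [← h0]
    abel)
  exact ⟨h1 1, h1 2, h1 0⟩

private theorem l3_ex {x y z : Fin 4 → F} (h : L3 x y z) : ∃ w, L4 x y z w := by
  have h3 : 3 < finrank F (Fin 4 → F) := by rw [finrank_fin_fun]; norm_num
  obtain ⟨w, hw⟩ := exists_linearIndependent_cons_of_lt_finrank (R := F) (M := Fin 4 → F)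
    (l3_li h) h3
  refine ⟨w, fun a b c d h0 => ?_⟩
  rw [Fintype.linearIndependent_iff] at hw
  have h1 := hw ![d, a, b, c] (by
    rw [Fin.sum_univ_four]
    show d • w + a • x + b • y + c • z = 0
    rw [← h0]
    abel)
  exact ⟨h1 1, h1 2, h1 3, h1 0⟩

private theorem l4_span {x y z w : Fin 4 → F} (h : L4 x y z w) (v : Fin 4 → F) :
    ∃ a b c d : F, v = a • x + b • y + c • z + d • w := by
  have h1 : Submodule.span F (Set.range ![x, y, z, w]) = ⊤ :=
    (l4_li h).span_eq_top_of_card_eq_finrank' (by rw [finrank_fin_fun]; rfl)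
  have h2 : v ∈ Submodule.span F (Set.range ![x, y, z, w]) := by
    rw [h1]
    exact Submodule.mem_top
  obtain ⟨g, hg⟩ := (Submodule.mem_span_range_iff_exists_fun F).1 h2
  rw [Fin.sum_univ_four] at hg
  exact ⟨g 0, g 1, g 2, g 3, hg.symm⟩

private theorem l4_swap {x y z w : Fin 4 → F} (h : L4 x y z w) : L4 x y w z := by
  intro a b c d h0
  obtain ⟨h1, h2, h3, h4⟩ := h a b d c (by rw [← h0]; abel)
  exact ⟨h1, h2, h4, h3⟩

private theorem l4_mod {x y z w : Fin 4 → F} (h : L4 x y z w) (p q r s : F) (hs : s ≠ 0) :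
    L4 x y z (p • x + q • y + r • z + s • w) := by
  intro a b c d h0
  obtain ⟨h1, h2, h3, h4⟩ := h (a + d * p) (b + d * q) (c + d * r) (d * s) (by
    rw [← h0]
    module)
  have hd : d = 0 := (mul_eq_zero.1 h4).resolve_right hs
  rw [hd] at h1 h2 h3
  rw [zero_mul, add_zero] at h1 h2 h3
  exact ⟨h1, h2, h3, hd⟩

private theorem l4_l3 {x y z w : Fin 4 → F} (h : L4 x y z w) : L3 x y z := by
  intro a b c h0
  obtain ⟨h1, h2, h3, -⟩ := h a b c 0 (by rw [h0, zero_smul, add_zero])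
  exact ⟨h1, h2, h3⟩

private theorem n4_out (A C : Matrix (Fin 4) (Fin 4) F) {x y z w : Fin 4 → F} (hL : L4 x y z w)
    (h0 : A *ᵥ x = C 0 0 • x + C 1 0 • y + C 2 0 • z + C 3 0 • w)
    (h1 : A *ᵥ y = C 0 1 • x + C 1 1 • y + C 2 1 • z + C 3 1 • w)
    (h2 : A *ᵥ z = C 0 2 • x + C 1 2 • y + C 2 2 • z + C 3 2 • w)
    (h3 : A *ᵥ w = C 0 3 • x + C 1 3 • y + C 2 3 • z + C 3 3 • w) :
    ∃ P : Matrix (Fin 4) (Fin 4) F, IsUnit P.det ∧ A * P = P * C := by
  have h : ∀ j, A *ᵥ (![x, y, z, w] j) = ∑ k, C k j • ![x, y, z, w] k := by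
    intro j
    rw [Fin.sum_univ_four]
    fin_cases j
    · exact h0
    · exact h1
    · exact h2
    · exact h3
  refine ⟨(Matrix.of ![x, y, z, w])ᵀ, ?_, ?_⟩
  · have h4 : IsUnit (Matrix.of ![x, y, z, w]) := linearIndependent_rows_iff_isUnit.1 (l4_li hL)
    rw [det_transpose]
    exact (isUnit_iff_isUnit_det _).1 h4
  · ext i j
    have h4 := congrFun (h j) i
    simp only [mulVec, dotProduct, Finset.sum_apply, Pi.smul_apply, smul_eq_mul] at h4
    simp only [mul_apply, transpose_apply, of_apply]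
    rw [h4]
    exact Finset.sum_congr rfl fun k _ => mul_comm _ _

/-- the last step for a map that is scalar modulo a plane -/
private theorem n4_last (T : (Fin 4 → F) →ₗ[F] (Fin 4 → F)) {v w : Fin 4 → F} {g h c : F}
    {x y : Fin 4 → F} (hL : L4 v w x y) (hx : T x = g • v + c • x)
    (hy : T y = h • v + c • y) :
    ∃ (x y : Fin 4 → F) (e : F), (e = 0 ∨ e = 1) ∧ L4 v w x y ∧ T x = e • v + c • x ∧
      T y = c • y := by
  by_cases hg : g = 0
  · by_cases hh : h = 0
    · refine ⟨x, y, 0, Or.inl rfl, hL, ?_, ?_⟩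
      · rw [hx, hg]
      · rw [hy, hh, zero_smul, zero_add]
    · refine ⟨(0 : F) • v + (0 : F) • w + (0 : F) • x + h⁻¹ • y, x, 1, Or.inr rfl,
        l4_swap (l4_mod hL 0 0 0 h⁻¹ (inv_ne_zero hh)), ?_, ?_⟩
      · simp only [zero_smul, zero_add, map_smul, hy, smul_add, smul_smul, inv_mul_cancel₀ hh]
        rw [mul_comm]
      · rw [hx, hg, zero_smul, zero_add]
  · set x' : Fin 4 → F := (0 : F) • v + (0 : F) • w + (0 : F) • y + g⁻¹ • x with hx'
    have hL' : L4 v w x' y :=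
      l4_swap (l4_mod (l4_swap hL) 0 0 0 g⁻¹ (inv_ne_zero hg))
    have hTx' : T x' = (1 : F) • v + c • x' := by
      rw [hx']
      simp only [zero_smul, zero_add, map_smul, hx, smul_add, smul_smul, inv_mul_cancel₀ hg]
      rw [mul_comm]
    refine ⟨x', (0 : F) • v + (0 : F) • w + (-h) • x' + (1 : F) • y, 1, Or.inr rfl,
      l4_mod hL' 0 0 (-h) 1 one_ne_zero, hTx', ?_⟩
    simp only [zero_smul, zero_add, map_add, map_smul, hTx', hy]
    module

/-- module Norm4 (helper67): normal form of a nonscalar 4 × 4 matrix -/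
theorem norm4 {F : Type*} [Field F] (A : Matrix (Fin 4) (Fin 4) F)
    (hA : ∀ a : F, A ≠ a • (1 : Matrix (Fin 4) (Fin 4) F)) :
    ∃ P C : Matrix (Fin 4) (Fin 4) F, IsUnit P.det ∧ A * P = P * C ∧
     ((∃ a b c d : F, C = !![0,0,0,a; 1,0,0,b; 0,1,0,c; 0,0,1,d]) ∨
      (∃ a b c d e : F, (e = 0 ∨ e = 1) ∧ C = !![0,0,a,e; 1,0,b,0; 0,1,c,0; 0,0,0,d]) ∨
      (∃ a b c d : F, C = !![0,a,0,0; 1,b,0,0; 0,0,0,c; 0,0,1,d]) ∨
      (∃ a b c e : F, (e = 0 ∨ e = 1) ∧ C = !![0,a,e,0; 1,b,0,0; 0,0,c,0; 0,0,0,c])) := by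
  set T : (Fin 4 → F) →ₗ[F] (Fin 4 → F) := Matrix.toLin' A with hT
  have hTA : ∀ v, A *ᵥ v = T v := fun v => (Matrix.toLin'_apply A v).symm
  -- a vector which is not an eigenvector
  obtain ⟨v₀, hv₀⟩ : ∃ v, L2 v (T v) := by
    by_contra hcon
    push Not at hcon
    obtain ⟨a, ha⟩ := LinearMap.exists_eq_smul_id_of_forall_notLinearIndependent (f := T)
      (fun v hv => hcon v (LinearIndependent.pair_iff.1 hv))
    apply hA a
    apply Matrix.toLin'.injective
    rw [← hT, ha, map_smul, Matrix.toLin'_one]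
    rfl
  by_cases h1 : ∃ v, L3 v (T v) (T (T v))
  · obtain ⟨v, hv⟩ := h1
    by_cases h2 : ∀ a b c : F, T (T (T v)) ≠ a • v + b • T v + c • T (T v)
    · -- type 1
      have hL := l4_of hv h2
      obtain ⟨a, b, c, d, h3⟩ := l4_span hL (T (T (T (T v))))
      obtain ⟨P, hP, hAP⟩ := n4_out A !![0,0,0,a; 1,0,0,b; 0,1,0,c; 0,0,1,d] hL
        (by rw [hTA]; simp) (by rw [hTA]; simp) (by rw [hTA]; simp) (by rw [hTA]; simpa using h3)
      exact ⟨P, _, hP, hAP, Or.inl ⟨a, b, c, d, rfl⟩⟩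
    · -- type 2
      push Not at h2
      obtain ⟨a, b, c, h2⟩ := h2
      obtain ⟨w, hw⟩ := l3_ex hv
      obtain ⟨α, β, δ, d, hTw⟩ := l4_span hw (T w)
      set γ : F := α + (β + δ * d) * d with hγ
      set w' : Fin 4 → F := (-(β + δ * d)) • v + (-δ) • T v + (0 : F) • T (T v) + (1 : F) • w
        with hw'
      have hL' : L4 v (T v) (T (T v)) w' := l4_mod hw _ _ _ 1 one_ne_zero
      have hTw' : T w' = γ • v + d • w' := by
        rw [hw']
        simp only [map_add, map_smul, hTw, zero_smul, add_zero, hγ]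
        module
      by_cases hg : γ = 0
      · rw [hg, zero_smul, zero_add] at hTw'
        obtain ⟨P, hP, hAP⟩ := n4_out A !![0,0,a,0; 1,0,b,0; 0,1,c,0; 0,0,0,d] hL'
          (by rw [hTA]; simp) (by rw [hTA]; simp) (by rw [hTA]; simpa using h2)
          (by rw [hTA]; simpa using hTw')
        exact ⟨P, _, hP, hAP, Or.inr (Or.inl ⟨a, b, c, d, 0, Or.inl rfl, rfl⟩)⟩
      · have hL'' := l4_mod hL' 0 0 0 γ⁻¹ (inv_ne_zero hg)
        simp only [zero_smul, zero_add] at hL''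
        have hTw'' : T (γ⁻¹ • w') = v + d • (γ⁻¹ • w') := by
          rw [map_smul, hTw', smul_add, smul_smul, inv_mul_cancel₀ hg, one_smul, smul_comm]
        obtain ⟨P, hP, hAP⟩ := n4_out A !![0,0,a,1; 1,0,b,0; 0,1,c,0; 0,0,0,d] hL''
          (by rw [hTA]; simp) (by rw [hTA]; simp) (by rw [hTA]; simpa using h2)
          (by rw [hTA]; simpa using hTw'')
        exact ⟨P, _, hP, hAP, Or.inr (Or.inl ⟨a, b, c, d, 1, Or.inr rfl, rfl⟩)⟩
  · -- every vector generates an invariant subspace of dimension at most 2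
    have hcyc : ∀ v, L2 v (T v) → ∃ a b : F, T (T v) = a • v + b • T v := by
      intro v hv
      by_contra hcon
      push Not at hcon
      exact h1 ⟨v, l3_of hv hcon⟩
    obtain ⟨a, b, hab⟩ := hcyc v₀ hv₀
    by_cases h2 : ∃ x, L4 v₀ (T v₀) x (T x)
    · -- type 3
      obtain ⟨x, hx⟩ := h2
      obtain ⟨c, d, hcd⟩ := hcyc x (by
        intro c d h0
        obtain ⟨-, -, h3, h4⟩ := hx 0 0 c d (by rw [zero_smul, zero_smul, zero_add, zero_add, h0])
        exact ⟨h3, h4⟩)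
      obtain ⟨P, hP, hAP⟩ := n4_out A !![0,a,0,0; 1,b,0,0; 0,0,0,c; 0,0,1,d] hx
        (by rw [hTA]; simp) (by rw [hTA]; simpa using hab) (by rw [hTA]; simp)
        (by rw [hTA]; simpa using hcd)
      exact ⟨P, _, hP, hAP, Or.inr (Or.inr (Or.inl ⟨a, b, c, d, rfl⟩))⟩
    · -- type 4
      have h3 : ∀ x, L3 v₀ (T v₀) x → ∃ α β c : F, T x = α • v₀ + β • T v₀ + c • x := by
        intro x hx
        by_contra hcon
        push Not at hcon
        exact h2 ⟨x, l4_of hx hcon⟩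
      obtain ⟨x, hx⟩ := l2_ex hv₀
      obtain ⟨y, hy⟩ := l3_ex hx
      obtain ⟨α, β, c, hTx⟩ := h3 x hx
      obtain ⟨α', β', c', hTy⟩ := h3 y (l4_l3 (l4_swap hy))
      obtain ⟨α'', β'', c'', hTxy⟩ := h3 (x + y) (by
        have h4 := l4_l3 (l4_swap (l4_mod hy 0 0 1 1 one_ne_zero))
        simpa using h4)
      obtain ⟨-, -, e1, e2⟩ := hy (α + α' - α'') (β + β' - β'') (c - c'') (c' - c'') (by
        rw [map_add, hTx, hTy, ← sub_eq_zero] at hTxy
        rw [← hTxy]
        module)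
      have hc : c' = c := by
        rw [sub_eq_zero] at e1 e2
        rw [e1, e2]
      rw [hc] at hTy
      -- correct `x` and `y`
      have hL1 : L4 v₀ (T v₀) ((-β) • v₀ + x) y := by
        have h4 := l4_swap (l4_mod (l4_swap hy) (-β) 0 0 1 one_ne_zero)
        simpa using h4
      have hL2 : L4 v₀ (T v₀) ((-β) • v₀ + x) ((-β') • v₀ + y) := by
        have h4 := l4_mod hL1 (-β') 0 0 1 one_ne_zero
        simpa using h4
      obtain ⟨x', y', e, he, hL, hTx', hTy'⟩ := n4_last T (g := α + c * β) (h := α' + c * β')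
        (c := c) hL2
        (by
          rw [map_add, map_smul, hTx]
          module)
        (by
          rw [map_add, map_smul, hTy]
          module)
      obtain ⟨P, hP, hAP⟩ := n4_out A !![0,a,e,0; 1,b,0,0; 0,0,c,0; 0,0,0,c] hL
        (by rw [hTA]; simp) (by rw [hTA]; simpa using hab) (by rw [hTA]; simpa using hTx')
        (by rw [hTA]; simpa using hTy')
      exact ⟨P, _, hP, hAP, Or.inr (Or.inr (Or.inr ⟨a, b, c, e, he, rfl⟩))⟩

end Pool.Agent.SLM
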