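import Pool.Agent.SLM.Z4Defs

/-! Factorisation in `SL_4(3)`: explicit matrices found by computer (helper67). -/

set_option autoImplicit false

namespace Pool.Agent.SLM.Z4q3

open Matrix Pool.Agent.SLM

private def X0 : M4 (ZMod 3) := !![0, 0, 1, 1; 1, 1, 2, 2; 0, 1, 2, 1; 0, 0, 1, 2]

private theorem det0 : X0.det = 1 := by decide

private theorem tv0 : PTv X0 :=
  ptv8 (X2 := !![0, 1, 0, 0; 1, 0, 0, 0; 1, 0, 1, 0; 0, 1, 1, 2]) (X4 := !![1, 0, 0, 0; 0, 1, 0, 0; 1, 1, 1, 0; 2, 2, 0, 1])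
    (u := ![0, 0, 1, 2]) (φ := ![2, 2, 0, 0]) (by decide) (by decide) (by decide) (by decide) (by decide) (by decide)

private def X1 : M4 (ZMod 3) := !![0, 1, 0, 2; 2, 2, 1, 2; 0, 1, 0, 0; 1, 2, 1, 0]

private theorem det1 : X1.det = 1 := by decide

private theorem tv1 : PTv X1 :=
  ptv6 (X2 := !![1, 0, 0, 2; 0, 2, 1, 2; 2, 2, 1, 2; 1, 0, 2, 0]) (X4 := !![0, 0, 1, 2; 1, 0, 1, 0; 0, 0, 1, 1; 2, 1, 2, 0])
    (u := ![1, 2, 1, 0]) (φ := ![0, 2, 2, 2]) (by decide) (by decide) (by decide) (by decide) (by decide) (by decide)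

private def X2 : M4 (ZMod 3) := !![0, 1, 2, 0; 1, 1, 0, 0; 0, 1, 0, 0; 0, 2, 2, 2]

private theorem det2 : X2.det = 1 := by decide

private theorem tv2 : PTv X2 :=
  ptv8 (X2 := !![1, 0, 0, 0; 1, 2, 2, 0; 1, 1, 0, 0; 2, 2, 1, 1]) (X4 := !![1, 0, 0, 0; 2, 0, 1, 0; 2, 2, 2, 0; 1, 1, 2, 1])
    (u := ![0, 1, 1, 2]) (φ := ![1, 1, 2, 0]) (by decide) (by decide) (by decide) (by decide) (by decide) (by decide)

private def X3 : M4 (ZMod 3) := !![0, 1, 2, 0; 0, 2, 1, 2; 0, 2, 2, 1; 2, 2, 2, 1]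

private theorem det3 : X3.det = 1 := by decide

private theorem tv3 : PTv X3 :=
  ptv6 (X2 := !![0, 0, 2, 1; 1, 1, 2, 1; 2, 1, 2, 1; 2, 0, 0, 1]) (X4 := !![0, 2, 1, 0; 1, 0, 2, 2; 1, 0, 1, 0; 2, 0, 1, 0])
    (u := ![0, 1, 1, 1]) (φ := ![2, 1, 0, 2]) (by decide) (by decide) (by decide) (by decide) (by decide) (by decide)

private theorem g2_1_0_0_1_0 : Good (C2 (1 : ZMod 3) 0 0 1 0) :=
  ⟨X0, !![1, 2, 1, 2; 0, 1, 0, 1; 0, 0, 2, 2; 0, 0, 2, 1], det0, tv0,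
    ptv8 (X2 := !![1, 1, 1, 2; 0, 1, 2, 2; 0, 0, 2, 0; 0, 0, 0, 2]) (X4 := !![1, 2, 2, 2; 0, 1, 0, 0; 0, 0, 1, 0; 0, 0, 0, 1])
    (u := ![1, 0, 0, 0]) (φ := ![0, 1, 1, 1]) (by decide) (by decide) (by decide) (by decide) (by decide) (by decide), by decide⟩

private theorem g2_1_0_0_1_1 : Good (C2 (1 : ZMod 3) 0 0 1 1) :=
  ⟨X0, !![1, 2, 1, 0; 0, 1, 0, 1; 0, 0, 2, 1; 0, 0, 2, 0], det0, tv0,
    ptv6 (X2 := !![1, 1, 0, 0; 0, 1, 2, 1; 0, 0, 0, 2; 0, 0, 1, 2]) (X4 := !![1, 2, 2, 1; 0, 1, 0, 1; 0, 0, 2, 1; 0, 0, 2, 0])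
    (u := ![1, 0, 0, 0]) (φ := ![0, 0, 2, 2]) (by decide) (by decide) (by decide) (by decide) (by decide) (by decide), by decide⟩

private theorem g3_1_0_1_0 : Good (C3 (1 : ZMod 3) 0 1 0) :=
  ⟨X0, !![1, 1, 2, 2; 0, 0, 1, 1; 0, 2, 2, 0; 0, 2, 1, 0], det0, tv0,
    ptv8 (X2 := !![1, 0, 0, 0; 0, 1, 0, 0; 0, 1, 0, 2; 0, 2, 1, 2]) (X4 := !![1, 0, 0, 0; 0, 1, 0, 0; 0, 2, 2, 1; 0, 1, 2, 0])
    (u := ![0, 0, 1, 2]) (φ := ![0, 1, 2, 2]) (by decide) (by decide) (by decide) (by decide) (by decide) (by decide), by decide⟩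

private theorem g2_1_0_1_1_0 : Good (C2 (1 : ZMod 3) 0 1 1 0) :=
  ⟨X0, !![1, 2, 0, 2; 0, 1, 1, 1; 0, 0, 2, 2; 0, 0, 2, 1], det0, tv0,
    ptv8 (X2 := !![1, 1, 0, 0; 0, 1, 2, 1; 0, 0, 2, 0; 0, 0, 0, 2]) (X4 := !![1, 2, 2, 1; 0, 1, 0, 0; 0, 0, 1, 0; 0, 0, 0, 1])
    (u := ![1, 0, 0, 0]) (φ := ![0, 1, 1, 2]) (by decide) (by decide) (by decide) (by decide) (by decide) (by decide), by decide⟩

private theorem g2_1_0_1_1_1 : Good (C2 (1 : ZMod 3) 0 1 1 1) :=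
  ⟨X2, !![1, 2, 2, 0; 0, 1, 1, 0; 0, 1, 0, 2; 0, 1, 2, 0], det2, tv2,
    ptv8 (X2 := !![1, 0, 1, 1; 0, 2, 1, 2; 0, 0, 2, 0; 0, 0, 1, 1]) (X4 := !![1, 0, 1, 2; 0, 1, 0, 0; 0, 0, 1, 0; 0, 0, 0, 1])
    (u := ![1, 0, 0, 0]) (φ := ![0, 0, 2, 1]) (by decide) (by decide) (by decide) (by decide) (by decide) (by decide), by decide⟩

private theorem g3_1_0_1_1 : Good (C3 (1 : ZMod 3) 0 1 1) :=
  ⟨X1, !![1, 2, 2, 0; 0, 0, 0, 1; 2, 1, 2, 2; 0, 2, 0, 1], det1, tv1,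
    ptv8 (X2 := !![2, 1, 0, 0; 0, 2, 0, 1; 0, 1, 2, 1; 0, 2, 0, 0]) (X4 := !![1, 1, 0, 1; 0, 0, 0, 2; 0, 0, 1, 0; 0, 1, 0, 2])
    (u := ![1, 2, 0, 1]) (φ := ![0, 2, 0, 2]) (by decide) (by decide) (by decide) (by decide) (by decide) (by decide), by decide⟩

private theorem g3_1_0_1_2 : Good (C3 (1 : ZMod 3) 0 1 2) :=
  ⟨X1, !![1, 2, 2, 2; 0, 0, 0, 1; 2, 1, 2, 1; 0, 2, 0, 1], det1, tv1,
    ptv8 (X2 := !![2, 2, 0, 2; 0, 2, 0, 1; 0, 2, 2, 2; 0, 2, 0, 0]) (X4 := !![1, 0, 0, 0; 0, 0, 0, 2; 0, 0, 1, 0; 0, 1, 0, 2])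
    (u := ![0, 1, 0, 2]) (φ := ![0, 1, 0, 1]) (by decide) (by decide) (by decide) (by decide) (by decide) (by decide), by decide⟩

private theorem g2_1_0_2_1_0 : Good (C2 (1 : ZMod 3) 0 2 1 0) :=
  ⟨X0, !![1, 2, 2, 2; 0, 1, 2, 1; 0, 0, 2, 2; 0, 0, 2, 1], det0, tv0,
    ptv8 (X2 := !![1, 1, 2, 1; 0, 1, 2, 0; 0, 0, 2, 0; 0, 0, 0, 2]) (X4 := !![1, 2, 2, 0; 0, 1, 0, 0; 0, 0, 1, 0; 0, 0, 0, 1])
    (u := ![1, 0, 0, 0]) (φ := ![0, 1, 1, 0]) (by decide) (by decide) (by decide) (by decide) (by decide) (by decide), by decide⟩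

private theorem g2_1_0_2_1_1 : Good (C2 (1 : ZMod 3) 0 2 1 1) :=
  ⟨X0, !![1, 2, 2, 0; 0, 1, 2, 1; 0, 0, 2, 1; 0, 0, 2, 0], det0, tv0,
    ptv6 (X2 := !![1, 1, 1, 1; 0, 1, 2, 0; 0, 0, 0, 2; 0, 0, 1, 2]) (X4 := !![1, 2, 1, 2; 0, 1, 2, 1; 0, 0, 2, 1; 0, 0, 2, 0])
    (u := ![1, 0, 0, 0]) (φ := ![0, 0, 1, 1]) (by decide) (by decide) (by decide) (by decide) (by decide) (by decide), by decide⟩

private theorem g2_1_1_0_1_0 : Good (C2 (1 : ZMod 3) 1 0 1 0) :=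
  ⟨X0, !![1, 2, 2, 2; 0, 1, 0, 1; 0, 0, 2, 2; 0, 0, 2, 1], det0, tv0,
    ptv8 (X2 := !![1, 1, 1, 1; 0, 1, 2, 2; 0, 0, 2, 0; 0, 0, 0, 2]) (X4 := !![1, 2, 2, 2; 0, 1, 0, 0; 0, 0, 1, 0; 0, 0, 0, 1])
    (u := ![1, 0, 0, 0]) (φ := ![0, 1, 1, 1]) (by decide) (by decide) (by decide) (by decide) (by decide) (by decide), by decide⟩

private theorem g2_1_1_0_1_1 : Good (C2 (1 : ZMod 3) 1 0 1 1) :=
  ⟨X0, !![1, 2, 2, 0; 0, 1, 0, 1; 0, 0, 2, 1; 0, 0, 2, 0], det0, tv0,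
    ptv6 (X2 := !![1, 1, 0, 1; 0, 1, 2, 1; 0, 0, 0, 2; 0, 0, 1, 2]) (X4 := !![1, 2, 0, 1; 0, 1, 0, 1; 0, 0, 2, 1; 0, 0, 2, 0])
    (u := ![1, 0, 0, 0]) (φ := ![0, 0, 2, 2]) (by decide) (by decide) (by decide) (by decide) (by decide) (by decide), by decide⟩

private theorem g3_1_1_1_0 : Good (C3 (1 : ZMod 3) 1 1 0) :=
  ⟨X1, !![1, 0, 2, 1; 0, 0, 0, 1; 2, 0, 2, 0; 0, 2, 0, 1], det1, tv1,
    ptv8 (X2 := !![2, 2, 0, 2; 0, 2, 0, 1; 0, 0, 2, 2; 0, 2, 0, 0]) (X4 := !![1, 0, 0, 0; 0, 0, 0, 2; 0, 1, 1, 1; 0, 1, 0, 2])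
    (u := ![0, 1, 2, 2]) (φ := ![0, 1, 0, 1]) (by decide) (by decide) (by decide) (by decide) (by decide) (by decide), by decide⟩

private theorem g2_1_1_1_1_0 : Good (C2 (1 : ZMod 3) 1 1 1 0) :=
  ⟨X0, !![1, 2, 1, 2; 0, 1, 1, 1; 0, 0, 2, 2; 0, 0, 2, 1], det0, tv0,
    ptv8 (X2 := !![1, 1, 0, 2; 0, 1, 2, 1; 0, 0, 2, 0; 0, 0, 0, 2]) (X4 := !![1, 2, 2, 1; 0, 1, 0, 0; 0, 0, 1, 0; 0, 0, 0, 1])
    (u := ![1, 0, 0, 0]) (φ := ![0, 1, 1, 2]) (by decide) (by decide) (by decide) (by decide) (by decide) (by decide), by decide⟩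

private theorem g2_1_1_1_1_1 : Good (C2 (1 : ZMod 3) 1 1 1 1) :=
  ⟨X1, !![1, 1, 1, 1; 0, 1, 1, 0; 2, 0, 0, 0; 0, 1, 0, 2], det1, tv1,
    ptv6 (X2 := !![0, 0, 2, 0; 2, 1, 1, 0; 2, 2, 2, 2; 0, 0, 1, 1]) (X4 := !![1, 1, 1, 1; 1, 0, 1, 2; 2, 0, 0, 0; 2, 2, 0, 0])
    (u := ![0, 1, 0, 2]) (φ := ![2, 1, 0, 1]) (by decide) (by decide) (by decide) (by decide) (by decide) (by decide), by decide⟩

private theorem g3_1_1_1_1 : Good (C3 (1 : ZMod 3) 1 1 1) :=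
  ⟨X0, !![1, 2, 2, 1; 0, 0, 1, 2; 0, 2, 2, 2; 0, 2, 1, 1], det0, tv0,
    ptv6 (X2 := !![1, 2, 0, 1; 0, 0, 1, 1; 0, 2, 2, 1; 0, 1, 2, 1]) (X4 := !![1, 0, 1, 1; 0, 0, 1, 2; 0, 2, 2, 2; 0, 2, 1, 1])
    (u := ![1, 0, 0, 0]) (φ := ![0, 2, 1, 0]) (by decide) (by decide) (by decide) (by decide) (by decide) (by decide), by decide⟩

private theorem g3_1_1_1_2 : Good (C3 (1 : ZMod 3) 1 1 2) :=
  ⟨X0, !![1, 2, 2, 0; 0, 0, 1, 0; 0, 2, 2, 1; 0, 2, 1, 2], det0, tv0,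
    ptv8 (X2 := !![1, 0, 2, 2; 0, 2, 2, 1; 0, 0, 1, 1; 0, 0, 0, 2]) (X4 := !![1, 0, 1, 2; 0, 1, 0, 0; 0, 0, 1, 0; 0, 0, 0, 1])
    (u := ![1, 0, 0, 0]) (φ := ![0, 0, 2, 1]) (by decide) (by decide) (by decide) (by decide) (by decide) (by decide), by decide⟩

private theorem g2_1_1_2_1_0 : Good (C2 (1 : ZMod 3) 1 2 1 0) :=
  ⟨X0, !![1, 2, 0, 2; 0, 1, 2, 1; 0, 0, 2, 2; 0, 0, 2, 1], det0, tv0,
    ptv8 (X2 := !![1, 1, 2, 0; 0, 1, 2, 0; 0, 0, 2, 0; 0, 0, 0, 2]) (X4 := !![1, 2, 2, 0; 0, 1, 0, 0; 0, 0, 1, 0; 0, 0, 0, 1])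
    (u := ![1, 0, 0, 0]) (φ := ![0, 1, 1, 0]) (by decide) (by decide) (by decide) (by decide) (by decide) (by decide), by decide⟩

private theorem g2_1_1_2_1_1 : Good (C2 (1 : ZMod 3) 1 2 1 1) :=
  ⟨X0, !![1, 2, 0, 0; 0, 1, 2, 1; 0, 0, 2, 1; 0, 0, 2, 0], det0, tv0,
    ptv6 (X2 := !![1, 1, 1, 2; 0, 1, 2, 0; 0, 0, 0, 2; 0, 0, 1, 2]) (X4 := !![1, 2, 2, 2; 0, 1, 2, 1; 0, 0, 2, 1; 0, 0, 2, 0])
    (u := ![1, 0, 0, 0]) (φ := ![0, 0, 1, 1]) (by decide) (by decide) (by decide) (by decide) (by decide) (by decide), by decide⟩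

private theorem g2_1_2_0_1_0 : Good (C2 (1 : ZMod 3) 2 0 1 0) :=
  ⟨X0, !![1, 2, 0, 2; 0, 1, 0, 1; 0, 0, 2, 2; 0, 0, 2, 1], det0, tv0,
    ptv8 (X2 := !![1, 1, 1, 0; 0, 1, 2, 2; 0, 0, 2, 0; 0, 0, 0, 2]) (X4 := !![1, 2, 2, 2; 0, 1, 0, 0; 0, 0, 1, 0; 0, 0, 0, 1])
    (u := ![1, 0, 0, 0]) (φ := ![0, 1, 1, 1]) (by decide) (by decide) (by decide) (by decide) (by decide) (by decide), by decide⟩

private theorem g2_1_2_0_1_1 : Good (C2 (1 : ZMod 3) 2 0 1 1) :=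
  ⟨X0, !![1, 2, 0, 0; 0, 1, 0, 1; 0, 0, 2, 1; 0, 0, 2, 0], det0, tv0,
    ptv6 (X2 := !![1, 1, 0, 2; 0, 1, 2, 1; 0, 0, 0, 2; 0, 0, 1, 2]) (X4 := !![1, 2, 1, 1; 0, 1, 0, 1; 0, 0, 2, 1; 0, 0, 2, 0])
    (u := ![1, 0, 0, 0]) (φ := ![0, 0, 2, 2]) (by decide) (by decide) (by decide) (by decide) (by decide) (by decide), by decide⟩

private theorem g3_1_2_1_0 : Good (C3 (1 : ZMod 3) 2 1 0) :=
  ⟨X1, !![1, 1, 2, 1; 0, 0, 0, 1; 2, 2, 2, 0; 0, 2, 0, 1], det1, tv1,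
    ptv8 (X2 := !![2, 1, 0, 0; 0, 2, 0, 1; 0, 0, 2, 1; 0, 2, 0, 0]) (X4 := !![1, 1, 0, 1; 0, 0, 0, 2; 0, 2, 1, 2; 0, 1, 0, 2])
    (u := ![1, 2, 2, 1]) (φ := ![0, 2, 0, 2]) (by decide) (by decide) (by decide) (by decide) (by decide) (by decide), by decide⟩

private theorem g2_1_2_1_1_0 : Good (C2 (1 : ZMod 3) 2 1 1 0) :=
  ⟨X0, !![1, 2, 2, 2; 0, 1, 1, 1; 0, 0, 2, 2; 0, 0, 2, 1], det0, tv0,
    ptv8 (X2 := !![1, 1, 0, 1; 0, 1, 2, 1; 0, 0, 2, 0; 0, 0, 0, 2]) (X4 := !![1, 2, 2, 1; 0, 1, 0, 0; 0, 0, 1, 0; 0, 0, 0, 1])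
    (u := ![1, 0, 0, 0]) (φ := ![0, 1, 1, 2]) (by decide) (by decide) (by decide) (by decide) (by decide) (by decide), by decide⟩

private theorem g2_1_2_1_1_1 : Good (C2 (1 : ZMod 3) 2 1 1 1) :=
  ⟨X2, !![1, 2, 1, 0; 0, 1, 1, 0; 0, 1, 0, 2; 0, 1, 2, 0], det2, tv2,
    ptv8 (X2 := !![1, 2, 0, 2; 0, 2, 1, 2; 0, 0, 2, 0; 0, 0, 1, 1]) (X4 := !![1, 0, 1, 2; 0, 1, 0, 0; 0, 0, 1, 0; 0, 0, 0, 1])
    (u := ![1, 0, 0, 0]) (φ := ![0, 0, 2, 1]) (by decide) (by decide) (by decide) (by decide) (by decide) (by decide), by decide⟩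

private theorem g3_1_2_1_1 : Good (C3 (1 : ZMod 3) 2 1 1) :=
  ⟨X0, !![1, 0, 2, 1; 0, 0, 1, 2; 0, 2, 2, 2; 0, 2, 1, 1], det0, tv0,
    ptv6 (X2 := !![1, 0, 1, 0; 0, 0, 1, 1; 0, 2, 2, 1; 0, 1, 2, 1]) (X4 := !![1, 2, 0, 1; 0, 0, 1, 2; 0, 2, 2, 2; 0, 2, 1, 1])
    (u := ![1, 0, 0, 0]) (φ := ![0, 1, 2, 0]) (by decide) (by decide) (by decide) (by decide) (by decide) (by decide), by decide⟩

private theorem g3_1_2_1_2 : Good (C3 (1 : ZMod 3) 2 1 2) :=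
  ⟨X0, !![1, 0, 2, 0; 0, 0, 1, 0; 0, 2, 2, 1; 0, 2, 1, 2], det0, tv0,
    ptv8 (X2 := !![1, 1, 0, 2; 0, 2, 2, 1; 0, 0, 1, 1; 0, 0, 0, 2]) (X4 := !![1, 0, 2, 1; 0, 1, 0, 0; 0, 0, 1, 0; 0, 0, 0, 1])
    (u := ![1, 0, 0, 0]) (φ := ![0, 0, 1, 2]) (by decide) (by decide) (by decide) (by decide) (by decide) (by decide), by decide⟩

private theorem g2_1_2_2_1_0 : Good (C2 (1 : ZMod 3) 2 2 1 0) :=
  ⟨X0, !![1, 2, 1, 2; 0, 1, 2, 1; 0, 0, 2, 2; 0, 0, 2, 1], det0, tv0,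
    ptv8 (X2 := !![1, 1, 2, 2; 0, 1, 2, 0; 0, 0, 2, 0; 0, 0, 0, 2]) (X4 := !![1, 2, 2, 0; 0, 1, 0, 0; 0, 0, 1, 0; 0, 0, 0, 1])
    (u := ![1, 0, 0, 0]) (φ := ![0, 1, 1, 0]) (by decide) (by decide) (by decide) (by decide) (by decide) (by decide), by decide⟩

private theorem g2_1_2_2_1_1 : Good (C2 (1 : ZMod 3) 2 2 1 1) :=
  ⟨X0, !![1, 2, 1, 0; 0, 1, 2, 1; 0, 0, 2, 1; 0, 0, 2, 0], det0, tv0,
    ptv6 (X2 := !![1, 1, 1, 0; 0, 1, 2, 0; 0, 0, 0, 2; 0, 0, 1, 2]) (X4 := !![1, 2, 0, 2; 0, 1, 2, 1; 0, 0, 2, 1; 0, 0, 2, 0])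
    (u := ![1, 0, 0, 0]) (φ := ![0, 0, 1, 1]) (by decide) (by decide) (by decide) (by decide) (by decide) (by decide), by decide⟩

private theorem g1_2_0_0_0 : Good (C1 (2 : ZMod 3) 0 0 0) :=
  ⟨X0, !![1, 2, 2, 2; 0, 1, 1, 0; 0, 0, 2, 1; 0, 0, 1, 1], det0, tv0,
    ptv8 (X2 := !![1, 1, 1, 0; 0, 1, 0, 1; 0, 0, 2, 0; 0, 0, 0, 2]) (X4 := !![1, 2, 0, 1; 0, 1, 0, 0; 0, 0, 1, 0; 0, 0, 0, 1])
    (u := ![1, 0, 0, 0]) (φ := ![0, 1, 0, 2]) (by decide) (by decide) (by decide) (by decide) (by decide) (by decide), by decide⟩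

private theorem g1_2_0_0_1 : Good (C1 (2 : ZMod 3) 0 0 1) :=
  ⟨X1, !![1, 1, 2, 0; 0, 1, 0, 0; 2, 0, 2, 1; 0, 1, 0, 1], det1, tv1,
    ptv8 (X2 := !![2, 2, 0, 2; 0, 1, 0, 0; 0, 0, 2, 0; 0, 2, 0, 1]) (X4 := !![1, 1, 0, 0; 0, 1, 0, 0; 0, 0, 1, 0; 0, 1, 0, 1])
    (u := ![1, 0, 0, 1]) (φ := ![0, 2, 0, 0]) (by decide) (by decide) (by decide) (by decide) (by decide) (by decide), by decide⟩

private theorem g1_2_0_0_2 : Good (C1 (2 : ZMod 3) 0 0 2) :=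
  ⟨X1, !![1, 1, 2, 2; 0, 1, 0, 0; 2, 0, 2, 0; 0, 1, 0, 1], det1, tv1,
    ptv8 (X2 := !![2, 1, 0, 1; 0, 1, 0, 0; 0, 2, 2, 1; 0, 2, 0, 1]) (X4 := !![1, 2, 0, 0; 0, 1, 0, 0; 0, 2, 1, 0; 0, 1, 0, 1])
    (u := ![1, 0, 1, 2]) (φ := ![0, 1, 0, 0]) (by decide) (by decide) (by decide) (by decide) (by decide) (by decide), by decide⟩

private theorem g2_2_0_0_2_0 : Good (C2 (2 : ZMod 3) 0 0 2 0) :=
  ⟨X0, !![1, 2, 2, 1; 0, 1, 0, 2; 0, 0, 1, 1; 0, 0, 1, 2], det0, tv0,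
    ptv8 (X2 := !![1, 1, 2, 0; 0, 1, 2, 0; 0, 0, 2, 0; 0, 0, 0, 2]) (X4 := !![1, 2, 2, 0; 0, 1, 0, 0; 0, 0, 1, 0; 0, 0, 0, 1])
    (u := ![1, 0, 0, 0]) (φ := ![0, 1, 1, 0]) (by decide) (by decide) (by decide) (by decide) (by decide) (by decide), by decide⟩

private theorem g2_2_0_0_2_1 : Good (C2 (2 : ZMod 3) 0 0 2 1) :=
  ⟨X0, !![1, 2, 2, 2; 0, 1, 0, 2; 0, 0, 1, 0; 0, 0, 1, 1], det0, tv0,
    ptv6 (X2 := !![1, 1, 0, 2; 0, 1, 2, 1; 0, 0, 1, 0; 0, 0, 2, 1]) (X4 := !![1, 2, 0, 2; 0, 1, 0, 2; 0, 0, 1, 0; 0, 0, 1, 1])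
    (u := ![1, 0, 0, 0]) (φ := ![0, 0, 2, 0]) (by decide) (by decide) (by decide) (by decide) (by decide) (by decide), by decide⟩

private theorem g1_2_0_1_0 : Good (C1 (2 : ZMod 3) 0 1 0) :=
  ⟨X0, !![1, 2, 2, 1; 0, 1, 1, 1; 0, 0, 2, 1; 0, 0, 1, 1], det0, tv0,
    ptv8 (X2 := !![1, 1, 0, 0; 0, 1, 1, 0; 0, 0, 2, 0; 0, 0, 0, 2]) (X4 := !![1, 2, 1, 0; 0, 1, 0, 0; 0, 0, 1, 0; 0, 0, 0, 1])
    (u := ![1, 0, 0, 0]) (φ := ![0, 1, 2, 0]) (by decide) (by decide) (by decide) (by decide) (by decide) (by decide), by decide⟩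

private theorem g1_2_0_1_1 : Good (C1 (2 : ZMod 3) 0 1 1) :=
  ⟨X2, !![1, 2, 0, 2; 0, 1, 0, 1; 0, 1, 0, 2; 0, 1, 2, 2], det2, tv2,
    ptv6 (X2 := !![1, 0, 1, 2; 0, 2, 2, 0; 0, 0, 1, 2; 0, 2, 1, 0]) (X4 := !![1, 1, 1, 1; 0, 1, 0, 1; 0, 1, 0, 2; 0, 1, 2, 2])
    (u := ![1, 0, 0, 0]) (φ := ![0, 1, 2, 1]) (by decide) (by decide) (by decide) (by decide) (by decide) (by decide), by decide⟩

private theorem g1_2_0_1_2 : Good (C1 (2 : ZMod 3) 0 1 2) :=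
  ⟨X0, !![1, 2, 2, 2; 0, 1, 1, 0; 0, 0, 2, 2; 0, 0, 1, 0], det0, tv0,
    ptv6 (X2 := !![1, 1, 1, 0; 0, 1, 0, 2; 0, 0, 0, 1; 0, 0, 2, 2]) (X4 := !![1, 2, 1, 0; 0, 1, 1, 0; 0, 0, 2, 2; 0, 0, 1, 0])
    (u := ![1, 0, 0, 0]) (φ := ![0, 0, 1, 2]) (by decide) (by decide) (by decide) (by decide) (by decide) (by decide), by decide⟩

private theorem g2_2_0_1_2_0 : Good (C2 (2 : ZMod 3) 0 1 2 0) :=
  ⟨X0, !![1, 2, 1, 1; 0, 1, 1, 2; 0, 0, 1, 1; 0, 0, 1, 2], det0, tv0,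
    ptv8 (X2 := !![1, 1, 2, 2; 0, 1, 1, 1; 0, 0, 2, 0; 0, 0, 0, 2]) (X4 := !![1, 2, 1, 1; 0, 1, 0, 0; 0, 0, 1, 0; 0, 0, 0, 1])
    (u := ![1, 0, 0, 0]) (φ := ![0, 1, 2, 2]) (by decide) (by decide) (by decide) (by decide) (by decide) (by decide), by decide⟩

private theorem g2_2_0_1_2_1 : Good (C2 (2 : ZMod 3) 0 1 2 1) :=
  ⟨X0, !![1, 2, 1, 2; 0, 1, 1, 2; 0, 0, 1, 0; 0, 0, 1, 1], det0, tv0,
    ptv6 (X2 := !![1, 1, 0, 2; 0, 1, 1, 1; 0, 0, 1, 0; 0, 0, 2, 1]) (X4 := !![1, 2, 2, 2; 0, 1, 1, 2; 0, 0, 1, 0; 0, 0, 1, 1])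
    (u := ![1, 0, 0, 0]) (φ := ![0, 0, 2, 0]) (by decide) (by decide) (by decide) (by decide) (by decide) (by decide), by decide⟩

private theorem g1_2_0_2_0 : Good (C1 (2 : ZMod 3) 0 2 0) :=
  ⟨X0, !![1, 2, 2, 0; 0, 1, 1, 2; 0, 0, 2, 1; 0, 0, 1, 1], det0, tv0,
    ptv8 (X2 := !![1, 1, 2, 0; 0, 1, 2, 2; 0, 0, 2, 0; 0, 0, 0, 2]) (X4 := !![1, 2, 2, 2; 0, 1, 0, 0; 0, 0, 1, 0; 0, 0, 0, 1])
    (u := ![1, 0, 0, 0]) (φ := ![0, 1, 1, 1]) (by decide) (by decide) (by decide) (by decide) (by decide) (by decide), by decide⟩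

private theorem g3_2_0_2_0 : Good (C3 (2 : ZMod 3) 0 2 0) :=
  ⟨X1, !![1, 1, 2, 2; 0, 0, 0, 2; 2, 2, 2, 0; 0, 1, 0, 2], det1, tv1,
    ptv8 (X2 := !![2, 1, 0, 2; 0, 2, 0, 1; 0, 0, 2, 2; 0, 2, 0, 0]) (X4 := !![1, 2, 0, 2; 0, 0, 0, 2; 0, 1, 1, 1; 0, 1, 0, 2])
    (u := ![1, 1, 2, 2]) (φ := ![0, 1, 0, 1]) (by decide) (by decide) (by decide) (by decide) (by decide) (by decide), by decide⟩

private theorem g1_2_0_2_1 : Good (C1 (2 : ZMod 3) 0 2 1) :=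
  ⟨X1, !![1, 1, 2, 2; 0, 1, 0, 2; 2, 0, 2, 1; 0, 1, 0, 0], det1, tv1,
    ptv8 (X2 := !![2, 1, 0, 0; 0, 0, 0, 2; 0, 0, 2, 0; 0, 1, 0, 2]) (X4 := !![1, 2, 0, 2; 0, 2, 0, 1; 0, 0, 1, 0; 0, 2, 0, 0])
    (u := ![1, 2, 0, 1]) (φ := ![0, 1, 0, 1]) (by decide) (by decide) (by decide) (by decide) (by decide) (by decide), by decide⟩

private theorem g3_2_0_2_1 : Good (C3 (2 : ZMod 3) 0 2 1) :=
  ⟨X1, !![1, 1, 2, 1; 0, 0, 0, 2; 2, 2, 2, 2; 0, 1, 0, 2], det1, tv1,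
    ptv8 (X2 := !![2, 0, 0, 0; 0, 2, 0, 1; 0, 2, 2, 2; 0, 2, 0, 0]) (X4 := !![1, 0, 0, 0; 0, 0, 0, 2; 0, 0, 1, 0; 0, 1, 0, 2])
    (u := ![0, 1, 0, 2]) (φ := ![0, 1, 0, 1]) (by decide) (by decide) (by decide) (by decide) (by decide) (by decide), by decide⟩

private theorem g1_2_0_2_2 : Good (C1 (2 : ZMod 3) 0 2 2) :=
  ⟨X0, !![1, 2, 2, 1; 0, 1, 1, 1; 0, 0, 2, 2; 0, 0, 1, 0], det0, tv0,
    ptv6 (X2 := !![1, 1, 0, 1; 0, 1, 1, 0; 0, 0, 0, 1; 0, 0, 2, 2]) (X4 := !![1, 2, 0, 0; 0, 1, 1, 1; 0, 0, 2, 2; 0, 0, 1, 0])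
    (u := ![1, 0, 0, 0]) (φ := ![0, 0, 2, 1]) (by decide) (by decide) (by decide) (by decide) (by decide) (by decide), by decide⟩

private theorem g2_2_0_2_2_0 : Good (C2 (2 : ZMod 3) 0 2 2 0) :=
  ⟨X0, !![1, 2, 0, 1; 0, 1, 2, 2; 0, 0, 1, 1; 0, 0, 1, 2], det0, tv0,
    ptv8 (X2 := !![1, 1, 2, 1; 0, 1, 0, 2; 0, 0, 2, 0; 0, 0, 0, 2]) (X4 := !![1, 2, 0, 2; 0, 1, 0, 0; 0, 0, 1, 0; 0, 0, 0, 1])
    (u := ![1, 0, 0, 0]) (φ := ![0, 1, 0, 1]) (by decide) (by decide) (by decide) (by decide) (by decide) (by decide), by decide⟩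

private theorem g2_2_0_2_2_1 : Good (C2 (2 : ZMod 3) 0 2 2 1) :=
  ⟨X0, !![1, 2, 0, 2; 0, 1, 2, 2; 0, 0, 1, 0; 0, 0, 1, 1], det0, tv0,
    ptv6 (X2 := !![1, 1, 0, 2; 0, 1, 0, 1; 0, 0, 1, 0; 0, 0, 2, 1]) (X4 := !![1, 2, 1, 2; 0, 1, 2, 2; 0, 0, 1, 0; 0, 0, 1, 1])
    (u := ![1, 0, 0, 0]) (φ := ![0, 0, 2, 0]) (by decide) (by decide) (by decide) (by decide) (by decide) (by decide), by decide⟩

private theorem g3_2_0_2_2 : Good (C3 (2 : ZMod 3) 0 2 2) :=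
  ⟨X1, !![1, 1, 2, 0; 0, 0, 0, 2; 2, 2, 2, 1; 0, 1, 0, 2], det1, tv1,
    ptv8 (X2 := !![2, 2, 0, 1; 0, 2, 0, 1; 0, 1, 2, 2; 0, 2, 0, 0]) (X4 := !![1, 1, 0, 1; 0, 0, 0, 2; 0, 2, 1, 2; 0, 1, 0, 2])
    (u := ![1, 2, 2, 1]) (φ := ![0, 2, 0, 2]) (by decide) (by decide) (by decide) (by decide) (by decide) (by decide), by decide⟩

private theorem g1_2_1_0_0 : Good (C1 (2 : ZMod 3) 1 0 0) :=
  ⟨X0, !![1, 2, 2, 0; 0, 1, 1, 0; 0, 0, 2, 1; 0, 0, 1, 1], det0, tv0,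
    ptv8 (X2 := !![1, 1, 2, 2; 0, 1, 0, 1; 0, 0, 2, 0; 0, 0, 0, 2]) (X4 := !![1, 2, 0, 1; 0, 1, 0, 0; 0, 0, 1, 0; 0, 0, 0, 1])
    (u := ![1, 0, 0, 0]) (φ := ![0, 1, 0, 2]) (by decide) (by decide) (by decide) (by decide) (by decide) (by decide), by decide⟩

private theorem g1_2_1_0_1 : Good (C1 (2 : ZMod 3) 1 0 1) :=
  ⟨X1, !![1, 1, 2, 1; 0, 1, 0, 0; 2, 0, 2, 0; 0, 1, 0, 1], det1, tv1,
    ptv8 (X2 := !![2, 0, 0, 2; 0, 1, 0, 0; 0, 2, 2, 2; 0, 2, 0, 1]) (X4 := !![1, 1, 0, 0; 0, 1, 0, 0; 0, 1, 1, 0; 0, 1, 0, 1])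
    (u := ![1, 0, 1, 1]) (φ := ![0, 2, 0, 0]) (by decide) (by decide) (by decide) (by decide) (by decide) (by decide), by decide⟩

private theorem g1_2_1_0_2 : Good (C1 (2 : ZMod 3) 1 0 2) :=
  ⟨X1, !![1, 1, 2, 0; 0, 1, 0, 0; 2, 0, 2, 2; 0, 1, 0, 1], det1, tv1,
    ptv8 (X2 := !![2, 2, 0, 1; 0, 1, 0, 0; 0, 1, 2, 0; 0, 2, 0, 1]) (X4 := !![1, 2, 0, 0; 0, 1, 0, 0; 0, 0, 1, 0; 0, 1, 0, 1])
    (u := ![1, 0, 0, 2]) (φ := ![0, 1, 0, 0]) (by decide) (by decide) (by decide) (by decide) (by decide) (by decide), by decide⟩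

private theorem g2_2_1_0_2_0 : Good (C2 (2 : ZMod 3) 1 0 2 0) :=
  ⟨X0, !![1, 2, 0, 1; 0, 1, 0, 2; 0, 0, 1, 1; 0, 0, 1, 2], det0, tv0,
    ptv8 (X2 := !![1, 1, 1, 1; 0, 1, 2, 0; 0, 0, 2, 0; 0, 0, 0, 2]) (X4 := !![1, 2, 2, 0; 0, 1, 0, 0; 0, 0, 1, 0; 0, 0, 0, 1])
    (u := ![1, 0, 0, 0]) (φ := ![0, 1, 1, 0]) (by decide) (by decide) (by decide) (by decide) (by decide) (by decide), by decide⟩

private theorem g2_2_1_0_2_1 : Good (C2 (2 : ZMod 3) 1 0 2 1) :=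
  ⟨X0, !![1, 2, 0, 2; 0, 1, 0, 2; 0, 0, 1, 0; 0, 0, 1, 1], det0, tv0,
    ptv6 (X2 := !![1, 1, 2, 2; 0, 1, 2, 1; 0, 0, 1, 0; 0, 0, 2, 1]) (X4 := !![1, 2, 1, 2; 0, 1, 0, 2; 0, 0, 1, 0; 0, 0, 1, 1])
    (u := ![1, 0, 0, 0]) (φ := ![0, 0, 2, 0]) (by decide) (by decide) (by decide) (by decide) (by decide) (by decide), by decide⟩

private theorem g1_2_1_1_0 : Good (C1 (2 : ZMod 3) 1 1 0) :=
  ⟨X0, !![1, 2, 2, 2; 0, 1, 1, 1; 0, 0, 2, 1; 0, 0, 1, 1], det0, tv0,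
    ptv8 (X2 := !![1, 1, 1, 2; 0, 1, 1, 0; 0, 0, 2, 0; 0, 0, 0, 2]) (X4 := !![1, 2, 1, 0; 0, 1, 0, 0; 0, 0, 1, 0; 0, 0, 0, 1])
    (u := ![1, 0, 0, 0]) (φ := ![0, 1, 2, 0]) (by decide) (by decide) (by decide) (by decide) (by decide) (by decide), by decide⟩

private theorem g1_2_1_1_1 : Good (C1 (2 : ZMod 3) 1 1 1) :=
  ⟨X2, !![1, 2, 0, 0; 0, 1, 0, 1; 0, 1, 0, 2; 0, 1, 2, 2], det2, tv2,
    ptv6 (X2 := !![1, 1, 0, 2; 0, 2, 2, 0; 0, 0, 1, 2; 0, 2, 1, 0]) (X4 := !![1, 1, 1, 2; 0, 1, 0, 1; 0, 1, 0, 2; 0, 1, 2, 2])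
    (u := ![1, 0, 0, 0]) (φ := ![0, 1, 2, 1]) (by decide) (by decide) (by decide) (by decide) (by decide) (by decide), by decide⟩

private theorem g1_2_1_1_2 : Good (C1 (2 : ZMod 3) 1 1 2) :=
  ⟨X0, !![1, 2, 2, 0; 0, 1, 1, 0; 0, 0, 2, 2; 0, 0, 1, 0], det0, tv0,
    ptv6 (X2 := !![1, 1, 2, 1; 0, 1, 0, 2; 0, 0, 0, 1; 0, 0, 2, 2]) (X4 := !![1, 2, 1, 1; 0, 1, 1, 0; 0, 0, 2, 2; 0, 0, 1, 0])
    (u := ![1, 0, 0, 0]) (φ := ![0, 0, 1, 2]) (by decide) (by decide) (by decide) (by decide) (by decide) (by decide), by decide⟩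

private theorem g2_2_1_1_2_0 : Good (C2 (2 : ZMod 3) 1 1 2 0) :=
  ⟨X0, !![1, 2, 2, 1; 0, 1, 1, 2; 0, 0, 1, 1; 0, 0, 1, 2], det0, tv0,
    ptv8 (X2 := !![1, 1, 1, 0; 0, 1, 1, 1; 0, 0, 2, 0; 0, 0, 0, 2]) (X4 := !![1, 2, 1, 1; 0, 1, 0, 0; 0, 0, 1, 0; 0, 0, 0, 1])
    (u := ![1, 0, 0, 0]) (φ := ![0, 1, 2, 2]) (by decide) (by decide) (by decide) (by decide) (by decide) (by decide), by decide⟩

private theorem g2_2_1_1_2_1 : Good (C2 (2 : ZMod 3) 1 1 2 1) :=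
  ⟨X0, !![1, 2, 2, 2; 0, 1, 1, 2; 0, 0, 1, 0; 0, 0, 1, 1], det0, tv0,
    ptv6 (X2 := !![1, 1, 2, 2; 0, 1, 1, 1; 0, 0, 1, 0; 0, 0, 2, 1]) (X4 := !![1, 2, 0, 2; 0, 1, 1, 2; 0, 0, 1, 0; 0, 0, 1, 1])
    (u := ![1, 0, 0, 0]) (φ := ![0, 0, 2, 0]) (by decide) (by decide) (by decide) (by decide) (by decide) (by decide), by decide⟩

private theorem g1_2_1_2_0 : Good (C1 (2 : ZMod 3) 1 2 0) :=
  ⟨X0, !![1, 2, 2, 1; 0, 1, 1, 2; 0, 0, 2, 1; 0, 0, 1, 1], det0, tv0,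
    ptv8 (X2 := !![1, 1, 0, 2; 0, 1, 2, 2; 0, 0, 2, 0; 0, 0, 0, 2]) (X4 := !![1, 2, 2, 2; 0, 1, 0, 0; 0, 0, 1, 0; 0, 0, 0, 1])
    (u := ![1, 0, 0, 0]) (φ := ![0, 1, 1, 1]) (by decide) (by decide) (by decide) (by decide) (by decide) (by decide), by decide⟩

private theorem g3_2_1_2_0 : Good (C3 (2 : ZMod 3) 1 2 0) :=
  ⟨X1, !![1, 2, 2, 2; 0, 0, 0, 2; 2, 1, 2, 0; 0, 1, 0, 2], det1, tv1,
    ptv8 (X2 := !![2, 0, 0, 1; 0, 2, 0, 1; 0, 0, 2, 0; 0, 2, 0, 0]) (X4 := !![1, 2, 0, 2; 0, 0, 0, 2; 0, 0, 1, 0; 0, 1, 0, 2])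
    (u := ![1, 1, 0, 2]) (φ := ![0, 1, 0, 1]) (by decide) (by decide) (by decide) (by decide) (by decide) (by decide), by decide⟩

private theorem g1_2_1_2_1 : Good (C1 (2 : ZMod 3) 1 2 1) :=
  ⟨X1, !![1, 1, 2, 0; 0, 1, 0, 2; 2, 0, 2, 0; 0, 1, 0, 0], det1, tv1,
    ptv8 (X2 := !![2, 2, 0, 2; 0, 0, 0, 2; 0, 2, 2, 0; 0, 1, 0, 2]) (X4 := !![1, 0, 0, 0; 0, 2, 0, 1; 0, 1, 1, 1; 0, 2, 0, 0])
    (u := ![0, 1, 1, 2]) (φ := ![0, 2, 0, 2]) (by decide) (by decide) (by decide) (by decide) (by decide) (by decide), by decide⟩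

private theorem g3_2_1_2_1 : Good (C3 (2 : ZMod 3) 1 2 1) :=
  ⟨X1, !![1, 2, 2, 1; 0, 0, 0, 2; 2, 1, 2, 2; 0, 1, 0, 2], det1, tv1,
    ptv8 (X2 := !![2, 2, 0, 2; 0, 2, 0, 1; 0, 2, 2, 0; 0, 2, 0, 0]) (X4 := !![1, 0, 0, 0; 0, 0, 0, 2; 0, 2, 1, 2; 0, 1, 0, 2])
    (u := ![0, 1, 1, 2]) (φ := ![0, 1, 0, 1]) (by decide) (by decide) (by decide) (by decide) (by decide) (by decide), by decide⟩

private theorem g1_2_1_2_2 : Good (C1 (2 : ZMod 3) 1 2 2) :=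
  ⟨X0, !![1, 2, 2, 2; 0, 1, 1, 1; 0, 0, 2, 2; 0, 0, 1, 0], det0, tv0,
    ptv6 (X2 := !![1, 1, 1, 2; 0, 1, 1, 0; 0, 0, 0, 1; 0, 0, 2, 2]) (X4 := !![1, 2, 0, 1; 0, 1, 1, 1; 0, 0, 2, 2; 0, 0, 1, 0])
    (u := ![1, 0, 0, 0]) (φ := ![0, 0, 2, 1]) (by decide) (by decide) (by decide) (by decide) (by decide) (by decide), by decide⟩

private theorem g2_2_1_2_2_0 : Good (C2 (2 : ZMod 3) 1 2 2 0) :=
  ⟨X0, !![1, 2, 1, 1; 0, 1, 2, 2; 0, 0, 1, 1; 0, 0, 1, 2], det0, tv0,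
    ptv8 (X2 := !![1, 1, 1, 2; 0, 1, 0, 2; 0, 0, 2, 0; 0, 0, 0, 2]) (X4 := !![1, 2, 0, 2; 0, 1, 0, 0; 0, 0, 1, 0; 0, 0, 0, 1])
    (u := ![1, 0, 0, 0]) (φ := ![0, 1, 0, 1]) (by decide) (by decide) (by decide) (by decide) (by decide) (by decide), by decide⟩

private theorem g2_2_1_2_2_1 : Good (C2 (2 : ZMod 3) 1 2 2 1) :=
  ⟨X0, !![1, 2, 1, 2; 0, 1, 2, 2; 0, 0, 1, 0; 0, 0, 1, 1], det0, tv0,
    ptv6 (X2 := !![1, 1, 2, 2; 0, 1, 0, 1; 0, 0, 1, 0; 0, 0, 2, 1]) (X4 := !![1, 2, 2, 2; 0, 1, 2, 2; 0, 0, 1, 0; 0, 0, 1, 1])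
    (u := ![1, 0, 0, 0]) (φ := ![0, 0, 2, 0]) (by decide) (by decide) (by decide) (by decide) (by decide) (by decide), by decide⟩

private theorem g3_2_1_2_2 : Good (C3 (2 : ZMod 3) 1 2 2) :=
  ⟨X1, !![1, 2, 2, 0; 0, 0, 0, 2; 2, 1, 2, 1; 0, 1, 0, 2], det1, tv1,
    ptv8 (X2 := !![2, 1, 0, 0; 0, 2, 0, 1; 0, 1, 2, 0; 0, 2, 0, 0]) (X4 := !![1, 1, 0, 1; 0, 0, 0, 2; 0, 1, 1, 1; 0, 1, 0, 2])
    (u := ![1, 2, 1, 1]) (φ := ![0, 2, 0, 2]) (by decide) (by decide) (by decide) (by decide) (by decide) (by decide), by decide⟩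

private theorem g1_2_2_0_0 : Good (C1 (2 : ZMod 3) 2 0 0) :=
  ⟨X0, !![1, 2, 2, 1; 0, 1, 1, 0; 0, 0, 2, 1; 0, 0, 1, 1], det0, tv0,
    ptv8 (X2 := !![1, 1, 0, 1; 0, 1, 0, 1; 0, 0, 2, 0; 0, 0, 0, 2]) (X4 := !![1, 2, 0, 1; 0, 1, 0, 0; 0, 0, 1, 0; 0, 0, 0, 1])
    (u := ![1, 0, 0, 0]) (φ := ![0, 1, 0, 2]) (by decide) (by decide) (by decide) (by decide) (by decide) (by decide), by decide⟩

private theorem g1_2_2_0_1 : Good (C1 (2 : ZMod 3) 2 0 1) :=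
  ⟨X1, !![1, 1, 2, 2; 0, 1, 0, 0; 2, 0, 2, 2; 0, 1, 0, 1], det1, tv1,
    ptv8 (X2 := !![2, 1, 0, 2; 0, 1, 0, 0; 0, 1, 2, 1; 0, 2, 0, 1]) (X4 := !![1, 1, 0, 0; 0, 1, 0, 0; 0, 2, 1, 0; 0, 1, 0, 1])
    (u := ![1, 0, 2, 1]) (φ := ![0, 2, 0, 0]) (by decide) (by decide) (by decide) (by decide) (by decide) (by decide), by decide⟩

private theorem g1_2_2_0_2 : Good (C1 (2 : ZMod 3) 2 0 2) :=
  ⟨X1, !![1, 1, 2, 1; 0, 1, 0, 0; 2, 0, 2, 1; 0, 1, 0, 1], det1, tv1,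
    ptv8 (X2 := !![2, 0, 0, 1; 0, 1, 0, 0; 0, 0, 2, 2; 0, 2, 0, 1]) (X4 := !![1, 2, 0, 0; 0, 1, 0, 0; 0, 1, 1, 0; 0, 1, 0, 1])
    (u := ![1, 0, 2, 2]) (φ := ![0, 1, 0, 0]) (by decide) (by decide) (by decide) (by decide) (by decide) (by decide), by decide⟩

private theorem g2_2_2_0_2_0 : Good (C2 (2 : ZMod 3) 2 0 2 0) :=
  ⟨X0, !![1, 2, 1, 1; 0, 1, 0, 2; 0, 0, 1, 1; 0, 0, 1, 2], det0, tv0,
    ptv8 (X2 := !![1, 1, 0, 2; 0, 1, 2, 0; 0, 0, 2, 0; 0, 0, 0, 2]) (X4 := !![1, 2, 2, 0; 0, 1, 0, 0; 0, 0, 1, 0; 0, 0, 0, 1])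
    (u := ![1, 0, 0, 0]) (φ := ![0, 1, 1, 0]) (by decide) (by decide) (by decide) (by decide) (by decide) (by decide), by decide⟩

private theorem g2_2_2_0_2_1 : Good (C2 (2 : ZMod 3) 2 0 2 1) :=
  ⟨X0, !![1, 2, 1, 2; 0, 1, 0, 2; 0, 0, 1, 0; 0, 0, 1, 1], det0, tv0,
    ptv6 (X2 := !![1, 1, 1, 2; 0, 1, 2, 1; 0, 0, 1, 0; 0, 0, 2, 1]) (X4 := !![1, 2, 2, 2; 0, 1, 0, 2; 0, 0, 1, 0; 0, 0, 1, 1])
    (u := ![1, 0, 0, 0]) (φ := ![0, 0, 2, 0]) (by decide) (by decide) (by decide) (by decide) (by decide) (by decide), by decide⟩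

private theorem g1_2_2_1_0 : Good (C1 (2 : ZMod 3) 2 1 0) :=
  ⟨X0, !![1, 2, 2, 0; 0, 1, 1, 1; 0, 0, 2, 1; 0, 0, 1, 1], det0, tv0,
    ptv8 (X2 := !![1, 1, 2, 1; 0, 1, 1, 0; 0, 0, 2, 0; 0, 0, 0, 2]) (X4 := !![1, 2, 1, 0; 0, 1, 0, 0; 0, 0, 1, 0; 0, 0, 0, 1])
    (u := ![1, 0, 0, 0]) (φ := ![0, 1, 2, 0]) (by decide) (by decide) (by decide) (by decide) (by decide) (by decide), by decide⟩

private theorem g1_2_2_1_1 : Good (C1 (2 : ZMod 3) 2 1 1) :=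
  ⟨X2, !![1, 2, 0, 1; 0, 1, 0, 1; 0, 1, 0, 2; 0, 1, 2, 2], det2, tv2,
    ptv6 (X2 := !![1, 2, 2, 2; 0, 2, 2, 0; 0, 0, 1, 2; 0, 2, 1, 0]) (X4 := !![1, 1, 1, 0; 0, 1, 0, 1; 0, 1, 0, 2; 0, 1, 2, 2])
    (u := ![1, 0, 0, 0]) (φ := ![0, 1, 2, 1]) (by decide) (by decide) (by decide) (by decide) (by decide) (by decide), by decide⟩

private theorem g1_2_2_1_2 : Good (C1 (2 : ZMod 3) 2 1 2) :=
  ⟨X0, !![1, 2, 2, 1; 0, 1, 1, 0; 0, 0, 2, 2; 0, 0, 1, 0], det0, tv0,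
    ptv6 (X2 := !![1, 1, 0, 2; 0, 1, 0, 2; 0, 0, 0, 1; 0, 0, 2, 2]) (X4 := !![1, 2, 1, 2; 0, 1, 1, 0; 0, 0, 2, 2; 0, 0, 1, 0])
    (u := ![1, 0, 0, 0]) (φ := ![0, 0, 1, 2]) (by decide) (by decide) (by decide) (by decide) (by decide) (by decide), by decide⟩

private theorem g2_2_2_1_2_0 : Good (C2 (2 : ZMod 3) 2 1 2 0) :=
  ⟨X0, !![1, 2, 0, 1; 0, 1, 1, 2; 0, 0, 1, 1; 0, 0, 1, 2], det0, tv0,
    ptv8 (X2 := !![1, 1, 0, 1; 0, 1, 1, 1; 0, 0, 2, 0; 0, 0, 0, 2]) (X4 := !![1, 2, 1, 1; 0, 1, 0, 0; 0, 0, 1, 0; 0, 0, 0, 1])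
    (u := ![1, 0, 0, 0]) (φ := ![0, 1, 2, 2]) (by decide) (by decide) (by decide) (by decide) (by decide) (by decide), by decide⟩

private theorem g2_2_2_1_2_1 : Good (C2 (2 : ZMod 3) 2 1 2 1) :=
  ⟨X0, !![1, 2, 0, 2; 0, 1, 1, 2; 0, 0, 1, 0; 0, 0, 1, 1], det0, tv0,
    ptv6 (X2 := !![1, 1, 1, 2; 0, 1, 1, 1; 0, 0, 1, 0; 0, 0, 2, 1]) (X4 := !![1, 2, 1, 2; 0, 1, 1, 2; 0, 0, 1, 0; 0, 0, 1, 1])
    (u := ![1, 0, 0, 0]) (φ := ![0, 0, 2, 0]) (by decide) (by decide) (by decide) (by decide) (by decide) (by decide), by decide⟩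

private theorem g1_2_2_2_0 : Good (C1 (2 : ZMod 3) 2 2 0) :=
  ⟨X0, !![1, 2, 2, 2; 0, 1, 1, 2; 0, 0, 2, 1; 0, 0, 1, 1], det0, tv0,
    ptv8 (X2 := !![1, 1, 1, 1; 0, 1, 2, 2; 0, 0, 2, 0; 0, 0, 0, 2]) (X4 := !![1, 2, 2, 2; 0, 1, 0, 0; 0, 0, 1, 0; 0, 0, 0, 1])
    (u := ![1, 0, 0, 0]) (φ := ![0, 1, 1, 1]) (by decide) (by decide) (by decide) (by decide) (by decide) (by decide), by decide⟩

private theorem g3_2_2_2_0 : Good (C3 (2 : ZMod 3) 2 2 0) :=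
  ⟨X1, !![1, 0, 2, 2; 0, 0, 0, 2; 2, 0, 2, 0; 0, 1, 0, 2], det1, tv1,
    ptv8 (X2 := !![2, 2, 0, 0; 0, 2, 0, 1; 0, 0, 2, 1; 0, 2, 0, 0]) (X4 := !![1, 2, 0, 2; 0, 0, 0, 2; 0, 2, 1, 2; 0, 1, 0, 2])
    (u := ![1, 1, 1, 2]) (φ := ![0, 1, 0, 1]) (by decide) (by decide) (by decide) (by decide) (by decide) (by decide), by decide⟩

private theorem g1_2_2_2_1 : Good (C1 (2 : ZMod 3) 2 2 1) :=
  ⟨X1, !![1, 1, 2, 1; 0, 1, 0, 2; 2, 0, 2, 2; 0, 1, 0, 0], det1, tv1,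
    ptv8 (X2 := !![2, 0, 0, 1; 0, 0, 0, 2; 0, 1, 2, 0; 0, 1, 0, 2]) (X4 := !![1, 1, 0, 1; 0, 2, 0, 1; 0, 2, 1, 2; 0, 2, 0, 0])
    (u := ![1, 1, 2, 2]) (φ := ![0, 2, 0, 2]) (by decide) (by decide) (by decide) (by decide) (by decide) (by decide), by decide⟩

private theorem g3_2_2_2_1 : Good (C3 (2 : ZMod 3) 2 2 1) :=
  ⟨X1, !![1, 0, 2, 1; 0, 0, 0, 2; 2, 0, 2, 2; 0, 1, 0, 2], det1, tv1,
    ptv8 (X2 := !![2, 1, 0, 1; 0, 2, 0, 1; 0, 2, 2, 1; 0, 2, 0, 0]) (X4 := !![1, 0, 0, 0; 0, 0, 0, 2; 0, 1, 1, 1; 0, 1, 0, 2])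
    (u := ![0, 1, 2, 2]) (φ := ![0, 1, 0, 1]) (by decide) (by decide) (by decide) (by decide) (by decide) (by decide), by decide⟩

private theorem g1_2_2_2_2 : Good (C1 (2 : ZMod 3) 2 2 2) :=
  ⟨X0, !![1, 2, 2, 0; 0, 1, 1, 1; 0, 0, 2, 2; 0, 0, 1, 0], det0, tv0,
    ptv6 (X2 := !![1, 1, 2, 0; 0, 1, 1, 0; 0, 0, 0, 1; 0, 0, 2, 2]) (X4 := !![1, 2, 0, 2; 0, 1, 1, 1; 0, 0, 2, 2; 0, 0, 1, 0])
    (u := ![1, 0, 0, 0]) (φ := ![0, 0, 2, 1]) (by decide) (by decide) (by decide) (by decide) (by decide) (by decide), by decide⟩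

private theorem g2_2_2_2_2_0 : Good (C2 (2 : ZMod 3) 2 2 2 0) :=
  ⟨X0, !![1, 2, 2, 1; 0, 1, 2, 2; 0, 0, 1, 1; 0, 0, 1, 2], det0, tv0,
    ptv8 (X2 := !![1, 1, 0, 0; 0, 1, 0, 2; 0, 0, 2, 0; 0, 0, 0, 2]) (X4 := !![1, 2, 0, 2; 0, 1, 0, 0; 0, 0, 1, 0; 0, 0, 0, 1])
    (u := ![1, 0, 0, 0]) (φ := ![0, 1, 0, 1]) (by decide) (by decide) (by decide) (by decide) (by decide) (by decide), by decide⟩

private theorem g2_2_2_2_2_1 : Good (C2 (2 : ZMod 3) 2 2 2 1) :=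
  ⟨X0, !![1, 2, 2, 2; 0, 1, 2, 2; 0, 0, 1, 0; 0, 0, 1, 1], det0, tv0,
    ptv6 (X2 := !![1, 1, 1, 2; 0, 1, 0, 1; 0, 0, 1, 0; 0, 0, 2, 1]) (X4 := !![1, 2, 0, 2; 0, 1, 2, 2; 0, 0, 1, 0; 0, 0, 1, 1])
    (u := ![1, 0, 0, 0]) (φ := ![0, 0, 2, 0]) (by decide) (by decide) (by decide) (by decide) (by decide) (by decide), by decide⟩

private theorem g3_2_2_2_2 : Good (C3 (2 : ZMod 3) 2 2 2) :=
  ⟨X1, !![1, 0, 2, 0; 0, 0, 0, 2; 2, 0, 2, 1; 0, 1, 0, 2], det1, tv1,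
    ptv8 (X2 := !![2, 0, 0, 2; 0, 2, 0, 1; 0, 1, 2, 1; 0, 2, 0, 0]) (X4 := !![1, 1, 0, 1; 0, 0, 0, 2; 0, 0, 1, 0; 0, 1, 0, 2])
    (u := ![1, 2, 0, 1]) (φ := ![0, 2, 0, 2]) (by decide) (by decide) (by decide) (by decide) (by decide) (by decide), by decide⟩

private theorem g4_2_0_1_0 : Good (C4 (2 : ZMod 3) 0 1 0) :=
  ⟨X1, !![1, 1, 1, 2; 0, 0, 1, 0; 2, 2, 0, 2; 0, 1, 1, 0], det1, tv1,
    ptv6 (X2 := !![0, 2, 1, 1; 2, 2, 0, 2; 2, 1, 0, 1; 2, 2, 1, 2]) (X4 := !![2, 1, 1, 1; 2, 0, 1, 1; 1, 2, 0, 0; 1, 1, 1, 2])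
    (u := ![1, 2, 2, 1]) (φ := ![2, 0, 0, 1]) (by decide) (by decide) (by decide) (by decide) (by decide) (by decide), by decide⟩

private theorem g4_2_0_1_1 : Good (C4 (2 : ZMod 3) 0 1 1) :=
  ⟨X1, !![1, 1, 0, 2; 0, 0, 1, 0; 2, 2, 1, 2; 0, 1, 0, 0], det1, tv1,
    ptv8 (X2 := !![1, 0, 1, 2; 2, 2, 1, 2; 1, 0, 0, 0; 0, 0, 1, 0]) (X4 := !![2, 0, 0, 2; 1, 1, 0, 2; 1, 0, 1, 2; 1, 0, 0, 0])
    (u := ![1, 1, 1, 1]) (φ := ![2, 0, 0, 1]) (by decide) (by decide) (by decide) (by decide) (by decide) (by decide), by decide⟩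

private theorem g4_2_0_2_0 : Good (C4 (2 : ZMod 3) 0 2 0) :=
  ⟨X1, !![1, 1, 2, 1; 0, 0, 2, 0; 2, 2, 0, 1; 0, 1, 2, 0], det1, tv1,
    ptv8 (X2 := !![2, 0, 0, 0; 1, 1, 0, 2; 2, 0, 1, 2; 1, 1, 2, 2]) (X4 := !![1, 0, 0, 0; 2, 0, 1, 0; 2, 2, 2, 0; 0, 0, 0, 1])
    (u := ![0, 1, 1, 0]) (φ := ![1, 1, 2, 0]) (by decide) (by decide) (by decide) (by decide) (by decide) (by decide), by decide⟩

private theorem g4_2_0_2_1 : Good (C4 (2 : ZMod 3) 0 2 1) :=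
  ⟨X0, !![1, 2, 2, 1; 0, 0, 2, 2; 0, 1, 2, 1; 0, 1, 2, 2], det0, tv0,
    ptv8 (X2 := !![1, 2, 0, 0; 0, 1, 2, 0; 0, 0, 2, 0; 0, 1, 1, 2]) (X4 := !![1, 1, 1, 0; 0, 1, 0, 0; 0, 0, 1, 0; 0, 0, 0, 1])
    (u := ![1, 0, 0, 0]) (φ := ![0, 2, 2, 0]) (by decide) (by decide) (by decide) (by decide) (by decide) (by decide), by decide⟩

private theorem g4_2_1_1_0 : Good (C4 (2 : ZMod 3) 1 1 0) :=
  ⟨X3, !![0, 0, 1, 2; 1, 1, 1, 0; 1, 2, 1, 0; 2, 0, 0, 0], det3, tv3,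
    ptv6 (X2 := !![2, 2, 1, 0; 2, 0, 0, 2; 0, 1, 1, 2; 0, 0, 2, 1]) (X4 := !![2, 2, 0, 0; 1, 1, 0, 2; 2, 1, 2, 0; 0, 2, 1, 2])
    (u := ![1, 1, 0, 1]) (φ := ![1, 1, 2, 1]) (by decide) (by decide) (by decide) (by decide) (by decide) (by decide), by decide⟩

private theorem g4_2_1_1_1 : Good (C4 (2 : ZMod 3) 1 1 1) :=
  ⟨X1, !![1, 2, 0, 2; 0, 0, 1, 0; 2, 1, 1, 2; 0, 1, 0, 0], det1, tv1,
    ptv6 (X2 := !![1, 1, 2, 2; 2, 1, 1, 2; 1, 1, 2, 0; 0, 0, 1, 0]) (X4 := !![2, 1, 0, 1; 2, 1, 0, 0; 2, 1, 1, 1; 1, 1, 2, 0])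
    (u := ![0, 1, 2, 2]) (φ := ![1, 2, 2, 0]) (by decide) (by decide) (by decide) (by decide) (by decide) (by decide), by decide⟩

private theorem g4_2_1_2_0 : Good (C4 (2 : ZMod 3) 1 2 0) :=
  ⟨X2, !![1, 1, 1, 0; 0, 0, 2, 0; 0, 1, 2, 0; 0, 2, 2, 1], det2, tv2,
    ptv8 (X2 := !![1, 2, 2, 0; 0, 2, 1, 0; 0, 2, 0, 0; 0, 1, 1, 1]) (X4 := !![1, 1, 1, 0; 0, 0, 2, 0; 0, 1, 2, 0; 0, 2, 2, 1])
    (u := ![1, 2, 1, 2]) (φ := ![0, 2, 2, 0]) (by decide) (by decide) (by decide) (by decide) (by decide) (by decide), by decide⟩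

private theorem g4_2_1_2_1 : Good (C4 (2 : ZMod 3) 1 2 1) :=
  ⟨X0, !![1, 0, 2, 1; 0, 0, 2, 2; 0, 1, 2, 1; 0, 1, 2, 2], det0, tv0,
    ptv8 (X2 := !![1, 0, 2, 2; 0, 1, 2, 0; 0, 0, 2, 0; 0, 1, 1, 2]) (X4 := !![1, 2, 2, 0; 0, 1, 0, 0; 0, 0, 1, 0; 0, 0, 0, 1])
    (u := ![1, 0, 0, 0]) (φ := ![0, 1, 1, 0]) (by decide) (by decide) (by decide) (by decide) (by decide) (by decide), by decide⟩

private theorem g4_2_2_1_0 : Good (C4 (2 : ZMod 3) 2 1 0) :=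
  ⟨X1, !![1, 0, 1, 2; 0, 0, 1, 0; 2, 0, 0, 2; 0, 1, 1, 0], det1, tv1,
    ptv8 (X2 := !![0, 2, 0, 1; 2, 0, 0, 2; 2, 2, 1, 1; 2, 0, 1, 2]) (X4 := !![0, 0, 1, 0; 1, 1, 2, 0; 2, 0, 2, 0; 0, 0, 0, 1])
    (u := ![1, 2, 1, 0]) (φ := ![1, 0, 2, 0]) (by decide) (by decide) (by decide) (by decide) (by decide) (by decide), by decide⟩

private theorem g4_2_2_1_1 : Good (C4 (2 : ZMod 3) 2 1 1) :=
  ⟨X2, !![1, 2, 2, 0; 0, 0, 1, 0; 0, 1, 0, 0; 0, 2, 2, 2], det2, tv2,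
    ptv8 (X2 := !![1, 1, 1, 0; 0, 1, 0, 0; 0, 0, 1, 0; 0, 0, 0, 1]) (X4 := !![1, 2, 2, 0; 0, 1, 0, 0; 0, 0, 1, 0; 0, 0, 0, 1])
    (u := ![1, 0, 0, 0]) (φ := ![0, 1, 1, 0]) (by decide) (by decide) (by decide) (by decide) (by decide) (by decide), by decide⟩

private theorem g4_2_2_2_0 : Good (C4 (2 : ZMod 3) 2 2 0) :=
  ⟨X0, !![1, 1, 1, 1; 0, 0, 2, 2; 0, 1, 0, 1; 0, 1, 0, 2], det0, tv0,
    ptv8 (X2 := !![1, 0, 0, 0; 0, 1, 0, 0; 0, 1, 2, 1; 0, 2, 2, 0]) (X4 := !![1, 0, 0, 0; 0, 1, 0, 0; 0, 2, 0, 2; 0, 1, 1, 2])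
    (u := ![0, 0, 1, 2]) (φ := ![0, 1, 1, 1]) (by decide) (by decide) (by decide) (by decide) (by decide) (by decide), by decide⟩

private theorem g4_2_2_2_1 : Good (C4 (2 : ZMod 3) 2 2 1) :=
  ⟨X2, !![1, 2, 1, 0; 0, 0, 2, 0; 0, 1, 1, 0; 0, 2, 0, 1], det2, tv2,
    ptv8 (X2 := !![1, 0, 0, 0; 0, 2, 2, 0; 0, 1, 0, 0; 0, 2, 1, 1]) (X4 := !![1, 0, 0, 0; 0, 0, 1, 0; 0, 2, 2, 0; 0, 1, 2, 1])
    (u := ![0, 1, 1, 2]) (φ := ![0, 1, 2, 0]) (by decide) (by decide) (by decide) (by decide) (by decide) (by decide), by decide⟩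

theorem good1 : ∀ a b c d : ZMod 3, -a = 1 → Good (C1 a b c d) :=
  (all3 (all3 (all3 (all3 (fun h => absurd h (by decide)) (fun h => absurd h (by decide)) (fun h => absurd h (by decide))) (all3 (fun h => absurd h (by decide)) (fun h => absurd h (by decide)) (fun h => absurd h (by decide))) (all3 (fun h => absurd h (by decide)) (fun h => absurd h (by decide)) (fun h => absurd h (by decide)))) (all3 (all3 (fun h => absurd h (by decide)) (fun h => absurd h (by decide)) (fun h => absurd h (by decide))) (all3 (fun h => absurd h (by decide)) (fun h => absurd h (by decide)) (fun h => absurd h (by decide))) (all3 (fun h => absurd h (by decide)) (fun h => absurd h (by decide)) (fun h => absurd h (by decide)))) (all3 (all3 (fun h => absurd h (by decide)) (fun h => absurd h (by decide)) (fun h => absurd h (by decide))) (all3 (fun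 h => absurd h (by decide)) (fun h => absurd h (by decide)) (fun h => absurd h (by decide))) (all3 (fun h => absurd h (by decide)) (fun h => absurd h (by decide)) (fun h => absurd h (by decide))))) (all3 (all3 (all3 (fun h => absurd h (by decide)) (fun h => absurd h (by decide)) (fun h => absurd h (by decide))) (all3 (fun h => absurd h (by decide)) (fun h => absurd h (by decide)) (fun h => absurd h (by decide))) (all3 (fun h => absurd h (by decide)) (fun h => absurd h (by decide)) (fun h => absurd h (by decide)))) (all3 (all3 (fun h => absurd h (by decide)) (fun h => absurd h (by decide)) (fun h => absurd h (by decide))) (all3 (fun h => absurd h (by decide)) (fun h => absurd h (by decide)) (fun h => absurd h (by decide))) (all3 (fun h => absurd h (by decide)) (fun h => absurd h (by decide)) (fun h => absurd h (by decide))))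 (all3 (all3 (fun h => absurd h (by decide)) (fun h => absurd h (by decide)) (fun h => absurd h (by decide))) (all3 (fun h => absurd h (by decide)) (fun h => absurd h (by decide)) (fun h => absurd h (by decide))) (all3 (fun h => absurd h (by decide)) (fun h => absurd h (by decide)) (fun h => absurd h (by decide))))) (all3 (all3 (all3 (fun _ => g1_2_0_0_0) (fun _ => g1_2_0_0_1) (fun _ => g1_2_0_0_2)) (all3 (fun _ => g1_2_0_1_0) (fun _ => g1_2_0_1_1) (fun _ => g1_2_0_1_2)) (all3 (fun _ => g1_2_0_2_0) (fun _ => g1_2_0_2_1) (fun _ => g1_2_0_2_2))) (all3 (all3 (fun _ => g1_2_1_0_0) (fun _ => g1_2_1_0_1) (fun _ => g1_2_1_0_2)) (all3 (fun _ => g1_2_1_1_0) (fun _ => g1_2_1_1_1) (fun _ => g1_2_1_1_2)) (all3 (fun _ => g1_2_1_2_0) (fun _ => g1_2_1_2_1) (fun _ => g1_2_1_2_2))) (all3 (all3 (fun _ => g1_2_2_0_0) (fun _ => g1_2_2_0_1)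 (fun _ => g1_2_2_0_2)) (all3 (fun _ => g1_2_2_1_0) (fun _ => g1_2_2_1_1) (fun _ => g1_2_2_1_2)) (all3 (fun _ => g1_2_2_2_0) (fun _ => g1_2_2_2_1) (fun _ => g1_2_2_2_2)))))

theorem good2 : ∀ a b c d : ZMod 3, a * d = 1 → Good (C2 a b c d 0) ∧ Good (C2 a b c d 1) :=
  (all3 (all3 (all3 (all3 (fun h => absurd h (by decide)) (fun h => absurd h (by decide)) (fun h => absurd h (by decide))) (all3 (fun h => absurd h (by decide)) (fun h => absurd h (by decide)) (fun h => absurd h (by decide))) (all3 (fun h => absurd h (by decide)) (fun h => absurd h (by decide)) (fun h => absurd h (by decide)))) (all3 (all3 (fun h => absurd h (by decide)) (fun h => absurd h (by decide)) (fun h => absurd h (by decide))) (all3 (fun h => absurd h (by decide)) (fun h => absurd h (by decide)) (fun h => absurd h (by decide))) (all3 (fun h => absurd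 h (by decide)) (fun h => absurd h (by decide)) (fun h => absurd h (by decide)))) (all3 (all3 (fun h => absurd h (by decide)) (fun h => absurd h (by decide)) (fun h => absurd h (by decide))) (all3 (fun h => absurd h (by decide)) (fun h => absurd h (by decide)) (fun h => absurd h (by decide))) (all3 (fun h => absurd h (by decide)) (fun h => absurd h (by decide)) (fun h => absurd h (by decide))))) (all3 (all3 (all3 (fun h => absurd h (by decide)) (fun _ => ⟨g2_1_0_0_1_0, g2_1_0_0_1_1⟩) (fun h => absurd h (by decide))) (all3 (fun h => absurd h (by decide)) (fun _ => ⟨g2_1_0_1_1_0, g2_1_0_1_1_1⟩) (fun h => absurd h (by decide))) (all3 (fun h => absurd h (by decide)) (fun _ => ⟨g2_1_0_2_1_0, g2_1_0_2_1_1⟩) (fun h => absurd h (by decide)))) (all3 (all3 (fun h => absurd h (by decide)) (fun _ => ⟨g2_1_1_0_1_0, g2_1_1_0_1_1⟩) (fun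 h => absurd h (by decide))) (all3 (fun h => absurd h (by decide)) (fun _ => ⟨g2_1_1_1_1_0, g2_1_1_1_1_1⟩) (fun h => absurd h (by decide))) (all3 (fun h => absurd h (by decide)) (fun _ => ⟨g2_1_1_2_1_0, g2_1_1_2_1_1⟩) (fun h => absurd h (by decide)))) (all3 (all3 (fun h => absurd h (by decide)) (fun _ => ⟨g2_1_2_0_1_0, g2_1_2_0_1_1⟩) (fun h => absurd h (by decide))) (all3 (fun h => absurd h (by decide)) (fun _ => ⟨g2_1_2_1_1_0, g2_1_2_1_1_1⟩) (fun h => absurd h (by decide))) (all3 (fun h => absurd h (by decide)) (fun _ => ⟨g2_1_2_2_1_0, g2_1_2_2_1_1⟩) (fun h => absurd h (by decide))))) (all3 (all3 (all3 (fun h => absurd h (by decide)) (fun h => absurd h (by decide)) (fun _ => ⟨g2_2_0_0_2_0, g2_2_0_0_2_1⟩)) (all3 (fun h => absurd h (by decide)) (fun h => absurd h (by decide)) (fun _ => ⟨g2_2_0_1_2_0, g2_2_0_1_2_1⟩)) (all3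 (fun h => absurd h (by decide)) (fun h => absurd h (by decide)) (fun _ => ⟨g2_2_0_2_2_0, g2_2_0_2_2_1⟩))) (all3 (all3 (fun h => absurd h (by decide)) (fun h => absurd h (by decide)) (fun _ => ⟨g2_2_1_0_2_0, g2_2_1_0_2_1⟩)) (all3 (fun h => absurd h (by decide)) (fun h => absurd h (by decide)) (fun _ => ⟨g2_2_1_1_2_0, g2_2_1_1_2_1⟩)) (all3 (fun h => absurd h (by decide)) (fun h => absurd h (by decide)) (fun _ => ⟨g2_2_1_2_2_0, g2_2_1_2_2_1⟩))) (all3 (all3 (fun h => absurd h (by decide)) (fun h => absurd h (by decide)) (fun _ => ⟨g2_2_2_0_2_0, g2_2_2_0_2_1⟩)) (all3 (fun h => absurd h (by decide)) (fun h => absurd h (by decide)) (fun _ => ⟨g2_2_2_1_2_0, g2_2_2_1_2_1⟩)) (all3 (fun h => absurd h (by decide)) (fun h => absurd h (by decide)) (fun _ => ⟨g2_2_2_2_2_0, g2_2_2_2_2_1⟩)))))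

theorem good3 : ∀ a b c d : ZMod 3, a * c = 1 → Good (C3 a b c d) :=
  (all3 (all3 (all3 (all3 (fun h => absurd h (by decide)) (fun h => absurd h (by decide)) (fun h => absurd h (by decide))) (all3 (fun h => absurd h (by decide)) (fun h => absurd h (by decide)) (fun h => absurd h (by decide))) (all3 (fun h => absurd h (by decide)) (fun h => absurd h (by decide)) (fun h => absurd h (by decide)))) (all3 (all3 (fun h => absurd h (by decide)) (fun h => absurd h (by decide)) (fun h => absurd h (by decide))) (all3 (fun h => absurd h (by decide)) (fun h => absurd h (by decide)) (fun h => absurd h (by decide))) (all3 (fun h => absurd h (by decide)) (fun h => absurd h (by decide)) (fun h => absurd h (by decide)))) (all3 (all3 (fun h => absurd h (by decide)) (fun h => absurd h (by decide)) (fun h => absurd h (by decide))) (all3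 (fun h => absurd h (by decide)) (fun h => absurd h (by decide)) (fun h => absurd h (by decide))) (all3 (fun h => absurd h (by decide)) (fun h => absurd h (by decide)) (fun h => absurd h (by decide))))) (all3 (all3 (all3 (fun h => absurd h (by decide)) (fun h => absurd h (by decide)) (fun h => absurd h (by decide))) (all3 (fun _ => g3_1_0_1_0) (fun _ => g3_1_0_1_1) (fun _ => g3_1_0_1_2)) (all3 (fun h => absurd h (by decide)) (fun h => absurd h (by decide)) (fun h => absurd h (by decide)))) (all3 (all3 (fun h => absurd h (by decide)) (fun h => absurd h (by decide)) (fun h => absurd h (by decide))) (all3 (fun _ => g3_1_1_1_0) (fun _ => g3_1_1_1_1) (fun _ => g3_1_1_1_2)) (all3 (fun h => absurd h (by decide)) (fun h => absurd h (by decide)) (fun h => absurd h (by decide)))) (all3 (all3 (fun h => absurd h (by decide)) (fun h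 => absurd h (by decide)) (fun h => absurd h (by decide))) (all3 (fun _ => g3_1_2_1_0) (fun _ => g3_1_2_1_1) (fun _ => g3_1_2_1_2)) (all3 (fun h => absurd h (by decide)) (fun h => absurd h (by decide)) (fun h => absurd h (by decide))))) (all3 (all3 (all3 (fun h => absurd h (by decide)) (fun h => absurd h (by decide)) (fun h => absurd h (by decide))) (all3 (fun h => absurd h (by decide)) (fun h => absurd h (by decide)) (fun h => absurd h (by decide))) (all3 (fun _ => g3_2_0_2_0) (fun _ => g3_2_0_2_1) (fun _ => g3_2_0_2_2))) (all3 (all3 (fun h => absurd h (by decide)) (fun h => absurd h (by decide)) (fun h => absurd h (by decide))) (all3 (fun h => absurd h (by decide)) (fun h => absurd h (by decide)) (fun h => absurd h (by decide))) (all3 (fun _ => g3_2_1_2_0) (fun _ => g3_2_1_2_1) (fun _ => g3_2_1_2_2))) (all3 (all3 (fun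 h => absurd h (by decide)) (fun h => absurd h (by decide)) (fun h => absurd h (by decide))) (all3 (fun h => absurd h (by decide)) (fun h => absurd h (by decide)) (fun h => absurd h (by decide))) (all3 (fun _ => g3_2_2_2_0) (fun _ => g3_2_2_2_1) (fun _ => g3_2_2_2_2)))))

theorem good4 : ∀ a b c : ZMod 3, -(a * c ^ 2) = 1 → Good (C4 a b c 0) ∧ Good (C4 a b c 1) :=
  (all3 (all3 (all3 (fun h => absurd h (by decide)) (fun h => absurd h (by decide)) (fun h => absurd h (by decide))) (all3 (fun h => absurd h (by decide)) (fun h => absurd h (by decide)) (fun h => absurd h (by decide))) (all3 (fun h => absurd h (by decide)) (fun h => absurd h (by decide)) (fun h => absurd h (by decide)))) (all3 (all3 (fun h => absurd h (by decide)) (fun h => absurd h (by decide)) (fun h => absurd h (by decide))) (all3 (fun h => absurd h (by decide))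 (fun h => absurd h (by decide)) (fun h => absurd h (by decide))) (all3 (fun h => absurd h (by decide)) (fun h => absurd h (by decide)) (fun h => absurd h (by decide)))) (all3 (all3 (fun h => absurd h (by decide)) (fun _ => ⟨g4_2_0_1_0, g4_2_0_1_1⟩) (fun _ => ⟨g4_2_0_2_0, g4_2_0_2_1⟩)) (all3 (fun h => absurd h (by decide)) (fun _ => ⟨g4_2_1_1_0, g4_2_1_1_1⟩) (fun _ => ⟨g4_2_1_2_0, g4_2_1_2_1⟩)) (all3 (fun h => absurd h (by decide)) (fun _ => ⟨g4_2_2_1_0, g4_2_2_1_1⟩) (fun _ => ⟨g4_2_2_2_0, g4_2_2_2_1⟩))))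

end Pool.Agent.SLM.Z4q3
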