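import Pool.Agent.SLM.Z4q2
import Pool.Agent.SLM.Z4q3
import Pool.Agent.SLM.Norm4

/-! Every nonscalar element of `SL_4(2)` and of `SL_4(3)` is a product of two elements with a power
which is a transvection (helper67). -/

set_option autoImplicit false

namespace Pool.Agent.SLM

open Matrix Pool.Agent.SLN

theorem PTv.map {F F' : Type*} [Field F] [Field F'] (f : F →+* F') {X : M4 F} (h : PTv X) :
    PTv (f.mapMatrix X) := by
  obtain ⟨k, u, φ, hφ, hu, hd, hX⟩ := h
  refine ⟨k, f ∘ u, f ∘ φ, ?_, ?_, ?_, ?_⟩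
  · intro h0
    apply hφ
    ext i
    exact (map_eq_zero f).1 (congrFun h0 i)
  · intro h0
    apply hu
    ext i
    exact (map_eq_zero f).1 (congrFun h0 i)
  · have h1 := congrArg f hd
    rw [map_zero] at h1
    rw [← h1]
    simp [dotProduct]
  · rw [← map_pow, hX, map_add, map_one]
    congr 1
    ext i j
    simp [vecMulVec_apply]

theorem Good.map {F F' : Type*} [Field F] [Field F'] (f : F →+* F') {C : M4 F} (h : Good C) :
    Good (f.mapMatrix C) := by
  obtain ⟨X, Y, hX, hXt, hYt, hXY⟩ := h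
  refine ⟨f.mapMatrix X, f.mapMatrix Y, ?_, hXt.map f, hYt.map f, ?_⟩
  · rw [← RingHom.map_det, hX, map_one]
  · rw [← map_mul, hXY]

theorem PTv.conj {F : Type*} [Field F] {X P : M4 F} (hP : IsUnit P.det) (h : PTv X) :
    PTv (P * X * P⁻¹) := by
  obtain ⟨k, u, φ, hφ, hu, hd, hX⟩ := h
  have h1 : P * P⁻¹ = 1 := Matrix.mul_nonsing_inv P hP
  have h2 : P⁻¹ * P = 1 := Matrix.nonsing_inv_mul P hP
  refine ⟨k, P *ᵥ u, φ ᵥ* P⁻¹, ?_, ?_, ?_, ?_⟩
  · intro h0
    apply hφ
    have h3 : (φ ᵥ* P⁻¹) ᵥ* P = φ := by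
      rw [Matrix.vecMul_vecMul, h2, Matrix.vecMul_one]
    rw [← h3, h0, Matrix.zero_vecMul]
  · intro h0
    apply hu
    have h3 : P⁻¹ *ᵥ (P *ᵥ u) = u := by
      rw [Matrix.mulVec_mulVec, h2, Matrix.one_mulVec]
    rw [← h3, h0, Matrix.mulVec_zero]
  · rw [← Matrix.dotProduct_mulVec, Matrix.mulVec_mulVec, h2, Matrix.one_mulVec]
    exact hd
  · have h3 : ∀ k : ℕ, (P * X * P⁻¹) ^ k = P * X ^ k * P⁻¹ := by
      intro k
      induction k with
      | zero => simp [h1]
      | succ k ih =>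
        rw [pow_succ, ih, pow_succ]
        calc P * X ^ k * P⁻¹ * (P * X * P⁻¹) = P * X ^ k * (P⁻¹ * P) * X * P⁻¹ := by
              simp only [Matrix.mul_assoc]
          _ = P * (X ^ k * X) * P⁻¹ := by
              rw [h2, Matrix.mul_one]
              simp only [Matrix.mul_assoc]
    rw [h3, hX, Matrix.mul_add, Matrix.add_mul, Matrix.mul_one, h1, Matrix.mul_vecMulVec,
      Matrix.vecMulVec_mul]

theorem hasTv_of_PTv {F : Type*} [Field F] {x : SLn 4 F} (h : PTv x.1) : HasTv x := by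
  obtain ⟨k, u, φ, hφ, hu, hd, hX⟩ := h
  refine ⟨k, φ, u, hφ, hu, hd, fun v => ?_⟩
  rw [Matrix.SpecialLinearGroup.coe_pow, hX, Matrix.add_mulVec, Matrix.one_mulVec,
    Matrix.vecMulVec_mulVec]
  congr 1
  ext j
  simp [mul_comm]

theorem Good.fac {F : Type*} [Field F] {A : SLn 4 F} {P C : M4 F} (hP : IsUnit P.det)
    (hAP : A.1 * P = P * C) (h : Good C) :
    ∃ x y : SLn 4 F, HasTv x ∧ HasTv y ∧ x * y = A := by
  obtain ⟨X, Y, hX, hXt, hYt, hXY⟩ := h
  have h1 : P * P⁻¹ = 1 := Matrix.mul_nonsing_inv P hP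
  have h2 : P⁻¹ * P = 1 := Matrix.nonsing_inv_mul P hP
  have hx : (P * X * P⁻¹).det = 1 := by
    rw [Matrix.det_mul, Matrix.det_mul, hX, mul_one, ← Matrix.det_mul, h1, Matrix.det_one]
  have hxy : (P * X * P⁻¹) * (P * Y * P⁻¹) = A.1 := by
    calc (P * X * P⁻¹) * (P * Y * P⁻¹) = P * X * (P⁻¹ * P) * Y * P⁻¹ := by
          simp only [Matrix.mul_assoc]
      _ = P * (X * Y) * P⁻¹ := by
          rw [h2, Matrix.mul_one]
          simp only [Matrix.mul_assoc]
      _ = A.1 := by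
          rw [hXY, ← hAP, Matrix.mul_assoc, h1, Matrix.mul_one]
  have hy : (P * Y * P⁻¹).det = 1 := by
    have h3 := congrArg Matrix.det hxy
    rw [Matrix.det_mul, hx, one_mul] at h3
    rw [h3]
    exact A.2
  refine ⟨⟨_, hx⟩, ⟨_, hy⟩, hasTv_of_PTv (hXt.conj hP), hasTv_of_PTv (hYt.conj hP), ?_⟩
  exact Subtype.ext hxy

private theorem sa1 : Fin.succAbove (1 : Fin 4) (2 : Fin 3) = 3 := by decide
private theorem sa2 : Fin.succAbove (2 : Fin 4) (2 : Fin 3) = 3 := by decide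
private theorem sa3 : Fin.succAbove (3 : Fin 4) (2 : Fin 3) = 2 := by decide

theorem det_C1 {F : Type*} [Field F] (a b c d : F) : (C1 a b c d).det = -a := by
  simp [C1, Matrix.det_succ_row_zero, Fin.sum_univ_succ, sa1, sa2, sa3]
  ring

theorem det_C2 {F : Type*} [Field F] (a b c d e : F) : (C2 a b c d e).det = a * d := by
  simp [C2, Matrix.det_succ_row_zero, Fin.sum_univ_succ, sa1, sa2, sa3]

theorem det_C3 {F : Type*} [Field F] (a b c d : F) : (C3 a b c d).det = a * c := by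
  simp [C3, Matrix.det_succ_row_zero, Fin.sum_univ_succ, sa1, sa2, sa3]

theorem det_C4 {F : Type*} [Field F] (a b c e : F) : (C4 a b c e).det = -(a * c ^ 2) := by
  simp [C4, Matrix.det_succ_row_zero, Fin.sum_univ_succ, sa1, sa2, sa3]
  ring_nf
  simp

/-- the four families are good over `F` if they are over the prime field -/
theorem facZ4_of {F : Type*} [Field F] {p : ℕ} [Fact p.Prime] (e : ZMod p ≃+* F)
    (g1 : ∀ a b c d : ZMod p, -a = 1 → Good (C1 a b c d))
    (g2 : ∀ a b c d : ZMod p, a * d = 1 → Good (C2 a b c d 0) ∧ Good (C2 a b c d 1))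
    (g3 : ∀ a b c d : ZMod p, a * c = 1 → Good (C3 a b c d))
    (g4 : ∀ a b c : ZMod p, -(a * c ^ 2) = 1 → Good (C4 a b c 0) ∧ Good (C4 a b c 1))
    (A : SLn 4 F) (hA : ¬ Sc A) : ∃ x y : SLn 4 F, HasTv x ∧ HasTv y ∧ x * y = A := by
  obtain ⟨P, C, hP, hAP, hC⟩ := norm4 A.1 (fun a h => hA ⟨a, h⟩)
  have hdet : C.det = 1 := by
    have h1 := congrArg Matrix.det hAP
    rw [Matrix.det_mul, Matrix.det_mul, A.2, one_mul] at h1
    have h2 : P.det ≠ 0 := hP.ne_zero
    exact (mul_right_injective₀ h2 (by simpa using h1)).symm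
  refine Good.fac hP hAP ?_
  have hinv : ∀ a : F, ∃ a' : ZMod p, e a' = a := e.surjective
  rcases hC with ⟨a, b, c, d, rfl⟩ | ⟨a, b, c, d, ε, hε, rfl⟩ | ⟨a, b, c, d, rfl⟩ |
    ⟨a, b, c, ε, hε, rfl⟩
  · obtain ⟨a, rfl⟩ := hinv a
    obtain ⟨b, rfl⟩ := hinv b
    obtain ⟨c, rfl⟩ := hinv c
    obtain ⟨d, rfl⟩ := hinv d
    change (C1 (e a) (e b) (e c) (e d)).det = 1 at hdet
    rw [det_C1, ← map_neg, ← map_one e, e.injective.eq_iff] at hdet
    have h := (g1 a b c d hdet).map (e : ZMod p →+* F)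
    convert h using 1
    ext i j
    fin_cases i <;> fin_cases j <;> simp [C1]
  · obtain ⟨a, rfl⟩ := hinv a
    obtain ⟨b, rfl⟩ := hinv b
    obtain ⟨c, rfl⟩ := hinv c
    obtain ⟨d, rfl⟩ := hinv d
    change (C2 (e a) (e b) (e c) (e d) ε).det = 1 at hdet
    rw [det_C2, ← map_mul, ← map_one e, e.injective.eq_iff] at hdet
    rcases hε with rfl | rfl
    · have h := (g2 a b c d hdet).1.map (e : ZMod p →+* F)
      convert h using 1
      ext i j
      fin_cases i <;> fin_cases j <;> simp [C2]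
    · have h := (g2 a b c d hdet).2.map (e : ZMod p →+* F)
      convert h using 1
      ext i j
      fin_cases i <;> fin_cases j <;> simp [C2]
  · obtain ⟨a, rfl⟩ := hinv a
    obtain ⟨b, rfl⟩ := hinv b
    obtain ⟨c, rfl⟩ := hinv c
    obtain ⟨d, rfl⟩ := hinv d
    change (C3 (e a) (e b) (e c) (e d)).det = 1 at hdet
    rw [det_C3, ← map_mul, ← map_one e, e.injective.eq_iff] at hdet
    have h := (g3 a b c d hdet).map (e : ZMod p →+* F)
    convert h using 1
    ext i j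
    fin_cases i <;> fin_cases j <;> simp [C3]
  · obtain ⟨a, rfl⟩ := hinv a
    obtain ⟨b, rfl⟩ := hinv b
    obtain ⟨c, rfl⟩ := hinv c
    change (C4 (e a) (e b) (e c) ε).det = 1 at hdet
    rw [det_C4, ← map_pow, ← map_mul, ← map_neg, ← map_one e, e.injective.eq_iff] at hdet
    rcases hε with rfl | rfl
    · have h := (g4 a b c hdet).1.map (e : ZMod p →+* F)
      convert h using 1
      ext i j
      fin_cases i <;> fin_cases j <;> simp [C4]
    · have h := (g4 a b c hdet).2.map (e : ZMod p →+* F)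
      convert h using 1
      ext i j
      fin_cases i <;> fin_cases j <;> simp [C4]

theorem facZ4 {F : Type*} [Field F] [Finite F] (hF : Nat.card F = 2 ∨ Nat.card F = 3)
    (A : SLn 4 F) (hA : ¬ Sc A) : ∃ x y : SLn 4 F, HasTv x ∧ HasTv y ∧ x * y = A := by
  have : Fintype F := Fintype.ofFinite F
  rw [Nat.card_eq_fintype_card] at hF
  rcases hF with hF | hF
  · have : Fact (Nat.Prime 2) := ⟨Nat.prime_two⟩
    exact facZ4_of (ZMod.ringEquivOfPrime F Nat.prime_two hF) Z4q2.good1 Z4q2.good2 Z4q2.good3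
      Z4q2.good4 A hA
  · have : Fact (Nat.Prime 3) := ⟨Nat.prime_three⟩
    exact facZ4_of (ZMod.ringEquivOfPrime F Nat.prime_three hF) Z4q3.good1 Z4q3.good2 Z4q3.good3
      Z4q3.good4 A hA

end Pool.Agent.SLM
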