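import Pool.Agent.SLN.FacG
import Pool.Agent.SLN.Px

/-! # SLM / GFac: factorisation with a cyclic endomorphism on a hyperplane of one factor

`facg` with `B = F[X]/(g)`, `g` the characteristic polynomial of `Θ`; the orbit map
`p(root) ↦ p(Θ) η` is an isomorphism from `B` onto `E` carrying `root` to `Θ`. -/

set_option autoImplicit false

namespace Pool.Agent.SLM

open Polynomial Module Pool.Agent.SLN

theorem gfac_inv {F V : Type*} [Field F] [AddCommGroup V] [Module F V] (x : V →ₗ[F] V)
    (U : Submodule F V) (hU : ∀ v ∈ U, x v ∈ U) (p : F[X]) {v : V} (hv : v ∈ U) :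
    aeval x p v ∈ U := by
  induction p using Polynomial.induction_on' with
  | add p q hp hq =>
    rw [map_add, LinearMap.add_apply]
    exact U.add_mem hp hq
  | monomial n a =>
    rw [aeval_monomial, Module.End.mul_apply, Module.algebraMap_end_apply]
    apply U.smul_mem
    induction n with
    | zero =>
      rw [pow_zero]
      exact hv
    | succ n ih =>
      rw [pow_succ', Module.End.mul_apply]
      exact hU _ ih

/-- module GFac: helper60's factorisation for a cyclic Θ -/
theorem gfac {F V E : Type*} [Field F] [AddCommGroup V] [Module F V] [FiniteDimensional F V]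
    [AddCommGroup E] [Module F E] [FiniteDimensional F E]
    (hV : Module.finrank F V = Module.finrank F E + 1) (hE : 1 ≤ Module.finrank F E)
    (A : V ≃ₗ[F] V) (hA : ∀ c : F, ∃ v, A v ≠ c • v)
    (Θ : E ≃ₗ[F] E) (η : E)
    (hη : ∀ U : Submodule F E, η ∈ U → (∀ v ∈ U, Θ v ∈ U) → U = ⊤)
    (f : Polynomial F) (hf : f.Monic) (hfd : f.natDegree = Module.finrank F V)
    (hf0 : f.coeff 0 ≠ 0) :
    ∃ (x y : V ≃ₗ[F] V) (h : V) (ι : E →ₗ[F] V),
      (∀ v, y (x v) = A v) ∧
      (∀ U : Submodule F V, h ∈ U → (∀ v ∈ U, x v ∈ U) → U = ⊤) ∧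
      Polynomial.aeval (x : V →ₗ[F] V) f = 0 ∧
      Function.Injective ι ∧ (∀ e, y (ι e) = ι (Θ e)) := by
  set T : E →ₗ[F] E := (Θ : E →ₗ[F] E) with hT
  have hTv : ∀ v, T v = Θ v := fun v => rfl
  set g : F[X] := T.charpoly with hg
  have hgm : g.Monic := LinearMap.charpoly_monic T
  have hgd : g.natDegree = finrank F E := LinearMap.charpoly_natDegree T
  have hgT : aeval T g = 0 := LinearMap.aeval_self_charpoly T
  let pb := AdjoinRoot.powerBasis' hgm
  have hfinB : FiniteDimensional F (AdjoinRoot g) := pb.finite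
  have hrB : finrank F (AdjoinRoot g) = finrank F E := by
    rw [pb.finrank, ← hgd]
    rfl
  -- the orbit map
  let ev : F[X] →ₗ[F] E :=
    { toFun := fun p => aeval T p η
      map_add' := fun p p' => by rw [map_add, LinearMap.add_apply]
      map_smul' := fun c p => by rw [map_smul, LinearMap.smul_apply, RingHom.id_apply] }
  have hev : ∀ p, ev p = aeval T p η := fun p => rfl
  let orb : AdjoinRoot g →ₗ[F] E := ev.comp (AdjoinRoot.modByMonicHom hgm)
  have horb : ∀ p : F[X], orb (AdjoinRoot.mk g p) = aeval T p η := by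
    intro p
    show ev (AdjoinRoot.modByMonicHom hgm (AdjoinRoot.mk g p)) = _
    rw [AdjoinRoot.modByMonicHom_mk, hev]
    have h5 := modByMonic_add_div p g
    conv_rhs => rw [← h5]
    rw [map_add, LinearMap.add_apply, map_mul, hgT, zero_mul, LinearMap.zero_apply, add_zero]
  have hmul : ∀ z, orb (AdjoinRoot.root g * z) = Θ (orb z) := by
    intro z
    obtain ⟨p, rfl⟩ := AdjoinRoot.mk_surjective z
    have : AdjoinRoot.root g * AdjoinRoot.mk g p = AdjoinRoot.mk g (X * p) := by
      rw [map_mul, AdjoinRoot.mk_X]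
    rw [this, horb, horb, map_mul, aeval_X, Module.End.mul_apply, hTv]
  have hsurj : Function.Surjective orb := by
    rw [← LinearMap.range_eq_top]
    apply hη
    · refine ⟨AdjoinRoot.mk g 1, ?_⟩
      rw [horb, map_one, Module.End.one_apply]
    · rintro v ⟨z, rfl⟩
      exact ⟨AdjoinRoot.root g * z, hmul z⟩
  have hinj : Function.Injective orb :=
    (LinearMap.injective_iff_surjective_of_finrank_eq_finrank hrB).2 hsurj
  let e : AdjoinRoot g ≃ₗ[F] E := LinearEquiv.ofBijective orb ⟨hinj, hsurj⟩
  have he : ∀ z, e z = orb z := fun z => rfl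
  have hu : IsUnit (AdjoinRoot.root g) := by
    have h1 : Function.Injective (LinearMap.mulLeft F (AdjoinRoot.root g)) := by
      rw [injective_iff_map_eq_zero]
      intro z hz
      rw [LinearMap.mulLeft_apply] at hz
      have h2 := hmul z
      rw [hz, map_zero] at h2
      have h3 : orb z = 0 := by
        have := h2.symm
        rwa [LinearEquiv.map_eq_zero_iff] at this
      exact hinj (by rw [h3, map_zero])
    obtain ⟨z, hz⟩ := (LinearMap.injective_iff_surjective.1 h1) 1
    rw [LinearMap.mulLeft_apply] at hz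
    exact IsUnit.of_mul_eq_one z hz
  have hAinj : Function.Injective (A : V →ₗ[F] V) := A.injective
  obtain ⟨x, y, v₀, t, J, φ, hyx, hfx, hcyc, hJ, -, -, -, hyJ⟩ :=
    facg (F := F) (B := AdjoinRoot g) (V := V) (AdjoinRoot.root g)
      AdjoinRoot.adjoinRoot_eq_top hu (by omega) (by omega) (A : V →ₗ[F] V) hAinj
      (by
        intro a ha
        obtain ⟨v, hv⟩ := hA a
        apply hv
        have := LinearMap.congr_fun ha v
        rw [LinearMap.smul_apply, Module.End.one_apply] at this
        exact this)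
      f hf (by omega) hf0
  have hxi : Function.Injective x := by
    intro v w hvw
    apply A.injective
    have h1 := hyx v
    have h2 := hyx w
    rw [hvw, h2] at h1
    exact h1.symm
  have hys : Function.Surjective y := by
    intro w
    refine ⟨x (A.symm w), ?_⟩
    rw [hyx]
    exact A.apply_symm_apply w
  have hyi : Function.Injective y := LinearMap.injective_iff_surjective.2 hys
  have hspan : ∀ v, ∃ p : F[X], aeval x p v₀ = v := by
    intro v
    obtain ⟨p, _, hp⟩ := px_span x v₀ (finrank F (AdjoinRoot g) + 1) (by omega) hcyc v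
    exact ⟨p, hp⟩
  have hx' : ((LinearEquiv.ofInjectiveEndo x hxi : V ≃ₗ[F] V) : V →ₗ[F] V) = x := by
    ext v
    rfl
  refine ⟨LinearEquiv.ofInjectiveEndo x hxi, LinearEquiv.ofInjectiveEndo y hyi, v₀,
    J.comp (e.symm : E →ₗ[F] AdjoinRoot g), ?_, ?_, ?_, ?_, ?_⟩
  · intro v
    exact hyx v
  · intro U hU hUx
    rw [Submodule.eq_top_iff']
    intro v
    obtain ⟨p, rfl⟩ := hspan v
    exact gfac_inv x U (fun v hv => hUx v hv) p hU
  · rw [hx']
    ext v
    obtain ⟨p, rfl⟩ := hspan v
    rw [← Module.End.mul_apply, ← map_mul, mul_comm, map_mul, Module.End.mul_apply, hfx, map_zero,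
      LinearMap.zero_apply]
  · exact hJ.comp e.symm.injective
  · intro w
    show y (J (e.symm w)) = J (e.symm (Θ w))
    rw [hyJ]
    congr 1
    apply e.injective
    rw [LinearEquiv.apply_symm_apply, he, hmul, ← he, LinearEquiv.apply_symm_apply]

end Pool.Agent.SLM
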