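import Pool.Agent.SLM.Fld2
import Pool.Agent.SLM.Geo3
import Pool.Agent.SLM.FacZ
import Pool.Agent.SLM.FacZ4
import Pool.Agent.SLM.TvQ
import Pool.Agent.SLN.Main

/-! Assembly for `n ≥ 4` and all `q` (helper67). -/

set_option autoImplicit false

namespace Pool.Agent.SLM

open Matrix Pool.Agent.SLN

theorem HasTv.dr {n : ℕ} {F : Type*} [Field F] {K : Subgroup (SLn n F)}
    (hK : ∀ x ∈ K, ¬ HasTv x) {x : SLn n F} (hx : HasTv x) : Dr K x :=
  fun h hmem => hK _ hmem (HasTv.conj h x hx)

/-- every nonscalar element of `SL_n(q)`, `n ≥ 4`, is a product of two elements with a power which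
is a transvection -/
theorem facZall {n : ℕ} {F : Type} [Field F] [Finite F] (hn : 4 ≤ n) (A : SLn n F)
    (hA : ¬ Sc A) : ∃ x y : SLn n F, HasTv x ∧ HasTv y ∧ x * y = A := by
  by_cases h : 5 ≤ n ∨ (n = 4 ∧ 4 ≤ Nat.card F)
  · exact facZ h A hA
  · have h1 : n = 4 := by omega
    subst h1
    have h2 : 1 < Nat.card F := Finite.one_lt_card
    exact facZ4 (by omega) A hA

/-- module Main -/
theorem main {n : ℕ} {F : Type} [Field F] [Finite F]
    (hn : 4 ≤ n) (K : Subgroup (SLn n F)) (hK : K ≠ ⊤) (g : SLn n F)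
    (hg : ¬ Sc g) : ∃ x y, Dr K x ∧ Dr K y ∧ x * y = g := by
  by_cases hc : ∃ x ∈ K, HasTv x
  swap
  · push Not at hc
    obtain ⟨x, y, hx, hy, hxy⟩ := facZall hn g hg
    exact ⟨x, y, hx.dr hc, hy.dr hc, hxy⟩
  obtain ⟨x₀, hx₀, k₀, φ₀, u₀, hφ₀, hu₀, hφu₀, hv₀⟩ := hc
  obtain ⟨m, rfl⟩ : ∃ m, n = m + 1 := ⟨n - 1, by omega⟩
  obtain ⟨L, _, _, _, s, hfin, hs0, hadj, hgen, -, -, -, -, hE⟩ := fld2 F m (by omega)
  have hE := hE (by omega)
  have hμ : Algebra.norm F s ≠ 0 := by
    have : FiniteDimensional F L := Module.Finite.of_finite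
    exact Algebra.norm_ne_zero_iff.2 hs0
  set μ := Algebra.norm F s with hμd
  by_cases hT : ∃ t ∈ K, IsT s t
  · obtain ⟨t, htK, Ψ, hΨ⟩ := hT
    set K' : Subgroup ((L × F) ≃ₗ[F] (L × F)) := K.map (tr Ψ) with hK'
    have htK' : tr Ψ t ∈ K' := Subgroup.mem_map_of_mem _ htK
    have ht : ∀ v, tr Ψ t v = (s * v.1, μ⁻¹ * v.2) := by
      intro v
      obtain ⟨v, rfl⟩ := Ψ.surjective v
      rw [tr_apply, hΨ]
    let fn : (Fin (m + 1) → F) → (Fin (m + 1) → F) →ₗ[F] F := fun φ =>
      { toFun := fun v => φ ⬝ᵥ v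
        map_add' := fun a b => dotProduct_add φ a b
        map_smul' := fun c a => dotProduct_smul c φ a }
    have hfn : ∀ φ v, fn φ v = φ ⬝ᵥ v := fun φ v => rfl
    by_cases hirr : ∀ U : Submodule F (L × F), (∀ k ∈ K', ∀ v ∈ U, k v ∈ U) → U = ⊥ ∨ U = ⊤
    · exfalso
      have hall : ∀ (φ : (L × F) →ₗ[F] F) (u : L × F), φ u = 0 →
          ∃ g ∈ K', ∀ v, g v = v + φ v • u := by
        refine geo3 (by omega) μ hμ s hgen hE K' (tr Ψ t) htK' ht hirr
          (fn φ₀ ∘ₗ (Ψ.symm : (L × F) →ₗ[F] (Fin (m + 1) → F))) (Ψ u₀) ?_ ?_ ?_ ?_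
        · intro h0
          apply hφ₀
          ext i
          have h1 := congrArg (fun f : (L × F) →ₗ[F] F => f (Ψ (Pi.single i 1))) h0
          simp only [LinearMap.comp_apply, LinearEquiv.coe_coe, LinearEquiv.symm_apply_apply,
            LinearMap.zero_apply, hfn] at h1
          simpa using h1
        · intro h0
          exact hu₀ ((LinearEquiv.map_eq_zero_iff Ψ).1 h0)
        · simp only [LinearMap.comp_apply, LinearEquiv.coe_coe, LinearEquiv.symm_apply_apply, hfn]
          exact hφu₀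
        · refine ⟨tr Ψ (x₀ ^ k₀), Subgroup.mem_map_of_mem _ (pow_mem hx₀ k₀), fun v => ?_⟩
          obtain ⟨v, rfl⟩ := Ψ.surjective v
          rw [tr_apply, hv₀, map_add, map_smul]
          simp only [LinearMap.comp_apply, LinearEquiv.coe_coe, LinearEquiv.symm_apply_apply, hfn]
      apply hK
      apply PSL3.genN
      intro φ u hφu
      obtain ⟨g', hg', h3⟩ := hall (fn φ ∘ₗ (Ψ.symm : (L × F) →ₗ[F] (Fin (m + 1) → F))) (Ψ u) (by
        simp only [LinearMap.comp_apply, LinearEquiv.coe_coe, LinearEquiv.symm_apply_apply]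
        exact hφu)
      obtain ⟨k, hk, rfl⟩ := Subgroup.mem_map.1 hg'
      refine ⟨k, hk, ?_⟩
      apply Matrix.ext_of_mulVec_single
      intro i
      have h4 := h3 (Ψ (Pi.single i 1))
      rw [tr_apply] at h4
      simp only [LinearMap.comp_apply, LinearEquiv.coe_coe, LinearEquiv.symm_apply_apply] at h4
      rw [← map_smul, ← map_add] at h4
      have h5 := Ψ.injective h4
      rw [h5, hfn, Matrix.add_mulVec, Matrix.one_mulVec, Matrix.vecMulVec_mulVec]
      congr 1
      ext j
      simp [mul_comm]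
    · push Not at hirr
      obtain ⟨U, hU, hb, htp⟩ := hirr
      have hUt : ∀ v ∈ U, ((s * v.1, μ⁻¹ * v.2) : L × F) ∈ U := by
        intro v hv
        rw [← ht]
        exact hU _ htK' v hv
      rcases inv_sub (by omega) μ s hgen U hUt with h | h | h | h
      · exact absurd h hb
      · exact absurd h htp
      · -- K fixes a point
        refine red (by omega) K (Ψ.symm (0, 1)) ?_ ?_ g
        · intro h0
          have := congrArg Ψ h0
          rw [LinearEquiv.apply_symm_apply, map_zero] at this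
          exact one_ne_zero (congrArg Prod.snd this)
        · intro k hk
          have h1 : tr Ψ k (0, 1) ∈ U := hU _ (Subgroup.mem_map_of_mem _ hk) _ ((h _).2 rfl)
          have h2 := (h _).1 h1
          refine ⟨(tr Ψ k (0, 1)).2, ?_⟩
          apply Ψ.injective
          rw [← tr_apply, LinearEquiv.apply_symm_apply, map_smul, LinearEquiv.apply_symm_apply]
          ext
          · simp [h2]
          · simp
      · -- K fixes a hyperplane
        have hΨ2 : ∀ v : Fin (m + 1) → F, (fun i => (Ψ (Pi.single i 1)).2) ⬝ᵥ v = (Ψ v).2 := by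
          intro v
          have h1 : v = ∑ i, v i • (Pi.single i 1 : Fin (m + 1) → F) := by
            ext j
            simp [Finset.sum_apply, Pi.single_apply]
          conv_rhs => rw [h1]
          rw [map_sum, Prod.snd_sum]
          simp only [map_smul, Prod.smul_snd, smul_eq_mul, dotProduct]
          exact Finset.sum_congr rfl fun i _ => mul_comm _ _
        refine redD (by omega) K (fun i => (Ψ (Pi.single i 1)).2) ?_ ?_ g
        · intro h0
          have h1 := hΨ2 (Ψ.symm (0, 1))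
          rw [h0, LinearEquiv.apply_symm_apply] at h1
          simp at h1
        · intro k hk
          have hker : ∀ v : Fin (m + 1) → F, (Ψ v).2 = 0 → (Ψ (k.1 *ᵥ v)).2 = 0 := by
            intro v hv
            have h1 : tr Ψ k (Ψ v) ∈ U := hU _ (Subgroup.mem_map_of_mem _ hk) _ ((h _).2 hv)
            rw [tr_apply] at h1
            exact (h _).1 h1
          set v1 := Ψ.symm (0, 1) with hv1
          have hv1' : (Ψ v1).2 = 1 := by rw [hv1, LinearEquiv.apply_symm_apply]
          refine ⟨(Ψ (k.1 *ᵥ v1)).2, ?_⟩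
          have h2 : ∀ v, (Ψ (k.1 *ᵥ v)).2 = (Ψ (k.1 *ᵥ v1)).2 * (Ψ v).2 := by
            intro v
            have h3 := hker (v - (Ψ v).2 • v1) (by
              rw [map_sub, map_smul, Prod.snd_sub, Prod.smul_snd, hv1']
              simp)
            rw [Matrix.mulVec_sub, Matrix.mulVec_smul, map_sub, map_smul, Prod.snd_sub,
              Prod.smul_snd, sub_eq_zero] at h3
            rw [h3, smul_eq_mul, mul_comm]
          ext i
          have h4 := h2 (Pi.single i 1)
          rw [← hΨ2, Matrix.dotProduct_mulVec] at h4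
          simpa using h4
  · push Not at hT
    obtain ⟨x, y, hx, hy, hxy⟩ := fac rfl (by omega) hfin s hadj g hg
    refine ⟨x, y, ?_, ?_, hxy⟩
    · intro h hmem
      refine hT _ hmem (IsT.conj h⁻¹ ?_)
      have : h⁻¹⁻¹ * (h⁻¹ * x * h) * h⁻¹ = x := by group
      rw [this]
      exact hx
    · intro h hmem
      refine hT _ hmem (IsT.conj h⁻¹ ?_)
      have : h⁻¹⁻¹ * (h⁻¹ * y * h) * h⁻¹ = y := by group
      rw [this]
      exact hy

end Pool.Agent.SLM
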