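import Pool.Agent.SLM.Defs

/-! Factorisation in `SL_4(2)` and `SL_4(3)`: definitions (helper67). -/

set_option autoImplicit false

namespace Pool.Agent.SLM

open Matrix

/-- 4 by 4 matrices -/
abbrev M4 (F : Type*) := Matrix (Fin 4) (Fin 4) F

/-- a power of `X` is a transvection -/
def PTv {F : Type*} [Field F] (X : M4 F) : Prop :=
  ∃ (k : ℕ) (u φ : Fin 4 → F), φ ≠ 0 ∧ u ≠ 0 ∧ φ ⬝ᵥ u = 0 ∧ X ^ k = 1 + vecMulVec u φ

/-- `C` is a product of two matrices with powers which are transvections -/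
def Good {F : Type*} [Field F] (C : M4 F) : Prop :=
  ∃ X Y : M4 F, X.det = 1 ∧ PTv X ∧ PTv Y ∧ X * Y = C

/-- type 1 -/
def C1 {F : Type*} [Field F] (a b c d : F) : M4 F := !![0,0,0,a; 1,0,0,b; 0,1,0,c; 0,0,1,d]

/-- type 2 -/
def C2 {F : Type*} [Field F] (a b c d e : F) : M4 F := !![0,0,a,e; 1,0,b,0; 0,1,c,0; 0,0,0,d]

/-- type 3 -/
def C3 {F : Type*} [Field F] (a b c d : F) : M4 F := !![0,a,0,0; 1,b,0,0; 0,0,0,c; 0,0,1,d]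

/-- type 4 -/
def C4 {F : Type*} [Field F] (a b c e : F) : M4 F := !![0,a,e,0; 1,b,0,0; 0,0,c,0; 0,0,0,c]

theorem ptv2 {F : Type*} [Field F] {X : M4 F} {u φ : Fin 4 → F}
    (h2 : X * X = 1 + vecMulVec u φ) (hφ : φ ≠ 0) (hu : u ≠ 0) (hd : φ ⬝ᵥ u = 0) : PTv X :=
  ⟨2, u, φ, hφ, hu, hd, by rw [pow_two, h2]⟩

theorem ptv3 {F : Type*} [Field F] {X X2 : M4 F} {u φ : Fin 4 → F} (h2 : X * X = X2)
    (h3 : X2 * X = 1 + vecMulVec u φ) (hφ : φ ≠ 0) (hu : u ≠ 0) (hd : φ ⬝ᵥ u = 0) : PTv X :=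
  ⟨3, u, φ, hφ, hu, hd, by rw [pow_succ, pow_two, h2, h3]⟩

theorem ptv8 {F : Type*} [Field F] {X X2 X4 : M4 F} {u φ : Fin 4 → F} (h2 : X * X = X2)
    (h4 : X2 * X2 = X4) (h8 : X4 * X4 = 1 + vecMulVec u φ) (hφ : φ ≠ 0) (hu : u ≠ 0)
    (hd : φ ⬝ᵥ u = 0) : PTv X :=
  ⟨8, u, φ, hφ, hu, hd, by
    rw [show 8 = 2 * 2 * 2 from rfl, pow_mul, pow_mul, pow_two X, h2, pow_two X2, h4, pow_two X4,
      h8]⟩

theorem ptv6 {F : Type*} [Field F] {X X2 X4 : M4 F} {u φ : Fin 4 → F} (h2 : X * X = X2)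
    (h4 : X2 * X2 = X4) (h6 : X4 * X2 = 1 + vecMulVec u φ) (hφ : φ ≠ 0) (hu : u ≠ 0)
    (hd : φ ⬝ᵥ u = 0) : PTv X :=
  ⟨6, u, φ, hφ, hu, hd, by
    rw [show 6 = 2 * (2 + 1) from rfl, pow_mul, pow_two X, h2, pow_succ, pow_two X2, h4, h6]⟩

theorem all2 {P : ZMod 2 → Prop} (h0 : P 0) (h1 : P 1) : ∀ x, P x := by
  intro x
  fin_cases x
  · exact h0
  · exact h1

theorem all3 {P : ZMod 3 → Prop} (h0 : P 0) (h1 : P 1) (h2 : P 2) : ∀ x, P x := by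
  intro x
  fin_cases x
  · exact h0
  · exact h1
  · exact h2

end Pool.Agent.SLM
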