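import Pool.Agent.SLM.Z4Defs

/-! Factorisation in `SL_4(2)`: explicit matrices found by computer (helper67). -/

set_option autoImplicit false

namespace Pool.Agent.SLM.Z4q2

open Matrix Pool.Agent.SLM

private def X0 : M4 (ZMod 2) := !![0, 0, 0, 1; 1, 1, 0, 1; 0, 1, 0, 0; 0, 0, 1, 0]

private theorem det0 : X0.det = 1 := by decide

private theorem tv0 : PTv X0 :=
  ptv3 (X2 := !![0, 0, 1, 0; 1, 1, 1, 0; 1, 1, 0, 1; 0, 1, 0, 0]) (u := ![1, 1, 1, 1]) (φ := ![1, 1, 0, 0]) (by decide) (by decide) (by decide) (by decide) (by decide)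

private def X1 : M4 (ZMod 2) := !![0, 0, 1, 0; 1, 1, 1, 1; 0, 1, 1, 0; 0, 0, 0, 1]

private theorem det1 : X1.det = 1 := by decide

private theorem tv1 : PTv X1 :=
  ptv3 (X2 := !![0, 1, 1, 0; 1, 0, 1, 0; 1, 0, 0, 1; 0, 0, 0, 1]) (u := ![1, 0, 1, 0]) (φ := ![0, 0, 0, 1]) (by decide) (by decide) (by decide) (by decide) (by decide)

private theorem g1_1_0_0_0 : Good (C1 (1 : ZMod 2) 0 0 0) :=
  ⟨X0, !![1, 1, 0, 1; 0, 1, 0, 0; 0, 0, 1, 0; 0, 0, 0, 1], det0, tv0,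
    ptv3 (X2 := !![1, 0, 0, 0; 0, 1, 0, 0; 0, 0, 1, 0; 0, 0, 0, 1]) (u := ![1, 0, 0, 0]) (φ := ![0, 1, 0, 1]) (by decide) (by decide) (by decide) (by decide) (by decide), by decide⟩

private theorem g1_1_0_0_1 : Good (C1 (1 : ZMod 2) 0 0 1) :=
  ⟨X1, !![1, 1, 1, 1; 0, 1, 0, 1; 0, 0, 0, 1; 0, 0, 1, 1], det1, tv1,
    ptv3 (X2 := !![1, 0, 0, 0; 0, 1, 1, 0; 0, 0, 1, 1; 0, 0, 1, 0]) (u := ![1, 0, 0, 0]) (φ := ![0, 1, 1, 1]) (by decide) (by decide) (by decide) (by decide) (by decide), by decide⟩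

private theorem g2_1_0_0_1_0 : Good (C2 (1 : ZMod 2) 0 0 1 0) :=
  ⟨X0, !![1, 1, 1, 0; 0, 1, 0, 0; 0, 0, 0, 1; 0, 0, 1, 0], det0, tv0,
    ptv2 (u := ![1, 0, 0, 0]) (φ := ![0, 0, 1, 1]) (by decide) (by decide) (by decide) (by decide), by decide⟩

private theorem g2_1_0_0_1_1 : Good (C2 (1 : ZMod 2) 0 0 1 1) :=
  ⟨X0, !![1, 1, 1, 1; 0, 1, 0, 0; 0, 0, 0, 1; 0, 0, 1, 1], det0, tv0,
    ptv3 (X2 := !![1, 0, 0, 1; 0, 1, 0, 0; 0, 0, 1, 1; 0, 0, 1, 0]) (u := ![1, 0, 0, 0]) (φ := ![0, 1, 0, 0]) (by decide) (by decide) (by decide) (by decide) (by decide), by decide⟩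

private theorem g1_1_0_1_0 : Good (C1 (1 : ZMod 2) 0 1 0) :=
  ⟨X0, !![1, 1, 0, 0; 0, 1, 0, 1; 0, 0, 1, 0; 0, 0, 0, 1], det0, tv0,
    ptv2 (u := ![1, 0, 0, 0]) (φ := ![0, 0, 0, 1]) (by decide) (by decide) (by decide) (by decide), by decide⟩

private theorem g3_1_0_1_0 : Good (C3 (1 : ZMod 2) 0 1 0) :=
  ⟨X0, !![1, 1, 0, 1; 0, 0, 0, 1; 0, 0, 1, 0; 0, 1, 0, 0], det0, tv0,
    ptv3 (X2 := !![1, 0, 0, 0; 0, 1, 0, 0; 0, 0, 1, 0; 0, 0, 0, 1]) (u := ![1, 1, 0, 1]) (φ := ![0, 1, 0, 1]) (by decide) (by decide) (by decide) (by decide) (by decide), by decide⟩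

private theorem g1_1_0_1_1 : Good (C1 (1 : ZMod 2) 0 1 1) :=
  ⟨X0, !![1, 1, 0, 0; 0, 1, 0, 1; 0, 0, 1, 1; 0, 0, 0, 1], det0, tv0,
    ptv2 (u := ![1, 0, 0, 0]) (φ := ![0, 0, 0, 1]) (by decide) (by decide) (by decide) (by decide), by decide⟩

private theorem g2_1_0_1_1_0 : Good (C2 (1 : ZMod 2) 0 1 1 0) :=
  ⟨X1, !![1, 1, 1, 1; 0, 1, 0, 0; 0, 0, 1, 0; 0, 0, 0, 1], det1, tv1,
    ptv3 (X2 := !![1, 0, 0, 0; 0, 1, 0, 0; 0, 0, 1, 0; 0, 0, 0, 1]) (u := ![1, 0, 0, 0]) (φ := ![0, 1, 1, 1]) (by decide) (by decide) (by decide) (by decide) (by decide), by decide⟩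

private theorem g2_1_0_1_1_1 : Good (C2 (1 : ZMod 2) 0 1 1 1) :=
  ⟨X0, !![1, 1, 0, 1; 0, 1, 1, 0; 0, 0, 0, 1; 0, 0, 1, 1], det0, tv0,
    ptv3 (X2 := !![1, 0, 0, 0; 0, 1, 1, 1; 0, 0, 1, 1; 0, 0, 1, 0]) (u := ![1, 0, 0, 0]) (φ := ![0, 1, 0, 1]) (by decide) (by decide) (by decide) (by decide) (by decide), by decide⟩

private theorem g3_1_0_1_1 : Good (C3 (1 : ZMod 2) 0 1 1) :=
  ⟨X0, !![1, 1, 0, 1; 0, 0, 0, 1; 0, 0, 1, 1; 0, 1, 0, 0], det0, tv0,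
    ptv2 (u := ![0, 0, 1, 0]) (φ := ![0, 1, 0, 1]) (by decide) (by decide) (by decide) (by decide), by decide⟩

private theorem g1_1_1_0_0 : Good (C1 (1 : ZMod 2) 1 0 0) :=
  ⟨X0, !![1, 1, 0, 0; 0, 1, 0, 0; 0, 0, 1, 0; 0, 0, 0, 1], det0, tv0,
    ptv3 (X2 := !![1, 0, 0, 0; 0, 1, 0, 0; 0, 0, 1, 0; 0, 0, 0, 1]) (u := ![1, 0, 0, 0]) (φ := ![0, 1, 0, 0]) (by decide) (by decide) (by decide) (by decide) (by decide), by decide⟩

private theorem g1_1_1_0_1 : Good (C1 (1 : ZMod 2) 1 0 1) :=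
  ⟨X1, !![1, 1, 1, 0; 0, 1, 0, 1; 0, 0, 0, 1; 0, 0, 1, 1], det1, tv1,
    ptv3 (X2 := !![1, 0, 1, 0; 0, 1, 1, 0; 0, 0, 1, 1; 0, 0, 1, 0]) (u := ![1, 0, 0, 0]) (φ := ![0, 1, 1, 1]) (by decide) (by decide) (by decide) (by decide) (by decide), by decide⟩

private theorem g2_1_1_0_1_0 : Good (C2 (1 : ZMod 2) 1 0 1 0) :=
  ⟨X1, !![1, 1, 1, 1; 0, 1, 1, 0; 0, 0, 1, 0; 0, 0, 0, 1], det1, tv1,
    ptv2 (u := ![1, 0, 0, 0]) (φ := ![0, 0, 1, 0]) (by decide) (by decide) (by decide) (by decide), by decide⟩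

private theorem g2_1_1_0_1_1 : Good (C2 (1 : ZMod 2) 1 0 1 1) :=
  ⟨X0, !![1, 1, 0, 1; 0, 1, 0, 0; 0, 0, 0, 1; 0, 0, 1, 1], det0, tv0,
    ptv3 (X2 := !![1, 0, 1, 0; 0, 1, 0, 0; 0, 0, 1, 1; 0, 0, 1, 0]) (u := ![1, 0, 0, 0]) (φ := ![0, 1, 0, 0]) (by decide) (by decide) (by decide) (by decide) (by decide), by decide⟩

private theorem g1_1_1_1_0 : Good (C1 (1 : ZMod 2) 1 1 0) :=
  ⟨X0, !![1, 1, 0, 1; 0, 1, 0, 1; 0, 0, 1, 0; 0, 0, 0, 1], det0, tv0,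
    ptv2 (u := ![1, 0, 0, 0]) (φ := ![0, 0, 0, 1]) (by decide) (by decide) (by decide) (by decide), by decide⟩

private theorem g3_1_1_1_0 : Good (C3 (1 : ZMod 2) 1 1 0) :=
  ⟨X0, !![1, 0, 0, 1; 0, 0, 0, 1; 0, 0, 1, 0; 0, 1, 0, 0], det0, tv0,
    ptv2 (u := ![1, 0, 0, 0]) (φ := ![0, 1, 0, 1]) (by decide) (by decide) (by decide) (by decide), by decide⟩

private theorem g1_1_1_1_1 : Good (C1 (1 : ZMod 2) 1 1 1) :=
  ⟨X0, !![1, 1, 0, 1; 0, 1, 0, 1; 0, 0, 1, 1; 0, 0, 0, 1], det0, tv0,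
    ptv2 (u := ![1, 0, 0, 0]) (φ := ![0, 0, 0, 1]) (by decide) (by decide) (by decide) (by decide), by decide⟩

private theorem g2_1_1_1_1_0 : Good (C2 (1 : ZMod 2) 1 1 1 0) :=
  ⟨X1, !![1, 1, 0, 1; 0, 1, 0, 0; 0, 0, 1, 0; 0, 0, 0, 1], det1, tv1,
    ptv3 (X2 := !![1, 0, 0, 0; 0, 1, 0, 0; 0, 0, 1, 0; 0, 0, 0, 1]) (u := ![1, 0, 0, 0]) (φ := ![0, 1, 0, 1]) (by decide) (by decide) (by decide) (by decide) (by decide), by decide⟩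

private theorem g2_1_1_1_1_1 : Good (C2 (1 : ZMod 2) 1 1 1 1) :=
  ⟨X0, !![1, 1, 1, 1; 0, 1, 1, 0; 0, 0, 0, 1; 0, 0, 1, 1], det0, tv0,
    ptv3 (X2 := !![1, 0, 1, 1; 0, 1, 1, 1; 0, 0, 1, 1; 0, 0, 1, 0]) (u := ![1, 0, 0, 0]) (φ := ![0, 1, 0, 1]) (by decide) (by decide) (by decide) (by decide) (by decide), by decide⟩

private theorem g3_1_1_1_1 : Good (C3 (1 : ZMod 2) 1 1 1) :=
  ⟨X0, !![1, 0, 0, 1; 0, 0, 0, 1; 0, 0, 1, 1; 0, 1, 0, 0], det0, tv0,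
    ptv2 (u := ![1, 0, 1, 0]) (φ := ![0, 1, 0, 1]) (by decide) (by decide) (by decide) (by decide), by decide⟩

private theorem g4_1_0_1_0 : Good (C4 (1 : ZMod 2) 0 1 0) :=
  ⟨X1, !![1, 0, 1, 1; 0, 1, 1, 0; 0, 1, 0, 0; 0, 0, 0, 1], det1, tv1,
    ptv3 (X2 := !![1, 1, 1, 0; 0, 0, 1, 0; 0, 1, 1, 0; 0, 0, 0, 1]) (u := ![1, 0, 0, 0]) (φ := ![0, 0, 0, 1]) (by decide) (by decide) (by decide) (by decide) (by decide), by decide⟩

private theorem g4_1_0_1_1 : Good (C4 (1 : ZMod 2) 0 1 1) :=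
  ⟨X1, !![1, 0, 1, 1; 0, 1, 0, 0; 0, 1, 1, 0; 0, 0, 0, 1], det1, tv1,
    ptv2 (u := ![1, 0, 0, 0]) (φ := ![0, 1, 0, 0]) (by decide) (by decide) (by decide) (by decide), by decide⟩

private theorem g4_1_1_1_0 : Good (C4 (1 : ZMod 2) 1 1 0) :=
  ⟨X0, !![1, 0, 1, 0; 0, 0, 1, 0; 0, 0, 0, 1; 0, 1, 0, 0], det0, tv0,
    ptv3 (X2 := !![1, 0, 1, 1; 0, 0, 0, 1; 0, 1, 0, 0; 0, 0, 1, 0]) (u := ![1, 0, 0, 0]) (φ := ![0, 1, 1, 1]) (by decide) (by decide) (by decide) (by decide) (by decide), by decide⟩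

private theorem g4_1_1_1_1 : Good (C4 (1 : ZMod 2) 1 1 1) :=
  ⟨X1, !![1, 1, 1, 1; 0, 1, 0, 0; 0, 1, 1, 0; 0, 0, 0, 1], det1, tv1,
    ptv2 (u := ![1, 0, 0, 0]) (φ := ![0, 1, 0, 0]) (by decide) (by decide) (by decide) (by decide), by decide⟩

theorem good1 : ∀ a b c d : ZMod 2, -a = 1 → Good (C1 a b c d) :=
  (all2 (all2 (all2 (all2 (fun h => absurd h (by decide)) (fun h => absurd h (by decide))) (all2 (fun h => absurd h (by decide)) (fun h => absurd h (by decide)))) (all2 (all2 (fun h => absurd h (by decide)) (fun h => absurd h (by decide))) (all2 (fun h => absurd h (by decide)) (fun h => absurd h (by decide))))) (all2 (all2 (all2 (fun _ => g1_1_0_0_0) (fun _ => g1_1_0_0_1)) (all2 (fun _ => g1_1_0_1_0) (fun _ => g1_1_0_1_1))) (all2 (all2 (fun _ => g1_1_1_0_0) (fun _ => g1_1_1_0_1)) (all2 (fun _ => g1_1_1_1_0) (fun _ => g1_1_1_1_1)))))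

theorem good2 : ∀ a b c d : ZMod 2, a * d = 1 → Good (C2 a b c d 0) ∧ Good (C2 a b c d 1) :=
  (all2 (all2 (all2 (all2 (fun h => absurd h (by decide)) (fun h => absurd h (by decide))) (all2 (fun h => absurd h (by decide)) (fun h => absurd h (by decide)))) (all2 (all2 (fun h => absurd h (by decide)) (fun h => absurd h (by decide))) (all2 (fun h => absurd h (by decide)) (fun h => absurd h (by decide))))) (all2 (all2 (all2 (fun h => absurd h (by decide)) (fun _ => ⟨g2_1_0_0_1_0, g2_1_0_0_1_1⟩)) (all2 (fun h => absurd h (by decide)) (fun _ => ⟨g2_1_0_1_1_0, g2_1_0_1_1_1⟩))) (all2 (all2 (fun h => absurd h (by decide)) (fun _ => ⟨g2_1_1_0_1_0, g2_1_1_0_1_1⟩)) (all2 (fun h => absurd h (by decide)) (fun _ => ⟨g2_1_1_1_1_0, g2_1_1_1_1_1⟩)))))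

theorem good3 : ∀ a b c d : ZMod 2, a * c = 1 → Good (C3 a b c d) :=
  (all2 (all2 (all2 (all2 (fun h => absurd h (by decide)) (fun h => absurd h (by decide))) (all2 (fun h => absurd h (by decide)) (fun h => absurd h (by decide)))) (all2 (all2 (fun h => absurd h (by decide)) (fun h => absurd h (by decide))) (all2 (fun h => absurd h (by decide)) (fun h => absurd h (by decide))))) (all2 (all2 (all2 (fun h => absurd h (by decide)) (fun h => absurd h (by decide))) (all2 (fun _ => g3_1_0_1_0) (fun _ => g3_1_0_1_1))) (all2 (all2 (fun h => absurd h (by decide)) (fun h => absurd h (by decide))) (all2 (fun _ => g3_1_1_1_0) (fun _ => g3_1_1_1_1)))))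

theorem good4 : ∀ a b c : ZMod 2, -(a * c ^ 2) = 1 → Good (C4 a b c 0) ∧ Good (C4 a b c 1) :=
  (all2 (all2 (all2 (fun h => absurd h (by decide)) (fun h => absurd h (by decide))) (all2 (fun h => absurd h (by decide)) (fun h => absurd h (by decide)))) (all2 (all2 (fun h => absurd h (by decide)) (fun _ => ⟨g4_1_0_1_0, g4_1_0_1_1⟩)) (all2 (fun h => absurd h (by decide)) (fun _ => ⟨g4_1_1_1_0, g4_1_1_1_1⟩))))

end Pool.Agent.SLM.Z4q2
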